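import Pool.Agent.U131.SR.Stm

/-! Project SR, package A1 (helper194): Artin's factorization, for the part of the partial zeta
functions odd under `z`. -/

set_option autoImplicit false
set_option linter.style.haveILetI false

namespace Pool.Agent.U131.SR
open NumberField Module IntermediateField Pool.Agent.K4H33.SK
open Pool.Agent.K4H33.SK.Stmt (Sub)

namespace A1

open Classical in
/-- The quotient of the group ring by `1 + w`. -/
lemma twisted (A : Type) [CommGroup A] (w : A) (hw : w * w = 1) :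
    ∃ (R : Type) (_ : CommRing R) (ρ : A →* R) (l : A → R →+ ℤ), ρ w = -1 ∧
      ∀ g s, l g (ρ s) = (if s = g then 1 else 0) - (if s = g * w then 1 else 0) := by
  have hw' : w⁻¹ = w := inv_eq_of_mul_eq_one_left hw
  let I : Ideal (MonoidAlgebra ℤ A) := Ideal.span {1 + MonoidAlgebra.single w 1}
  let L : A → MonoidAlgebra ℤ A →+ ℤ := fun g =>
    { toFun := fun x => x.coeff g - x.coeff (g * w)
      map_zero' := by simp
      map_add' := fun x y => by
        simp only [MonoidAlgebra.coeff_add, Finsupp.add_apply]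
        ring }
  have hL : ∀ g, ∀ x ∈ I, L g x = 0 := by
    intro g x hx
    obtain ⟨a, rfl⟩ := Ideal.mem_span_singleton'.1 hx
    show (a * (1 + MonoidAlgebra.single w 1)).coeff g -
      (a * (1 + MonoidAlgebra.single w 1)).coeff (g * w) = 0
    rw [mul_add, mul_one, MonoidAlgebra.coeff_add, Finsupp.add_apply, Finsupp.add_apply,
      MonoidAlgebra.coeff_mul_single_apply, MonoidAlgebra.coeff_mul_single_apply,
      mul_inv_cancel_right, hw']
    ring
  refine ⟨MonoidAlgebra ℤ A ⧸ I, inferInstance,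
    (Ideal.Quotient.mk I : MonoidAlgebra ℤ A →* MonoidAlgebra ℤ A ⧸ I).comp
      (MonoidAlgebra.of ℤ A),
    fun g => QuotientAddGroup.lift I.toAddSubgroup (L g) (fun x hx => hL g x hx), ?_, ?_⟩
  · have h : (Ideal.Quotient.mk I) (1 + MonoidAlgebra.single w 1) = 0 :=
      Ideal.Quotient.eq_zero_iff_mem.2 (Ideal.subset_span rfl)
    rw [map_add, map_one] at h
    show (Ideal.Quotient.mk I) (MonoidAlgebra.single w 1) = -1
    exact (neg_eq_of_add_eq_zero_right h).symm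
  · intro g s
    show (MonoidAlgebra.single s (1 : ℤ)).coeff g -
      (MonoidAlgebra.single s (1 : ℤ)).coeff (g * w) = _
    rw [MonoidAlgebra.coeff_single, Finsupp.single_apply, Finsupp.single_apply]

lemma ite_iff' {P Q : Prop} {iP : Decidable P} {iQ : Decidable Q} (h : P ↔ Q) :
    (@ite ℤ P iP 1 0) = (@ite ℤ Q iQ 1 0) := by
  by_cases hq : Q
  · rw [if_pos (h.2 hq), if_pos hq]
  · rw [if_neg (fun hp => hq (h.1 hp)), if_neg hq]

open Classical in
lemma rho (M N : Sub) (hN : Normal ℚ N)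
    (ab : ∀ σ τ : GQ, Fixes M σ → Fixes M τ → ∀ x ∈ N, σ (τ x) = τ (σ x)) (z : GQ)
    (hzM : Fixes M z) (hzz : ∀ x ∈ N, z (z x) = x) :
    ∃ (R : Type) (_ : CommRing R) (ρ : GQ → R) (l : GQ → R →+ ℤ),
      ρ 1 = 1 ∧ ρ z = -1 ∧
      (∀ s t, Fixes M s → Fixes M t → (∀ x ∈ N, s x = t x) → ρ s = ρ t) ∧
      (∀ s t, Fixes M s → Fixes M t → ρ (s * t) = ρ s * ρ t) ∧
      ∀ g s, Fixes M g → Fixes M s → l g (ρ s) =
        (if ∀ x ∈ N, s x = g x then 1 else 0) -
          (if ∀ x ∈ N, s x = (g * z) x then 1 else 0) := by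
  let π : GQ →* (N ≃ₐ[ℚ] N) := AlgEquiv.restrictNormalHom N
  have hπa : ∀ (s : GQ) (x : N), ((π s x : N) : Qbar) = s x := fun s x =>
    AlgEquiv.restrictNormal_commutes s N x
  have hπ : ∀ s t : GQ, π s = π t ↔ ∀ x ∈ N, s x = t x := by
    intro s t
    constructor
    · intro h x hx
      have h1 := hπa s ⟨x, hx⟩
      have h2 := hπa t ⟨x, hx⟩
      rw [h] at h1
      exact h1.symm.trans h2
    · intro h
      ext x
      rw [hπa, hπa]
      exact h x x.2
  let A : Subgroup (N ≃ₐ[ℚ] N) := M.fixingSubgroup.map π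
  have hA : ∀ s, Fixes M s → π s ∈ A := fun s hs => ⟨s, fixes_iff.1 hs, rfl⟩
  letI : CommGroup A := { (inferInstance : Group A) with
    mul_comm := by
      rintro ⟨_, a, ha, rfl⟩ ⟨_, b, hb, rfl⟩
      apply Subtype.ext
      show π a * π b = π b * π a
      rw [← map_mul, ← map_mul, hπ]
      intro x hx
      exact ab a b (fixes_iff.2 ha) (fixes_iff.2 hb) x hx }
  obtain ⟨R, iR, ρ, l, h1, h2⟩ := twisted A ⟨π z, hA z hzM⟩ (by
    apply Subtype.ext
    show π z * π z = 1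
    rw [← map_mul, ← map_one π, hπ]
    exact hzz)
  refine ⟨R, iR, fun s => if h : Fixes M s then ρ ⟨π s, hA s h⟩ else 0,
    fun g => if h : Fixes M g then l ⟨π g, hA g h⟩ else 0, ?_, ?_, ?_, ?_, ?_⟩
  · simp only [dif_pos (Fixes.one M)]
    have : (⟨π 1, hA 1 (Fixes.one M)⟩ : A) = 1 := Subtype.ext (map_one π)
    rw [this, map_one]
  · simp only [dif_pos hzM]
    exact h1
  · intro s t hs ht h
    simp only [dif_pos hs, dif_pos ht]
    congr 1
    exact Subtype.ext ((hπ s t).2 h)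
  · intro s t hs ht
    simp only [dif_pos hs, dif_pos ht, dif_pos (hs.mul ht)]
    rw [← map_mul]
    congr 1
    exact Subtype.ext (map_mul π s t)
  · intro g s hg hs
    simp only [dif_pos hg, dif_pos hs]
    rw [h2]
    refine congrArg₂ (fun a b : ℤ => a - b) (ite_iff' ?_) (ite_iff' ?_)
    · rw [Subtype.mk.injEq, hπ]
    · rw [← hπ, map_mul, ← Subtype.coe_inj]
      rfl

open Classical in
lemma cnt_eq (K L : Sub) [NumberField K] (f : ℕ) (art : Ideal (𝓞 K) → GQ) (g : GQ) (n : ℕ)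
    (hn : n.Coprime f) (S : Finset (Ideal (𝓞 K))) (hS : ∀ 𝔟, 𝔟 ∈ S ↔ Ideal.absNorm 𝔟 = n) :
    (cnt K L (pri K f) art g n : ℤ) =
      ∑ 𝔟 ∈ S, if ∀ x ∈ L, art 𝔟 x = g x then 1 else 0 := by
  rw [Finset.sum_boole]
  congr 1
  unfold cnt
  rw [← Fintype.card_coe, ← Nat.card_eq_fintype_card]
  refine Nat.card_congr (Equiv.subtypeEquivRight fun 𝔟 => ?_)
  rw [Finset.mem_filter, hS]
  constructor
  · rintro ⟨h1, -, h3⟩
    exact ⟨h1, h3⟩
  · rintro ⟨h1, h3⟩
    refine ⟨h1, ?_, h3⟩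
    rw [coprime_norm, h1]
    exact hn

lemma SI_eq (K : Sub) [NumberField K] {R : Type} [CommRing R] (ψ : Ideal (𝓞 K) → R) (n : ℕ)
    (S : Finset (Ideal (𝓞 K))) (hS : ∀ 𝔟, 𝔟 ∈ S ↔ Ideal.absNorm 𝔟 = n) :
    SI K ψ n = ∑ 𝔟 ∈ S, ψ 𝔟 := by
  unfold SI
  have : {𝔟 : Ideal (𝓞 K) | Ideal.absNorm 𝔟 = n} = (S : Set (Ideal (𝓞 K))) := by
    ext 𝔟
    rw [Finset.mem_coe, hS]
    rfl
  rw [this, finsum_mem_coe_finset]

lemma exists_not_fixes (K : Sub) (h : finrank ℚ K = 2) : ∃ b : GQ, ¬ Fixes K b := by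
  by_contra hc
  push Not at hc
  have h1 : K = ⊥ := by
    rw [eq_bot_iff]
    intro x hx
    exact mem_of_fixed ⊥ fun σ _ => hc σ x hx
  rw [h1, IntermediateField.finrank_bot] at h
  omega

/-- alternating sums -/
lemma alt_sum {R : Type} [CommRing R] (r : R) (e : ℕ) :
    ∑ i ∈ Finset.range (e + 1), r ^ i * (-r) ^ (e - i) = if Even e then (r * r) ^ (e / 2) else 0 := by
  have h1 : ∀ i ∈ Finset.range (e + 1), r ^ i * (-r) ^ (e - i) = (-1) ^ (e - i) * r ^ e := by
    intro i hi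
    rw [Finset.mem_range] at hi
    rw [neg_pow r]
    have : r ^ e = r ^ i * r ^ (e - i) := by rw [← pow_add]; congr 1; omega
    rw [this]; ring
  rw [Finset.sum_congr rfl h1, ← Finset.sum_mul]
  have h2 : ∑ i ∈ Finset.range (e + 1), (-1 : R) ^ (e - i) = ∑ i ∈ Finset.range (e + 1), (-1 : R) ^ i := by
    rw [← Finset.sum_range_reflect]
    refine Finset.sum_congr rfl fun i hi => ?_
    rw [Finset.mem_range] at hi
    congr 1
    omega
  rw [h2, neg_one_geom_sum]
  by_cases he : Even e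
  · rw [if_neg (by rw [Nat.even_add_one]; simpa using he), if_pos he, one_mul]
    obtain ⟨k, rfl⟩ := he
    rw [← pow_two, ← pow_mul]
    congr 1
    omega
  · rw [if_pos (by rw [Nat.even_add_one]; exact he), if_neg he, zero_mul]

end A1

open A1 in
theorem t_A1 : S_FR → S_MU → S_A1 := by
  classical
  intro FR MU ι F M N H _ _ f ζ c z T artF artM hfin hD hG hNT hartF hartM g hgF hgM n hn
  obtain ⟨R, iR, ρ, l, ρ1, ρz, ρc, ρm, ρl⟩ := rho M N hD.normal hD.ab_M z hG.z_M hG.zz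
  have hf := hD.two_le
  have nm : ∀ (s : GQ) {x : Qbar}, x ∈ N → s x ∈ N := fun s x hx => normal_mem hD.normal s hx
  have hfix : ∀ (K : Sub), K ≤ N → ∀ s t : GQ, (∀ x ∈ N, s x = t x) → Fixes K s → Fixes K t :=
    fun K hK s t h hs x hx => by rw [← h x (hK hx)]; exact hs x hx
  have qc : ∀ s, ¬ Fixes M s → Fixes M (s * c) := fun s hs => quad hD.deg_M hs hG.c_M
  have nmul : ∀ s t : GQ, Fixes M s → ¬ Fixes M t → ¬ Fixes M (s * t) := by
    intro s t hs ht h
    apply ht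
    have := hs.inv.mul h
    rwa [inv_mul_cancel_left] at this
  have nmul' : ∀ s t : GQ, ¬ Fixes M s → Fixes M t → ¬ Fixes M (s * t) := by
    intro s t hs ht h
    apply hs
    have := h.mul ht.inv
    rwa [mul_inv_cancel_right] at this
  obtain ⟨ρF, hρF⟩ : ∃ ρF : GQ → R, ρF = fun s => if Fixes M s then ρ s else ρ (s * c) :=
    ⟨_, rfl⟩
  have Fp : ∀ s, Fixes M s → ρF s = ρ s := fun s hs => by rw [hρF]; exact if_pos hs
  have Fn : ∀ s, ¬ Fixes M s → ρF s = ρ (s * c) := fun s hs => by rw [hρF]; exact if_neg hs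
  have F1 : ∀ s t : GQ, (∀ x ∈ N, s x = t x) → ρF s = ρF t := by
    intro s t h
    by_cases hs : Fixes M s
    · have ht := hfix M hD.M_le s t h hs
      rw [Fp s hs, Fp t ht]
      exact ρc s t hs ht h
    · have ht : ¬ Fixes M t := fun ht => hs (hfix M hD.M_le t s (fun x hx => (h x hx).symm) ht)
      rw [Fn s hs, Fn t ht]
      exact ρc _ _ (qc s hs) (qc t ht) (fun x hx => h _ (nm c hx))
  have F2 : ∀ s t : GQ, Fixes F s → Fixes F t → ρF (s * t) = ρF s * ρF t := by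
    intro s t hsF htF
    by_cases hs : Fixes M s
    · by_cases ht : Fixes M t
      · rw [Fp s hs, Fp t ht, Fp _ (hs.mul ht), ρm s t hs ht]
      · rw [Fp s hs, Fn t ht, Fn _ (nmul s t hs ht), ← ρm s _ hs (qc t ht), mul_assoc]
    · by_cases ht : Fixes M t
      · rw [Fn s hs, Fp t ht, Fn _ (nmul' s t hs ht), ← ρm _ t (qc s hs) ht]
        refine ρc _ _ (qc _ (nmul' s t hs ht)) ((qc s hs).mul ht) fun x hx => ?_
        show s (t (c x)) = s (c (t x))
        rw [hD.ab_F t c htF hG.c_F x hx]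
      · rw [Fn s hs, Fn t ht, Fp _ (quad hD.deg_M hs ht), ← ρm _ _ (qc s hs) (qc t ht)]
        refine ρc _ _ (quad hD.deg_M hs ht) ((qc s hs).mul (qc t ht)) fun x hx => ?_
        show s (t x) = s (c (t (c x)))
        rw [← hD.ab_F t c htF hG.c_F _ (nm c hx), hG.cc]
  have F0 : ρF 1 = 1 := by rw [Fp 1 (Fixes.one M), ρ1]
  -- the two functions on ideals
  obtain ⟨ψF, hψF⟩ : ∃ ψF : Ideal (𝓞 F) → R, ψF = fun 𝔟 => ρF (artF 𝔟) := ⟨_, rfl⟩
  obtain ⟨ψM, hψM⟩ : ∃ ψM : Ideal (𝓞 M) → R, ψM = fun 𝔟 => ρ (artM 𝔟) := ⟨_, rfl⟩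
  have top_id : ∀ (K : Sub) [NumberField K] (art : Ideal (𝓞 K) → GQ), IsArtin K T (pri K f) art →
      ∀ x ∈ N, art ⊤ x = (1 : GQ) x := by
    intro K _ art hart x hx
    have hc : IsCoprime (⊤ : Ideal (𝓞 K)) (pri K f) := by
      rw [← Ideal.one_eq_top]; exact isCoprime_one_left
    have h1 := hart.mul ⊤ ⊤ hc hc x (hNT hx)
    rw [Ideal.top_mul] at h1
    exact ((art ⊤).injective h1).symm
  have ψF_top : ψF ⊤ = 1 := by
    rw [hψF]
    show ρF (artF ⊤) = 1
    rw [F1 _ _ (top_id F artF hartF), F0]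
  have ψM_top : ψM ⊤ = 1 := by
    rw [hψM]
    show ρ (artM ⊤) = 1
    have h1 := top_id M artM hartM
    rw [ρc (artM ⊤) 1 (hfix M hD.M_le 1 _ (fun x hx => (h1 x hx).symm) (Fixes.one M))
      (Fixes.one M) h1, ρ1]
  have ψF_mul : ∀ 𝔟 𝔠 : Ideal (𝓞 F), IsCoprime 𝔟 (pri F f) → IsCoprime 𝔠 (pri F f) →
      ψF (𝔟 * 𝔠) = ψF 𝔟 * ψF 𝔠 := by
    intro 𝔟 𝔠 hb hc
    rw [hψF]
    show ρF (artF (𝔟 * 𝔠)) = ρF (artF 𝔟) * ρF (artF 𝔠)
    rw [← F2 _ _ (hartF.fix 𝔟 hb) (hartF.fix 𝔠 hc)]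
    exact F1 _ _ fun x hx => hartF.mul 𝔟 𝔠 hb hc x (hNT hx)
  have ψM_mul : ∀ 𝔟 𝔠 : Ideal (𝓞 M), IsCoprime 𝔟 (pri M f) → IsCoprime 𝔠 (pri M f) →
      ψM (𝔟 * 𝔠) = ψM 𝔟 * ψM 𝔠 := by
    intro 𝔟 𝔠 hb hc
    rw [hψM]
    show ρ (artM (𝔟 * 𝔠)) = ρ (artM 𝔟) * ρ (artM 𝔠)
    have h1 := hartM.fix 𝔟 hb
    have h2 := hartM.fix 𝔠 hc
    have h3 : ∀ x ∈ N, artM (𝔟 * 𝔠) x = (artM 𝔟 * artM 𝔠) x :=
      fun x hx => hartM.mul 𝔟 𝔠 hb hc x (hNT hx)
    rw [← ρm _ _ h1 h2]
    exact ρc _ _ (hfix M hD.M_le _ _ (fun x hx => (h3 x hx).symm) (Fixes.mul h1 h2))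
      (Fixes.mul h1 h2) h3
  obtain ⟨uF1, uF2, uF3, uF4⟩ := MU F R f ψF hD.deg_F hf ψF_top ψF_mul
  obtain ⟨uM1, uM2, uM3, uM4⟩ := MU M R f ψM hD.deg_M hf ψM_top ψM_mul
  obtain ⟨bF, hbF⟩ := exists_not_fixes F hD.deg_F
  -- `c` and `z`
  have cinv : ∀ x, c⁻¹ x = c x := fun x => by
    rw [AlgEquiv.aut_inv, AlgEquiv.symm_apply_eq, hG.cc]
  have bcb : ∀ b : GQ, ¬ Fixes F b → ∀ x ∈ N, b (c (b⁻¹ x)) = z (c x) := by
    intro b hb x hx
    rw [hG.bc b hb _ (nm b⁻¹ hx), AlgEquiv.aut_inv, AlgEquiv.apply_symm_apply]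
  have ρzm : ∀ s, Fixes M s → ρ (s * z) = - ρ s := fun s hs => by
    rw [ρm s z hs hG.z_M, ρz, mul_neg_one]
  have core : ∀ m : ℕ, m.Coprime f → SI F ψF m = SI M ψM m := by
    intro m
    induction m using Nat.recOnPrimeCoprime with
    | zero =>
      intro h
      rw [Nat.coprime_zero_left] at h
      omega
    | coprime a b _ _ hab ha hb =>
      intro h
      have h1 : a.Coprime f := Nat.Coprime.coprime_dvd_left (Dvd.intro _ rfl) h
      have h2 : b.Coprime f := Nat.Coprime.coprime_dvd_left (Dvd.intro_left _ rfl) h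
      rw [uF2 a b h1 h2 hab, uM2 a b h1 h2 hab, ha h1, hb h2]
    | prime_pow p e hp =>
      intro h
      rcases Nat.eq_zero_or_pos e with he | he
      · subst he
        rw [pow_zero, uF1, uM1]
      have hpf : ¬ p ∣ f := by
        intro hd
        have h1 : p.Coprime f := Nat.Coprime.coprime_dvd_left (dvd_pow_self p he.ne') h
        exact hp.one_lt.ne' (Nat.Coprime.eq_one_of_dvd h1 hd)
      obtain ⟨φ, -, -, -, -, hφ⟩ := FR N f hfin hD.normal hD.unr p hp hpf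
      obtain ⟨sF, iF⟩ := hφ F hD.deg_F hD.F_le
      obtain ⟨sM, iM⟩ := hφ M hD.deg_M hD.M_le
      by_cases hφF : Fixes F φ
      · obtain ⟨P₁, P₂, f1, f2, f3, f4, f5, f6, f7⟩ := sF hφF
        obtain ⟨f8, f9⟩ := f7 T artF hNT hartF
        have f10 := f9 bF hbF
        rw [uF3 p e P₁ P₂ hp hpf f1 f2 f3 f4 f5 f6]
        by_cases hφM : Fixes M φ
        · -- both split, `φ` central
          obtain ⟨Q₁, Q₂, g1, g2, g3, g4, g5, g6, g7⟩ := sM hφM
          obtain ⟨g8, g9⟩ := g7 T artM hNT hartM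
          have g10 := g9 c hG.c_M
          rw [uM3 p e Q₁ Q₂ hp hpf g1 g2 g3 g4 g5 g6]
          have cen : ∀ b : GQ, ∀ x ∈ N, b (φ (b⁻¹ x)) = φ x := by
            intro b x hx
            rw [← hG.central φ hφF hφM b _ (nm b⁻¹ hx), AlgEquiv.aut_inv,
              AlgEquiv.apply_symm_apply]
          have a1 : ψF P₁ = ρ φ := by
            rw [hψF, ← Fp φ hφM]
            exact F1 _ _ f8
          have a2 : ψF P₂ = ρ φ := by
            rw [hψF, ← Fp φ hφM]
            exact F1 _ _ fun x hx => by rw [f10 x hx, cen bF x hx]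
          have b1 : ψM Q₁ = ρ φ := by
            rw [hψM]
            exact ρc _ _ (hfix M hD.M_le φ _ (fun x hx => (g8 x hx).symm) hφM) hφM g8
          have b2 : ψM Q₂ = ρ φ := by
            rw [hψM]
            have h1 : ∀ x ∈ N, artM Q₂ x = φ x := fun x hx => by rw [g10 x hx, cen c x hx]
            exact ρc _ _ (hfix M hD.M_le φ _ (fun x hx => (h1 x hx).symm) hφM) hφM h1
          rw [a1, a2, b1, b2]
        · -- `F` splits, `M` inert
          obtain ⟨g1, g2⟩ := iM hφM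
          have g3 := g2 T artM hNT hartM
          rw [uM4 p e hp hpf g1]
          have hr := qc φ hφM
          have hrF : Fixes F (φ * c) := hφF.mul hG.c_F
          have cen : ∀ b : GQ, ∀ x ∈ N, b ((φ * c) (b⁻¹ x)) = (φ * c) x := by
            intro b x hx
            rw [← hG.central (φ * c) hrF hr b _ (nm b⁻¹ hx), AlgEquiv.aut_inv,
              AlgEquiv.apply_symm_apply]
          have a1 : ψF P₁ = ρ (φ * c) := by
            rw [hψF, ← Fn φ hφM]
            exact F1 _ _ f8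
          have a2 : ψF P₂ = - ρ (φ * c) := by
            rw [hψF, ← ρzm _ hr]
            have h1 : ∀ x ∈ N, artF P₂ x = ((φ * c * z) * c) x := by
              intro x hx
              rw [f10 x hx]
              show bF (φ (bF⁻¹ x)) = (φ * c) (z (c x))
              have h2 := cen bF (z (c x)) (nm z (nm c hx))
              rw [← h2, ← bcb bF hbF x hx]
              show bF (φ (bF⁻¹ x)) = bF (φ (c (bF⁻¹ (bF (c (bF⁻¹ x))))))
              have h3 : ∀ y, bF⁻¹ (bF y) = y := fun y => by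
                rw [AlgEquiv.aut_inv, AlgEquiv.symm_apply_apply]
              rw [h3, hG.cc]
            have h4 : Fixes M (φ * c * z) := hr.mul hG.z_M
            have h5 : ¬ Fixes M (φ * c * z * c) := nmul _ _ h4 hG.c_M
            show ρF (artF P₂) = _
            rw [F1 _ _ h1, Fn _ h5]
            exact ρc _ _ (qc _ h5) h4 fun x hx => by
              show (φ * c * z) (c (c x)) = _
              rw [hG.cc]
          have b1 : ψM (pri M p) = ρ (φ * c) * ρ (φ * c) := by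
            rw [hψM, ← ρm _ _ hr hr]
            have h6 : Fixes M (φ * φ) := quad hD.deg_M hφM hφM
            show ρ (artM (pri M p)) = _
            rw [ρc _ (φ * φ) (hfix M hD.M_le (φ * φ) _ (fun x hx => (g3 x hx).symm) h6) h6 g3]
            refine ρc _ _ h6 (hr.mul hr) fun x hx => ?_
            show φ (φ x) = φ (c (φ (c x)))
            rw [← hD.ab_F φ c hφF hG.c_F _ (nm c hx), hG.cc]
          rw [a1, a2, b1, alt_sum]
      · obtain ⟨f1, f2⟩ := iF hφF
        have f3 := f2 T artF hNT hartF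
        rw [uF4 p e hp hpf f1]
        by_cases hφM : Fixes M φ
        · -- `F` inert, `M` splits
          obtain ⟨Q₁, Q₂, g1, g2, g3, g4, g5, g6, g7⟩ := sM hφM
          obtain ⟨g8, g9⟩ := g7 T artM hNT hartM
          have g10 := g9 c hG.c_M
          rw [uM3 p e Q₁ Q₂ hp hpf g1 g2 g3 g4 g5 g6]
          have b1 : ψM Q₁ = ρ φ := by
            rw [hψM]
            exact ρc _ _ (hfix M hD.M_le φ _ (fun x hx => (g8 x hx).symm) hφM) hφM g8
          have h6 : Fixes M (φ * z) := hφM.mul hG.z_M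
          have b2 : ψM Q₂ = - ρ φ := by
            rw [hψM, ← ρzm _ hφM]
            have h1 : ∀ x ∈ N, artM Q₂ x = (φ * z) x := by
              intro x hx
              rw [g10 x hx, cinv]
              show c (φ (c x)) = φ (z x)
              rw [hG.bc φ hφF x hx, ← hG.z_comm c _ (nm c (nm φ hx)), hG.cc,
                hG.z_comm φ x hx]
            exact ρc _ _ (hfix M hD.M_le _ _ (fun x hx => (h1 x hx).symm) h6) h6 h1
          have a1 : ψF (pri F p) = ρ φ * ρ φ := by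
            rw [hψF, ← ρm _ _ hφM hφM, ← Fp _ (hφM.mul hφM)]
            exact F1 _ _ f3
          rw [a1, b1, b2, alt_sum]
        · -- both inert
          obtain ⟨g1, g2⟩ := iM hφM
          have g3 := g2 T artM hNT hartM
          rw [uM4 p e hp hpf g1]
          have h6 : Fixes M (φ * φ) := quad hD.deg_M hφM hφM
          have a1 : ψF (pri F p) = ρ (φ * φ) := by
            rw [hψF, ← Fp _ h6]
            exact F1 _ _ f3
          have b1 : ψM (pri M p) = ρ (φ * φ) := by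
            rw [hψM]
            exact ρc _ (φ * φ) (hfix M hD.M_le (φ * φ) _ (fun x hx => (g3 x hx).symm) h6) h6 g3
          rw [a1, b1]
  -- conclusion
  have finS : ∀ (K : Sub) [NumberField K], ∃ S : Finset (Ideal (𝓞 K)),
      ∀ 𝔟, 𝔟 ∈ S ↔ Ideal.absNorm 𝔟 = n := by
    intro K _
    have h1 := Ideal.finite_setOfPred_absNorm_eq (S := 𝓞 K) n
    exact ⟨h1.toFinset, fun 𝔟 => by rw [Set.Finite.mem_toFinset]; rfl⟩
  obtain ⟨SF, hSF⟩ := finS F
  obtain ⟨SM, hSM⟩ := finS M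
  have h1 := congrArg (l g) (core n hn)
  rw [SI_eq F ψF n SF hSF, SI_eq M ψM n SM hSM, map_sum, map_sum] at h1
  rw [cnt_eq F H f artF g n hn SF hSF, cnt_eq F H f artF (g * z) n hn SF hSF,
    cnt_eq M N f artM g n hn SM hSM, cnt_eq M N f artM (g * z) n hn SM hSM,
    ← Finset.sum_sub_distrib, ← Finset.sum_sub_distrib]
  have hMs : ∀ 𝔟 ∈ SM, l g (ψM 𝔟) = (if ∀ x ∈ N, artM 𝔟 x = g x then 1 else 0) -
      (if ∀ x ∈ N, artM 𝔟 x = (g * z) x then 1 else 0) := by
    intro 𝔟 hb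
    rw [hψM]
    refine ρl g _ hgM (hartM.fix 𝔟 ?_)
    rw [coprime_norm, (hSM 𝔟).1 hb]
    exact hn
  have hHN : H ≤ N := fun x hx => ((hD.mem_H x).1 hx).1
  have key : ∀ g' s : GQ, Fixes F g' → Fixes M g' → Fixes F s → Fixes M s →
      ((∀ x ∈ N, s x = g' x) ↔ ∀ x ∈ H, s x = g' x) := by
    intro g' s hg1 hg2 hs1 hs2
    constructor
    · exact fun h x hx => h x (hHN hx)
    · intro h
      have h2 : Fixes H (g'⁻¹ * s) := agree_iff.1 h
      rcases hG.H_fix _ h2 with h3 | h3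
      · exact agree_iff.2 h3
      · exact absurd (hfix M hD.M_le _ c h3 (hg2.inv.mul hs2)) hG.c_M
  have hFs : ∀ 𝔟 ∈ SF, l g (ψF 𝔟) = (if ∀ x ∈ H, artF 𝔟 x = g x then 1 else 0) -
      (if ∀ x ∈ H, artF 𝔟 x = (g * z) x then 1 else 0) := by
    intro 𝔟 hb
    have hs : Fixes F (artF 𝔟) := by
      refine hartF.fix 𝔟 ?_
      rw [coprime_norm, (hSF 𝔟).1 hb]
      exact hn
    rw [hψF]
    show l g (ρF (artF 𝔟)) = _
    by_cases hsM : Fixes M (artF 𝔟)
    · rw [Fp _ hsM, ρl g _ hgM hsM]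
      exact congrArg₂ (fun a b : ℤ => a - b) (ite_iff' (key g _ hgF hgM hs hsM))
        (ite_iff' (key (g * z) _ (hgF.mul hG.z_F) (hgM.mul hG.z_M) hs hsM))
    · have h4 := qc _ hsM
      have h5 : Fixes F (artF 𝔟 * c) := hs.mul hG.c_F
      have h6 : ∀ x ∈ H, (artF 𝔟 * c) x = artF 𝔟 x := fun x hx => by
        show artF 𝔟 (c x) = _
        rw [hG.c_H x hx]
      have h7 : ∀ g' : GQ, (∀ x ∈ H, (artF 𝔟 * c) x = g' x) ↔ ∀ x ∈ H, artF 𝔟 x = g' x :=
        fun g' => forall₂_congr fun x hx => by rw [h6 x hx]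
      rw [Fn _ hsM, ρl g _ hgM h4]
      exact congrArg₂ (fun a b : ℤ => a - b)
        (ite_iff' ((key g _ hgF hgM h5 h4).trans (h7 g)))
        (ite_iff' ((key (g * z) _ (hgF.mul hG.z_F) (hgM.mul hG.z_M) h5 h4).trans (h7 _)))
  rw [Finset.sum_congr rfl hFs, Finset.sum_congr rfl hMs] at h1
  exact h1

end Pool.Agent.U131.SR
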