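import Pool.Agent.U131.SR.Stm

/-!
# Project SR, package A2

The derivative at `0` of the partial zeta functions of `P/M`, for `M` an imaginary quadratic field
and `P` a subfield of a cyclotomic field.
-/

set_option autoImplicit false
set_option linter.style.haveILetI false

namespace Pool.Agent.U131.SR
open NumberField Module IntermediateField Pool.Agent.K4H33.SK
open Pool.Agent.K4H33.SK.Stmt (Sub)

/-! ### Galois theory -/

section
variable {f : ℕ} [NeZero f] {ζ : Qbar} (hζ : IsPrimitiveRoot ζ f)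

/-- every unit comes from an automorphism -/
lemma A2_surj (u : (ZMod f)ˣ) : ∃ g : GQ, hζ.autToPow ℚ g = u := by
  have hf : 0 < f := Nat.pos_of_ne_zero (NeZero.ne f)
  have h1 : IsPrimitiveRoot (ζ ^ (u : ZMod f).val) f :=
    hζ.pow_of_coprime _ (ZMod.val_coe_unit_coprime u)
  have h2 : minpoly ℚ (ζ ^ (u : ZMod f).val) = minpoly ℚ ζ := by
    rw [← Polynomial.cyclotomic_eq_minpoly_rat hζ hf,
      ← Polynomial.cyclotomic_eq_minpoly_rat h1 hf]
  have h3 : IsConjRoot ℚ (ζ ^ (u : ZMod f).val) ζ := h2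
  rw [isConjRoot_iff_exists_algEquiv] at h3
  obtain ⟨σ, hσ⟩ := h3
  exact ⟨σ, aut_eq hζ (ZMod.natCast_zmod_val _) hσ⟩

/-- the kernel of `pp` -/
lemma A2_pp_one (K : Sub) (u : (ZMod f)ˣ) :
    pp hζ K u = 1 ↔ ∃ g : GQ, Fixes K g ∧ hζ.autToPow ℚ g = u := by
  constructor
  · intro h
    obtain ⟨g, hg, hg2⟩ := (QuotientGroup.eq_one_iff (N := UU hζ K) u).1 h
    exact ⟨g, fixes_iff.2 hg, hg2⟩
  · rintro ⟨g, hg, rfl⟩
    exact (QuotientGroup.eq_one_iff _).2 ⟨g, fixes_iff.1 hg, rfl⟩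

lemma A2_conj_ne {ι : Qbar →+* ℂ} {M : Sub} (hM : M ≤ ℚ⟮ζ⟯) (him : ∃ x ∈ M, (ι x).im ≠ 0)
    {c : GQ} (hc : ∀ x, ι (c x) = (starRingEnd ℂ) (ι x)) : ¬ Fixes M c ∧ pp hζ M (-1) ≠ 1 := by
  have h1 : ¬ Fixes M c := by
    intro h
    obtain ⟨x, hx, hx2⟩ := him
    have h2 := hc x
    rw [h x hx] at h2
    exact hx2 (Complex.conj_eq_iff_im.1 h2.symm)
  refine ⟨h1, fun h => h1 ?_⟩
  have h2 : qq hζ M c = qq hζ M 1 := by
    rw [qq_apply, aut_conj hζ hc, h, map_one]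
  intro x hx
  exact (qq_eq_iff hζ hM).1 h2 x hx

/-- exactly one of `u`, `-u` is trivial on an imaginary quadratic field -/
lemma A2_neg {ι : Qbar →+* ℂ} {M : Sub} (hd : finrank ℚ M = 2) (hM : M ≤ ℚ⟮ζ⟯)
    (him : ∃ x ∈ M, (ι x).im ≠ 0) (u : (ZMod f)ˣ) :
    pp hζ M (-1 * u) = 1 ↔ ¬ pp hζ M u = 1 := by
  obtain ⟨c, hc⟩ := exists_conj ι
  obtain ⟨h1, h2⟩ := A2_conj_ne hζ hM him hc
  constructor
  · intro h h3
    rw [map_mul, h3, mul_one] at h
    exact h2 h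
  · intro h
    obtain ⟨g, rfl⟩ := A2_surj hζ u
    have h3 : ¬ Fixes M g := fun h3 => h ((A2_pp_one hζ M _).2 ⟨g, h3, rfl⟩)
    refine (A2_pp_one hζ M _).2 ⟨c * g, quad hd h1 h3, ?_⟩
    rw [map_mul, aut_conj hζ hc]

lemma A2_chi {M P : Sub} (hMP : M ≤ P) (u : (ZMod f)ˣ) [Decidable (pp hζ M u = 1)] :
    chiQ hζ M P (pp hζ P u) = if pp hζ M u = 1 then 1 else -1 := by
  classical
  unfold chiQ
  have h : (∃ g : GQ, Fixes M g ∧ qq hζ P g = pp hζ P u) ↔ pp hζ M u = 1 := by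
    constructor
    · rintro ⟨g, hg, hg2⟩
      rw [qq_apply] at hg2
      have h1 : pp hζ P ((hζ.autToPow ℚ g)⁻¹ * u) = 1 := by
        rw [map_mul, map_inv, ← hg2, inv_mul_cancel]
      obtain ⟨t, ht, ht2⟩ := (A2_pp_one hζ P _).1 h1
      refine (A2_pp_one hζ M _).2 ⟨g * t, hg.mul (ht.mono hMP), ?_⟩
      rw [map_mul, ht2, mul_inv_cancel_left]
    · intro h
      obtain ⟨g, hg, hg2⟩ := (A2_pp_one hζ M _).1 h
      exact ⟨g, hg, by rw [qq_apply, hg2]⟩
  by_cases h2 : pp hζ M u = 1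
  · rw [if_pos (h.2 h2), if_pos h2]
  · rw [if_neg (fun h3 => h2 (h.1 h3)), if_neg h2]

lemma A2_chi_inv {M P : Sub} {g : GQ} (hg : Fixes M g) (x : QQ hζ P) :
    chiQ hζ M P (qq hζ P g * x⁻¹) = chiQ hζ M P x := by
  classical
  unfold chiQ
  have h : ∀ x : QQ hζ P, (∃ t : GQ, Fixes M t ∧ qq hζ P t = x) →
      ∃ t : GQ, Fixes M t ∧ qq hζ P t = qq hζ P g * x⁻¹ := by
    rintro x ⟨t, ht, rfl⟩
    exact ⟨g * t⁻¹, hg.mul ht.inv, by rw [map_mul, map_inv]⟩
  have h2 : (∃ t : GQ, Fixes M t ∧ qq hζ P t = qq hζ P g * x⁻¹) ↔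
      ∃ t : GQ, Fixes M t ∧ qq hζ P t = x := by
    constructor
    · intro h3
      have h4 := h _ h3
      rw [mul_inv_rev, inv_inv, mul_comm x, mul_inv_cancel_left] at h4
      exact h4
    · exact h x
  by_cases h3 : ∃ t : GQ, Fixes M t ∧ qq hζ P t = x
  · rw [if_pos h3, if_pos (h2.2 h3)]
  · rw [if_neg h3, if_neg (fun h4 => h3 (h2.1 h4))]

include hζ in
/-- an automorphism fixing the real elements of `P` is `1` or `c` on `P` -/
lemma A2_real {ι : Qbar →+* ℂ} {P R : Sub} (hP : P ≤ ℚ⟮ζ⟯)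
    (hR : ∀ x, x ∈ R ↔ x ∈ P ∧ (ι x).im = 0) {c : GQ}
    (hc : ∀ x, ι (c x) = (starRingEnd ℂ) (ι x)) {h : GQ} (hh : Fixes R h) :
    (∀ x ∈ P, h x = x) ∨ (∀ x ∈ P, h x = c x) := by
  have hcP : ∀ x ∈ P, c x ∈ P := by
    intro x hx
    apply mem_of_fixed
    intro σ hσ
    have h1 := comm_adjoin hζ σ c x (hP hx)
    rw [h1, hσ x hx]
  have hcc : ∀ x, c (c x) = x := by
    intro x
    apply ι.injective
    rw [hc, hc, Complex.conj_conj]
  have key : ∀ x ∈ P, h x = x ∨ h x = c x := by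
    intro x hx
    have h1 : x + c x ∈ R := by
      refine (hR _).2 ⟨add_mem hx (hcP x hx), ?_⟩
      rw [map_add, hc]
      simp
    have h2 : x * c x ∈ R := by
      refine (hR _).2 ⟨mul_mem hx (hcP x hx), ?_⟩
      rw [map_mul, hc, Complex.mul_conj]
      exact Complex.ofReal_im _
    have h3 := hh _ h1
    have h4 := hh _ h2
    rw [map_add] at h3
    rw [map_mul] at h4
    have h5 : (h x - x) * (h x - c x) = 0 := by
      have h6 : h (c x) = x + c x - h x := by rw [← h3]; ring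
      rw [h6] at h4
      linear_combination -h4
    rcases mul_eq_zero.1 h5 with h6 | h6
    · exact Or.inl (sub_eq_zero.1 h6)
    · exact Or.inr (sub_eq_zero.1 h6)
  by_contra hcon
  push Not at hcon
  obtain ⟨⟨x, hx, hx2⟩, ⟨y, hy, hy2⟩⟩ := hcon
  have h1 : h x = c x := (key x hx).resolve_left hx2
  have h2 : h y = y := (key y hy).resolve_right hy2
  rcases key (x + y) (add_mem hx hy) with h3 | h3
  · rw [map_add, h2] at h3
    exact hx2 (add_right_cancel h3)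
  · rw [map_add, map_add, h1] at h3
    exact hy2 (add_left_cancel h3)

lemma A2_class {ι : Qbar →+* ℂ} {P R : Sub} (hP : P ≤ ℚ⟮ζ⟯)
    (hR : ∀ x, x ∈ R ↔ x ∈ P ∧ (ι x).im = 0) (w v : (ZMod f)ˣ) :
    pp hζ R w = pp hζ R v ↔ pp hζ P w = pp hζ P v ∨ pp hζ P w = pp hζ P (-1) * pp hζ P v := by
  obtain ⟨c, hc⟩ := exists_conj ι
  have hRP : R ≤ P := fun x hx => ((hR x).1 hx).1
  have hcR : Fixes R c := by
    intro x hx
    apply ι.injective
    rw [hc]
    exact Complex.conj_eq_iff_im.2 ((hR x).1 hx).2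
  have hm : ∀ t : (ZMod f)ˣ, pp hζ R t = 1 ↔ pp hζ P t = 1 ∨ pp hζ P t = pp hζ P (-1) := by
    intro t
    constructor
    · intro h
      obtain ⟨g, hg, rfl⟩ := (A2_pp_one hζ R _).1 h
      rcases A2_real hζ hP hR hc hg with h1 | h1
      · left
        exact (A2_pp_one hζ P _).2 ⟨g, h1, rfl⟩
      · right
        rw [← aut_conj hζ hc]
        exact (qq_eq_iff hζ hP).2 h1
    · rintro (h | h)
      · obtain ⟨g, hg, rfl⟩ := (A2_pp_one hζ P _).1 h
        exact (A2_pp_one hζ R _).2 ⟨g, hg.mono hRP, rfl⟩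
      · obtain ⟨g, rfl⟩ := A2_surj hζ t
        rw [← aut_conj hζ hc] at h
        have h1 := (qq_eq_iff hζ hP).1 h
        refine (A2_pp_one hζ R _).2 ⟨g, ?_, rfl⟩
        intro x hx
        rw [h1 x (hRP hx), hcR x hx]
  have h1 := hm (w * v⁻¹)
  rw [map_mul, map_mul, map_inv, map_inv, mul_inv_eq_one, mul_inv_eq_one,
    mul_inv_eq_iff_eq_mul] at h1
  exact h1

end

/-! ### The derivative -/

section
variable {f : ℕ} [NeZero f]

/-- `1/2 - u/f` -/
noncomputable def A2th (u : (ZMod f)ˣ) : ℝ := 1 / 2 - ((u : ZMod f).val : ℝ) / f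

lemma A2th_neg (hf : 2 ≤ f) (u : (ZMod f)ˣ) : A2th (-1 * u) = -A2th u := by
  unfold A2th
  have h0 : (u : ZMod f) ≠ 0 := by
    intro h0
    have h1 := u.isUnit
    rw [h0] at h1
    have : Fact (1 < f) := ⟨hf⟩
    exact not_isUnit_zero h1
  have : NeZero (u : ZMod f) := ⟨h0⟩
  have h2 : ((-1 * u : (ZMod f)ˣ) : ZMod f) = -(u : ZMod f) := by simp
  rw [h2, ZMod.val_neg_of_ne_zero, Nat.cast_sub (ZMod.val_lt _).le]
  have hf0 : (f : ℝ) ≠ 0 := Nat.cast_ne_zero.2 (NeZero.ne f)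
  field_simp
  ring

lemma A2_pair (A : (ZMod f)ˣ → Prop) [DecidablePred A] (hA : ∀ u, A (-1 * u) ↔ ¬ A u)
    (F : (ZMod f)ˣ → ℂ) : ∑ u, F u = ∑ u, if A u then F u + F (-1 * u) else 0 := by
  have h1 : (∑ u, if A u then F (-1 * u) else 0) = ∑ u, if A u then 0 else F u := by
    rw [← Equiv.sum_comp (Equiv.mulLeft (-1 : (ZMod f)ˣ))]
    refine Finset.sum_congr rfl fun u _ => ?_
    change (if A (-1 * u) then F (-1 * (-1 * u)) else 0) = _
    have h2 : -1 * (-1 * u) = u := by simp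
    rw [h2]
    by_cases h : A u
    · rw [if_pos h, if_neg (fun h3 => (hA u).1 h3 h)]
    · rw [if_neg h, if_pos ((hA u).2 h)]
  have h3 : (∑ u, if A u then F u + F (-1 * u) else 0) =
      (∑ u, if A u then F u else 0) + ∑ u, if A u then F (-1 * u) else 0 := by
    rw [← Finset.sum_add_distrib]
    refine Finset.sum_congr rfl fun u _ => ?_
    split_ifs <;> simp
  rw [h3, h1, ← Finset.sum_add_distrib]
  refine Finset.sum_congr rfl fun u _ => ?_
  split_ifs <;> simp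

lemma A2_deriv {Q : Type} [CommGroup Q] [Fintype Q] (p : (ZMod f)ˣ →* Q) (hf : 2 ≤ f) (q : Q)
    (χ : Q → ℂ) (hχ : ∀ x, χ (q * x⁻¹) = χ x) :
    deriv (fun s => ∑ x : Q, χ x * (zq p x s * zq p (q * x⁻¹) s)) 0 =
      ∑ u : (ZMod f)ˣ, 2 * (χ (p u) * ((A2th u : ℂ) * deriv (zq p (q * (p u)⁻¹)) 0)) := by
  classical
  have d : ∀ x, DifferentiableAt ℂ (zq p x) 0 := fun x => zq_diff _ _ (by simp)
  have h6 := HasDerivAt.fun_sum (u := (Finset.univ : Finset Q))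
      (A := fun x s => χ x * (zq p x s * zq p (q * x⁻¹) s)) (x := (0 : ℂ))
      (A' := fun x => χ x * (deriv (zq p x) 0 * zq p (q * x⁻¹) 0 +
        zq p x 0 * deriv (zq p (q * x⁻¹)) 0))
      (fun x _ => ((d x).hasDerivAt.mul (d _).hasDerivAt).const_mul (χ x))
  rw [h6.deriv]
  have e2 : ∑ x, χ x * (deriv (zq p x) 0 * zq p (q * x⁻¹) 0) =
      ∑ x, χ x * (zq p x 0 * deriv (zq p (q * x⁻¹)) 0) := by
    rw [← Equiv.sum_comp ((Equiv.inv Q).trans (Equiv.mulLeft q))]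
    refine Finset.sum_congr rfl fun x _ => ?_
    have h7 : q * (q * x⁻¹)⁻¹ = x := by
      rw [mul_inv_rev, inv_inv, mul_comm x, mul_inv_cancel_left]
    simp only [Equiv.trans_apply, Equiv.inv_apply, Equiv.coe_mulLeft]
    rw [hχ, h7, mul_comm (deriv _ _)]
  have e1 : ∑ x, χ x * (deriv (zq p x) 0 * zq p (q * x⁻¹) 0 +
      zq p x 0 * deriv (zq p (q * x⁻¹)) 0) =
      ∑ x, 2 * (χ x * (zq p x 0 * deriv (zq p (q * x⁻¹)) 0)) := by
    have h8 : ∑ x, χ x * (deriv (zq p x) 0 * zq p (q * x⁻¹) 0 +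
        zq p x 0 * deriv (zq p (q * x⁻¹)) 0) =
        ∑ x, χ x * (deriv (zq p x) 0 * zq p (q * x⁻¹) 0) +
          ∑ x, χ x * (zq p x 0 * deriv (zq p (q * x⁻¹)) 0) := by
      rw [← Finset.sum_add_distrib]
      exact Finset.sum_congr rfl fun x _ => by ring
    rw [h8, e2, ← Finset.sum_add_distrib]
    exact Finset.sum_congr rfl fun x _ => by ring
  rw [e1]
  have e3 : ∀ x : Q, 2 * (χ x * (zq p x 0 * deriv (zq p (q * x⁻¹)) 0)) =
      ∑ u : (ZMod f)ˣ, if p u = x then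
        2 * (χ (p u) * ((A2th u : ℂ) * deriv (zq p (q * (p u)⁻¹)) 0)) else 0 := by
    intro x
    rw [zq_zero _ hf, theta, Rat.cast_sum, Finset.sum_mul, Finset.mul_sum, Finset.mul_sum]
    refine Finset.sum_congr rfl fun u _ => ?_
    by_cases h : p u = x
    · subst h
      rw [if_pos rfl, if_pos rfl]
      unfold A2th
      push_cast
      ring
    · rw [if_neg h, if_neg h]
      simp
  rw [Finset.sum_congr rfl fun x _ => e3 x, Finset.sum_comm]
  refine Finset.sum_congr rfl fun u _ => ?_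
  rw [Finset.sum_ite_eq]
  simp

end

/-! ### The units -/

section
variable {f : ℕ} [NeZero f] {ζ : Qbar} (hζ : IsPrimitiveRoot ζ f)

lemma A2_eR {ι : Qbar →+* ℂ} {P R : Sub} (hf : 2 ≤ f) (hs : Std ι f ζ) (hP : P ≤ ℚ⟮ζ⟯)
    (hR : ∀ x, x ∈ R ↔ x ∈ P ∧ (ι x).im = 0) (hne : pp hζ P (-1) ≠ 1)
    [DecidableEq (QQ hζ P)] (v : (ZMod f)ˣ) :
    Real.log ‖ι (eR hζ R (pp hζ R v))‖ =
      (∑ w : (ZMod f)ˣ, if pp hζ P w = pp hζ P v then
        Real.log ‖1 - Complex.exp (2 * Real.pi * Complex.I * ((w : ZMod f).val : ℂ) / f)‖ else 0) +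
      ∑ w : (ZMod f)ˣ, if pp hζ P w = pp hζ P (-1) * pp hζ P v then
        Real.log ‖1 - Complex.exp (2 * Real.pi * Complex.I * ((w : ZMod f).val : ℂ) / f)‖
        else 0 := by
  classical
  have hw : ∀ w : (ZMod f)ˣ, ι (1 - ζ ^ (w : ZMod f).val) =
      1 - Complex.exp (2 * Real.pi * Complex.I * ((w : ZMod f).val : ℂ) / f) := by
    intro w
    rw [map_sub, map_one, map_pow, hs, ← Complex.exp_nat_mul]
    congr 2
    ring
  have hw0 : ∀ w : (ZMod f)ˣ, 1 - ζ ^ (w : ZMod f).val ≠ 0 := by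
    intro w h
    have h1 : ζ ^ (w : ZMod f).val = 1 := (sub_eq_zero.1 h).symm
    have h2 := (hζ.pow_eq_one_iff_dvd _).1 h1
    have h3 := (ZMod.natCast_eq_zero_iff _ f).2 h2
    rw [ZMod.natCast_zmod_val] at h3
    have h4 := w.isUnit
    rw [h3] at h4
    have : Fact (1 < f) := ⟨hf⟩
    exact not_isUnit_zero h4
  unfold eR
  rw [map_prod, norm_prod, Real.log_prod, ← Finset.sum_add_distrib]
  · refine Finset.sum_congr rfl fun w _ => ?_
    have h1 := A2_class hζ hP hR w v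
    by_cases h2 : pp hζ P w = pp hζ P v
    · have h3 : ¬ pp hζ P w = pp hζ P (-1) * pp hζ P v := by
        intro h3
        rw [h2] at h3
        exact hne (right_eq_mul.1 h3)
      rw [if_pos (h1.2 (Or.inl h2)), if_pos h2, if_neg h3, add_zero, hw]
    · by_cases h3 : pp hζ P w = pp hζ P (-1) * pp hζ P v
      · rw [if_pos (h1.2 (Or.inr h3)), if_neg h2, if_pos h3, zero_add, hw]
      · rw [if_neg (fun h => (h1.1 h).elim h2 h3), if_neg h2, if_neg h3, map_one, norm_one,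
          Real.log_one, add_zero]
  · intro w _
    rw [norm_ne_zero_iff, Ne, map_eq_zero]
    split_ifs
    · exact hw0 w
    · exact one_ne_zero

end

/-- A2 -/
theorem t_A2 : S_LD → S_CYD → S_A2 := by
  classical
  intro hLD hCYD ι M P R T _ f _ ζ hζ art hf hs hd hMP hPc hPT hζT him hR hart g hg E hE
  haveI : Fintype (QQ hζ P) := Fintype.ofFinite _
  have hMc : M ≤ ℚ⟮ζ⟯ := hMP.trans hPc
  obtain ⟨c, hc⟩ := exists_conj ι
  have hne : pp hζ P (-1) ≠ 1 := by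
    intro h
    obtain ⟨t, ht, ht2⟩ := (A2_pp_one hζ P _).1 h
    exact (A2_conj_ne hζ hMc him hc).2 ((A2_pp_one hζ M _).2 ⟨t, ht.mono hMP, ht2⟩)
  have h1 := hLD M P T f ζ hζ art hf hd hMP hPc hPT hζT hart g hg
  rw [(isZeta_deriv hE h1 (fun _ _ => rfl)).1,
    A2_deriv (pp hζ P) hf (qq hζ P g) (chiQ hζ M P) (fun x => A2_chi_inv hζ hg x),
    A2_pair (fun u => pp hζ M u = 1) (fun u => A2_neg hζ hd hMc him u), Complex.ofReal_sum,
    ← Finset.sum_neg_distrib]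
  refine Finset.sum_congr rfl fun u _ => ?_
  by_cases hu : pp hζ M u = 1
  · rw [if_pos hu, if_pos hu, A2_chi hζ hMP, A2_chi hζ hMP, if_pos hu,
      if_neg (fun h => (A2_neg hζ hd hMc him u).1 h hu), A2th_neg hf]
    set v : (ZMod f)ˣ := hζ.autToPow ℚ g * u⁻¹ with hv
    have e1 : qq hζ R g * (pp hζ R u)⁻¹ = pp hζ R v := by
      rw [hv, map_mul, map_inv, qq_apply]
    have e2 : qq hζ P g * (pp hζ P u)⁻¹ = pp hζ P v := by
      rw [hv, map_mul, map_inv, qq_apply]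
    have e4 : (pp hζ P (-1)) * pp hζ P (-1) = 1 := by
      rw [← map_mul]; simp
    have e3 : qq hζ P g * (pp hζ P (-1 * u))⁻¹ = pp hζ P (-1) * pp hζ P v := by
      rw [← e2, map_mul, mul_inv, inv_eq_of_mul_eq_one_left e4, mul_left_comm]
    rw [e1, e2, e3, A2_eR hζ hf hs hPc hR hne v]
    have h3 := hCYD f hf (QQ hζ P) (pp hζ P) (pp hζ P v)
    have h4 := hCYD f hf (QQ hζ P) (pp hζ P) (pp hζ P (-1) * pp hζ P v)
    rw [← mul_assoc, e4, one_mul] at h4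
    have h5 : (1 / 2 - (((u : ZMod f).val : ℝ)) / f) = A2th u := rfl
    rw [h5, Complex.ofReal_mul, Complex.ofReal_add, Complex.ofReal_neg]
    linear_combination (A2th u : ℂ) * (h3 + h4)
  · rw [if_neg hu, if_neg hu, Complex.ofReal_zero, neg_zero]

end Pool.Agent.U131.SR
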