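import Pool.Agent.U131.SR.Stm

/-! Project SR, package AR (helper981): the abelian root property -/

set_option autoImplicit false
set_option linter.style.haveILetI false

namespace Pool.Agent.U131.SR
open NumberField Module IntermediateField Pool.Agent.K4H33.SK
open Pool.Agent.K4H33.SK.Stmt (Sub)

namespace AR

variable {ι : Qbar →+* ℂ}

lemma pos_iff {x : Qbar} : Pos ι x ↔ ∃ r : ℝ, 0 < r ∧ ι x = (r : ℂ) := by
  constructor
  · rintro ⟨h1, h2⟩
    exact ⟨(ι x).re, h2, Complex.ext (by simp) (by simp [h1])⟩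
  · rintro ⟨r, h1, h2⟩
    refine ⟨?_, ?_⟩
    · rw [h2]; simp
    · rw [h2]; simpa using h1

lemma pos_ne {x : Qbar} (h : Pos ι x) : x ≠ 0 := by
  obtain ⟨r, h1, h2⟩ := pos_iff.1 h
  rintro rfl
  rw [map_zero] at h2
  have : r = 0 := by exact_mod_cast h2.symm
  linarith

lemma pos_mul {x y : Qbar} (hx : Pos ι x) (hy : Pos ι y) : Pos ι (x * y) := by
  obtain ⟨r, h1, h2⟩ := pos_iff.1 hx
  obtain ⟨s, h3, h4⟩ := pos_iff.1 hy
  refine pos_iff.2 ⟨r * s, mul_pos h1 h3, ?_⟩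
  rw [map_mul, h2, h4]
  push_cast
  rfl

lemma pos_inv {x : Qbar} (hx : Pos ι x) : Pos ι x⁻¹ := by
  obtain ⟨r, h1, h2⟩ := pos_iff.1 hx
  refine pos_iff.2 ⟨r⁻¹, inv_pos.2 h1, ?_⟩
  rw [map_inv₀, h2]
  push_cast
  rfl

lemma pos_pow {x : Qbar} (hx : Pos ι x) (n : ℕ) : Pos ι (x ^ n) := by
  obtain ⟨r, h1, h2⟩ := pos_iff.1 hx
  refine pos_iff.2 ⟨r ^ n, pow_pos h1 n, ?_⟩
  rw [map_pow, h2]
  push_cast
  rfl

lemma pos_add {x y : Qbar} (hx : Pos ι x) (hy : Pos ι y) : Pos ι (x + y) := by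
  obtain ⟨r, h1, h2⟩ := pos_iff.1 hx
  obtain ⟨s, h3, h4⟩ := pos_iff.1 hy
  refine pos_iff.2 ⟨r + s, add_pos h1 h3, ?_⟩
  rw [map_add, h2, h4]
  push_cast
  rfl

/-- a square root of a positive element is real -/
lemma conj_root {c : GQ} (hc : ∀ x, ι (c x) = (starRingEnd ℂ) (ι x)) {x : Qbar}
    (h : Pos ι (x ^ 2)) : c x = x := by
  obtain ⟨r, h1, h2⟩ := pos_iff.1 h
  apply ι.injective
  rw [hc]
  rw [map_pow] at h2
  have h3 : (ι x) ^ 2 = ((Real.sqrt r : ℝ) : ℂ) ^ 2 := by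
    rw [h2, ← Complex.ofReal_pow, Real.sq_sqrt h1.le]
  rcases sq_eq_sq_iff_eq_or_eq_neg.1 h3 with h4 | h4
  · rw [h4, Complex.conj_ofReal]
  · rw [h4, map_neg, Complex.conj_ofReal]

/-- the algebra of the cocycle condition -/
lemma key {X Y A B p q α β P Q : Qbar} (i j : ℕ) (hXY : X ^ 2 = Y ^ 2) (hX0 : X ≠ 0)
    (hX : X = q * A * α) (hY : Y = p * B * β) (hα : Pos ι α) (hβ : Pos ι β)
    (hp : p ^ 2 = P) (hq : q ^ 2 = Q) (hP : Pos ι P) (hQ : Pos ι Q)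
    (h : A * q ^ (2 * i + 1) = B * p ^ (2 * j + 1)) : X = Y := by
  rcases sq_eq_sq_iff_eq_or_eq_neg.1 hXY with h1 | h1
  · exact h1
  · exfalso
    have hα0 := pos_ne hα
    have hβ0 := pos_ne hβ
    have e1 : X * (Q ^ i * α⁻¹) = Y * (P ^ j * β⁻¹) := by
      have e2 : X * (Q ^ i * α⁻¹) = A * q ^ (2 * i + 1) := by
        rw [hX, ← hq, pow_succ q (2 * i), pow_mul q 2 i]
        field_simp
      have e3 : Y * (P ^ j * β⁻¹) = B * p ^ (2 * j + 1) := by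
        rw [hY, ← hp, pow_succ p (2 * j), pow_mul p 2 j]
        field_simp
      rw [e2, e3, h]
    have hpos : Pos ι (Q ^ i * α⁻¹ + P ^ j * β⁻¹) :=
      pos_add (pos_mul (pos_pow hQ i) (pos_inv hα)) (pos_mul (pos_pow hP j) (pos_inv hβ))
    have e4 : X * (Q ^ i * α⁻¹ + P ^ j * β⁻¹) = 0 := by
      rw [mul_add, e1, h1]
      ring
    rcases mul_eq_zero.1 e4 with h5 | h5
    · exact hX0 h5
    · exact pos_ne hpos h5

end AR

open AR

theorem t_AR : S_UN → S_AV → S_VG → S_KAP → S_RG → S_PAR → S_AR := by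
  intro UN AV VG KAP RG PAR ι F M N H R _ f _ ζ hζ c z T artM W Z ε lam l a f₁ hstd hD hG hR hNT
    hζT hart hStk hodd hl hlf ha hf hMl
  obtain ⟨-, hu1, hu2, -, -, -, hu6, -⟩ :=
    UN ι F M N H f ζ c z W (cnt M N (pri M f) artM) Z ε lam hD hG hStk
  set e : Qbar := sU c z lam with he
  have hHN : H ≤ N := fun x hx => ((hD.mem_H x).1 hx).1
  have hRH : R ≤ H := fun x hx => ((hR x).1 hx).1
  have hFR : F ≤ R := by
    intro x hx
    rw [hR]
    exact ⟨(hD.mem_H x).2 ⟨hD.F_le hx, hD.real_F x hx⟩, hG.z_F x hx⟩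
  have hRbot : R ≠ ⊥ := by
    intro h
    rw [h] at hFR
    have h1 : F = ⊥ := le_bot_iff.1 hFR
    have h2 := hD.deg_F
    rw [h1, IntermediateField.finrank_bot] at h2
    omega
  have hMζ : M ≤ ℚ⟮ζ⟯ := by
    refine hMl.trans ?_
    rw [adjoin_simple_le_iff]
    exact pow_mem (mem_adjoin_simple_self ℚ ζ) _
  have hRζ : R ≤ ℚ⟮ζ⟯ := by
    intro x hx
    obtain ⟨hx1, hx2⟩ := (hR x).1 hx
    refine hD.cyc x (hHN hx1) fun σ τ => ?_
    rcases hG.comm σ τ with h8 | h8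
    · exact h8 x (hHN hx1)
    · rw [h8 x (hHN hx1), hG.z_comm τ _ (normal_mem hD.normal σ (hHN hx1)),
        hG.z_comm σ x (hHN hx1), hx2]
  have hf3 : 3 ≤ f := by
    have h2 := hD.two_le
    rcases Nat.lt_or_ge 2 f with h | h
    · exact h
    · exfalso
      have h3 : f = 2 := by omega
      subst h3
      have h4 : ζ = -1 := hζ.eq_neg_one_of_two_right
      apply hG.c_M
      refine Fixes.mono hMζ (fixes_adjoin ?_)
      rw [h4, map_neg, map_one]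
  have hcaut : hζ.autToPow ℚ c = -1 := aut_conj hζ hG.conj
  have hpR : pp hζ R (-1) = 1 := by
    have h1 : qq hζ R c = qq hζ R 1 := (qq_eq_iff hζ hRζ).2 fun x hx => hG.c_H x (hRH hx)
    rw [map_one, qq_apply, hcaut] at h1
    exact h1
  have hpM : pp hζ M (-1) ≠ 1 := by
    intro h
    apply hG.c_M
    have h1 : qq hζ M c = qq hζ M 1 := by
      rw [map_one, qq_apply, hcaut]
      exact h
    intro x hx
    exact (qq_eq_iff hζ hMζ).1 h1 x hx
  obtain ⟨κ, hκ1, hκ2, hκ3⟩ := KAP f ζ hζ R hf3 hRζ hpR (by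
    rcases hodd with h | ⟨h, h'⟩
    · exact Or.inl h
    · exact Or.inr ⟨h, h', hRbot⟩)
  obtain ⟨r, hr1, hr2⟩ := RG f ζ hζ M R κ (by omega) hκ1 hκ2 hκ3
  have hepos : ∀ g : GQ, Fixes F g → Pos ι (g e) := hu6
  have he1 : Pos ι e := hepos 1 (Fixes.one F)
  have heN : e ∈ N := hHN hu1
  have hW : 0 < W := hStk.W_pos
  have hf0 : 0 < f := by omega
  -- the exponents
  have hexp : ∀ g : GQ, Fixes F g → Fixes M g → ∃ i : ℕ,
      (2 * i + 1).Coprime f ∧ g ζ = ζ ^ (2 * i + 1) ∧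
      (∀ ξ : Qbar, ξ ^ W = 1 → g ξ = ξ ^ (2 * i + 1)) := by
    intro g hgF hgM
    obtain ⟨n, hn, hn2⟩ := exists_pow (L₀ := 2 * (f * W)) (by positivity) g
    have hn3 : n.Coprime (f * W) := Nat.Coprime.coprime_mul_left_right hn
    have hn4 : n.Coprime f := Nat.Coprime.coprime_mul_right_right hn3
    have hn5 : Odd n := Nat.coprime_two_right.1 (Nat.Coprime.coprime_mul_right_right hn)
    obtain ⟨i, rfl⟩ := hn5
    refine ⟨i, hn4, hn2 ζ ?_, fun ξ hξ => hn2 ξ ?_⟩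
    · rw [show 2 * (f * W) = f * (2 * W) by ring, pow_mul, hζ.pow_eq_one, one_pow]
    · rw [show 2 * (f * W) = W * (2 * f) by ring, pow_mul, hξ, one_pow]
  -- the elements `θ`
  have hdat : ∀ g : GQ, Fixes F g → Fixes M g → ∀ i : ℕ, (2 * i + 1).Coprime f →
      g ζ = ζ ^ (2 * i + 1) → (∀ ξ : Qbar, ξ ^ W = 1 → g ξ = ξ ^ (2 * i + 1)) →
      ∃ u y : Qbar, (∀ τ : GQ, Fixes F τ → Pos ι (τ u) ∧ Pos ι (τ y)) ∧
        r (2 * i + 1) ^ 2 = u * y ∧ g e = e ^ (2 * i + 1) * (u / y) := by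
    intro g hgF hgM i hi1 hi2 hi3
    obtain ⟨-, -, h3, h4, -⟩ :=
      AV ι F M N H f ζ c z W (cnt M N (pri M f) artM) Z ε lam hD hG hStk g (2 * i + 1) hgF hgM hi3
    have h5 := VG ι F M N H R f ζ hζ c z T artM W Z ε lam hstd hD hG hR hNT hζT hart hStk g
      (2 * i + 1) hgF hgM ⟨i, rfl⟩ hi1 hi2 hi3
    refine ⟨sV c lam g (2 * i + 1), z⁻¹ (sV c lam g (2 * i + 1)), h4, ?_, h3⟩
    rw [h5]
    set v : (ZMod f)ˣ := ZMod.unitOfCoprime (2 * i + 1) hi1 with hv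
    have hv1 : ((2 * i + 1 : ℕ) : ZMod f) = v := (ZMod.coe_unitOfCoprime _ hi1).symm
    have hv2 : hζ.autToPow ℚ g = v := aut_eq hζ hv1 hi2
    have hv3 : pp hζ M v = 1 := by
      have h1 : qq hζ M g = qq hζ M 1 := (qq_eq_iff hζ hMζ).2 fun x hx => hgM x hx
      rw [map_one, qq_apply, hv2] at h1
      exact h1
    refine hr1 (2 * i + 1) v ⟨i, rfl⟩ hv1 hv3 ?_
    exact PAR f ζ hζ M l a f₁ hD.deg_M hMζ hpM hl hlf ha hf hMl (2 * i + 1) v ⟨i, rfl⟩ hv1 hv3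
  -- the proof
  intro mu hmu s t hs ht
  have hrep : ∀ σ : GQ, Fixes F σ → ∃ g : GQ, Fixes F g ∧ Fixes M g ∧
      ∀ x : Qbar, c x = x → σ x = g x := by
    intro σ hσ
    by_cases h : Fixes M σ
    · exact ⟨σ, hσ, h, fun _ _ => rfl⟩
    · refine ⟨σ * c, hσ.mul hG.c_F, quad hD.deg_M h hG.c_M, fun x hx => ?_⟩
      rw [AlgEquiv.mul_apply, hx]
  obtain ⟨g, hgF, hgM, hsg⟩ := hrep s hs
  obtain ⟨h, hhF, hhM, hth⟩ := hrep t ht
  obtain ⟨i, hi1, hi2, hi3⟩ := hexp g hgF hgM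
  obtain ⟨j, hj1, hj2, hj3⟩ := hexp h hhF hhM
  obtain ⟨u, y, hg1, hg2, hg3⟩ := hdat g hgF hgM i hi1 hi2 hi3
  obtain ⟨u', y', hh1, hh2, hh3⟩ := hdat h hhF hhM j hj1 hj2 hj3
  have hrg := hr2 (2 * i + 1) (2 * j + 1) g h ⟨i, rfl⟩ ⟨j, rfl⟩ hi1 hj1 hgM hhM hi2 hj2
  set p : Qbar := r (2 * i + 1) with hp
  set q : Qbar := r (2 * j + 1) with hq
  have hup : Pos ι u := (hg1 1 (Fixes.one F)).1
  have hyp : Pos ι y := (hg1 1 (Fixes.one F)).2
  have hup' : Pos ι u' := (hh1 1 (Fixes.one F)).1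
  have hyp' : Pos ι y' := (hh1 1 (Fixes.one F)).2
  have hy0 : y ≠ 0 := pos_ne hyp
  have hy0' : y' ≠ 0 := pos_ne hyp'
  have hPp : Pos ι (u * y) := pos_mul hup hyp
  have hQp : Pos ι (u' * y') := pos_mul hup' hyp'
  have hp0 : p ≠ 0 := by
    intro h0
    rw [h0] at hg2
    exact pos_ne hPp (by rw [← hg2]; ring)
  have hq0 : q ≠ 0 := by
    intro h0
    rw [h0] at hh2
    exact pos_ne hQp (by rw [← hh2]; ring)
  have hcp : c p = p := conj_root hG.conj (by rw [hg2]; exact hPp)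
  have hcq : c q = q := conj_root hG.conj (by rw [hh2]; exact hQp)
  have hce : c e = e := hG.c_H e hu1
  have hcy : c y = y := conj_root hG.conj (pos_pow hyp 2)
  have hcy' : c y' = y' := conj_root hG.conj (pos_pow hyp' 2)
  set θ : Qbar := p * e ^ i / y with hθ
  set θ' : Qbar := q * e ^ j / y' with hθ'
  have hθ0 : θ ≠ 0 := div_ne_zero (mul_ne_zero hp0 (pow_ne_zero _ hu2)) hy0
  have hθ0' : θ' ≠ 0 := div_ne_zero (mul_ne_zero hq0 (pow_ne_zero _ hu2)) hy0'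
  have hcθ : c θ = θ := by
    rw [hθ, map_div₀, map_mul, map_pow, hcp, hce, hcy]
  have hcθ' : c θ' = θ' := by
    rw [hθ', map_div₀, map_mul, map_pow, hcq, hce, hcy']
  have hge : g e = e * θ ^ 2 := by
    rw [hg3, hθ, div_pow, mul_pow, hg2, ← pow_mul, pow_succ, mul_comm i 2]
    field_simp
  have hhe : h e = e * θ' ^ 2 := by
    rw [hh3, hθ', div_pow, mul_pow, hh2, ← pow_mul, pow_succ, mul_comm j 2]
    field_simp
  have hmu0 : mu ≠ 0 := by
    rintro rfl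
    apply hu2
    rw [← hmu]
    ring
  have hone : ∀ (σ : GQ) (ξ : Qbar), ξ ^ 2 = 1 → σ ξ = ξ ^ 1 := by
    intro σ ξ hξ
    have h0 : (ξ - 1) * (ξ + 1) = 0 := by linear_combination hξ
    rcases mul_eq_zero.1 h0 with h1 | h1
    · rw [sub_eq_zero.1 h1, map_one, one_pow]
    · rw [eq_neg_of_add_eq_zero_left h1, map_neg, map_one, pow_one]
  -- the cocycle condition
  have hXY2 : (θ' * h θ) ^ 2 = (θ * g θ') ^ 2 := by
    have e1 : e * (θ' * h θ) ^ 2 = h (g e) := by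
      rw [hge, map_mul, map_pow, hhe]
      ring
    have e2 : e * (θ * g θ') ^ 2 = g (h e) := by
      rw [hhe, map_mul, map_pow, hge]
      ring
    have e3 : h (g e) = g (h e) := (hG.central g hgF hgM h e heN).symm
    apply mul_left_cancel₀ hu2
    rw [e1, e2, e3]
  have hmain : θ' * h θ = θ * g θ' := by
    refine AR.key (ι := ι) (A := h p) (B := g q) (p := p) (q := q)
      (α := e ^ j * (h e) ^ i * (y' * h y)⁻¹) (β := e ^ i * (g e) ^ j * (y * g y')⁻¹)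
      (P := u * y) (Q := u' * y') i j hXY2
      (mul_ne_zero hθ0' (by rw [Ne, map_eq_zero]; exact hθ0)) ?_ ?_ ?_ ?_ hg2 hh2 hPp hQp hrg
    · rw [hθ, hθ', map_div₀, map_mul, map_pow, mul_inv]
      field_simp
    · rw [hθ, hθ', map_div₀, map_mul, map_pow, mul_inv]
      field_simp
    · exact pos_mul (pos_mul (pos_pow he1 j) (pos_pow (hepos h hhF) i))
        (pos_inv (pos_mul hyp' (hg1 h hhF).2))
    · exact pos_mul (pos_mul (pos_pow he1 i) (pos_pow (hepos g hgF) j))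
        (pos_inv (pos_mul hyp (hh1 g hgF).2))
  refine comm_of_cocycle (W := 2) (n := 1) (m := 1) (a := θ) (b := θ') hmu0 hθ0 hθ0' (hone s)
    (hone t) ?_ ?_ ?_
  · rw [← map_pow, hmu, hsg e hce, hge, mul_pow, pow_one, hmu]
  · rw [← map_pow, hmu, hth e hce, hhe, mul_pow, pow_one, hmu]
  · rw [pow_one, pow_one, hth θ hcθ, hsg θ' hcθ']
    exact hmain

end Pool.Agent.U131.SR
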