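import Pool.Agent.U131.SR.Stm
import Pool.Agent.K4H33.SK.Zeta

/-! Project SR, package AV (written by helper594): the elements `a_g = g λ / λ ^ n`. -/

set_option autoImplicit false
set_option linter.style.haveILetI false

namespace Pool.Agent.U131.SR
open NumberField Module IntermediateField Pool.Agent.K4H33.SK
open Pool.Agent.K4H33.SK.Stmt (Sub)

section AV

variable {ι : Qbar →+* ℂ} {F M N H : Sub} {f : ℕ} {ζ : Qbar} {c z : GQ} {W : ℕ}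
  {C : GQ → ℕ → ℕ} {Z : GQ → ℂ → ℂ} {ε lam : Qbar}

lemma av_lam_ne (hS : Stk ι M N W C Z ε lam) : lam ≠ 0 := by
  intro h
  apply hS.ne
  rw [← hS.root, h, zero_pow hS.W_pos.ne']

lemma av_xi (hS : Stk ι M N W C Z ε lam) {σ : GQ} (hσ : Fixes N σ) :
    ∃ ξ : Qbar, ξ ^ W = 1 ∧ ξ ≠ 0 ∧ σ lam = ξ * lam := by
  have h1 : (σ lam / lam) ^ W = 1 := by
    rw [div_pow, ← map_pow, hS.root, hσ ε hS.mem, div_self hS.ne]
  refine ⟨σ lam / lam, h1, ?_, ?_⟩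
  · intro h
    rw [h, zero_pow hS.W_pos.ne'] at h1
    exact zero_ne_one h1
  · rw [div_mul_cancel₀ _ (av_lam_ne hS)]

lemma av_mem (hM : M ≤ N) (hS : Stk ι M N W C Z ε lam) {g : GQ} {n : ℕ} (hgM : Fixes M g)
    (hξ : ∀ ξ : Qbar, ξ ^ W = 1 → g ξ = ξ ^ n) : sA lam g n ∈ N := by
  apply mem_of_fixed
  intro σ hσ
  have hσM : Fixes M σ := hσ.mono hM
  obtain ⟨ξ, h1, hξ0, h2⟩ := av_xi hS hσ
  have h3 : σ (g lam) = ξ ^ n * g lam := by
    rw [hS.ab lam hS.root σ g hσM hgM, h2, map_mul, hξ ξ h1]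
  unfold sA
  rw [map_div₀, map_pow, h2, h3, mul_pow, mul_div_mul_left _ _ (pow_ne_zero n hξ0)]

lemma av_gamma_mem (hM : M ≤ N) (hG : Grp ι F M N H c z) (hS : Stk ι M N W C Z ε lam) :
    lam / z⁻¹ lam ∈ N := by
  apply mem_of_fixed
  intro σ hσ
  obtain ⟨ξ, h1, hξ0, h2⟩ := av_xi hS hσ
  have hyM : Fixes M z⁻¹ := hG.z_M.inv
  have hyξ : z⁻¹ ξ = ξ := by
    rw [AlgEquiv.aut_inv, AlgEquiv.symm_apply_eq]
    exact (hG.z_root ξ W hS.W_pos.ne' h1).symm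
  have h3 : σ (z⁻¹ lam) = ξ * z⁻¹ lam := by
    rw [hS.ab lam hS.root σ z⁻¹ (hσ.mono hM) hyM, h2, map_mul, hyξ]
  rw [map_div₀, h2, h3, mul_div_mul_left _ _ hξ0]

lemma av_y (hG : Grp ι F M N H c z) {x : Qbar} (hx : x ∈ N) : z⁻¹ x = z x := by
  rw [AlgEquiv.aut_inv, AlgEquiv.symm_apply_eq]
  exact (hG.zz x hx).symm

lemma av_yc (hN : Normal ℚ N) (hG : Grp ι F M N H c z) (σ : GQ) {x : Qbar} (hx : x ∈ N) :
    z⁻¹ (σ x) = σ (z⁻¹ x) := by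
  rw [av_y hG (normal_mem hN σ hx), av_y hG hx, hG.z_comm σ x hx]

lemma av_gU (hN : Normal ℚ N) (hM : M ≤ N) (hG : Grp ι F M N H c z)
    (hS : Stk ι M N W C Z ε lam) {g : GQ} {n : ℕ} (hgF : Fixes F g) (hgM : Fixes M g)
    (hξ : ∀ ξ : Qbar, ξ ^ W = 1 → g ξ = ξ ^ n) :
    g (sU c z lam) = sU c z lam ^ n * (sV c lam g n / z⁻¹ (sV c lam g n)) := by
  have ha := av_mem hM hS hgM hξ
  have hγ := av_gamma_mem hM hG hS
  have hl0 := av_lam_ne hS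
  unfold sU sV
  generalize hA : sA lam g n = a at ha ⊢
  have hga : g lam = a * lam ^ n := by
    rw [← hA]
    unfold sA
    rw [div_mul_cancel₀ _ (pow_ne_zero n hl0)]
  have hgy : g (z⁻¹ lam) = z⁻¹ a * (z⁻¹ lam) ^ n := by
    rw [hS.ab lam hS.root g z⁻¹ hgM hG.z_M.inv, hga, map_mul, map_pow]
  have h1 : g (lam / z⁻¹ lam) = (lam / z⁻¹ lam) ^ n * (a / z⁻¹ a) := by
    rw [map_div₀, hga, hgy, mul_div_mul_comm, div_pow, mul_comm]
  have h2 : g (c (lam / z⁻¹ lam)) = c (g (lam / z⁻¹ lam)) := hG.central g hgF hgM c _ hγ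
  generalize lam / z⁻¹ lam = γ at h1 h2 ⊢
  rw [map_mul, h2, h1, map_mul, map_pow, map_div₀ c, map_mul (z⁻¹), av_yc hN hG c ha, mul_pow,
    mul_div_mul_comm]
  ring

lemma av_norm (hFld : Fld ι F M N H f ζ) (hG : Grp ι F M N H c z) {a : Qbar} (ha : a ∈ N)
    {τ : GQ} (hτ : Fixes F τ) : ι (τ (a * c a)) = ((‖ι (τ a)‖ ^ 2 : ℝ) : ℂ) := by
  rw [map_mul, map_mul, hFld.ab_F τ c hτ hG.c_F a ha, hG.conj, Complex.mul_conj,
    Complex.normSq_eq_norm_sq]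

lemma av_pos {a : Qbar} {τ : GQ} (ha0 : a ≠ 0)
    {v : Qbar} (h : ι v = ((‖ι (τ a)‖ ^ 2 : ℝ) : ℂ)) : Pos ι v := by
  have h1 : ι (τ a) ≠ 0 := by
    rw [Ne, map_eq_zero]
    simpa using ha0
  unfold Pos
  rw [h]
  refine ⟨Complex.ofReal_im _, ?_⟩
  rw [Complex.ofReal_re]
  positivity

lemma av_deriv (hS : Stk ι M N W C Z ε lam) {σ τ : GQ} (hσ : Fixes M σ) (hτ : Fixes M τ)
    (h : ∀ x ∈ N, σ x = τ x) : deriv (Z σ) 0 = deriv (Z τ) 0 := by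
  have h1 := hS.C_congr σ τ h
  refine (isZeta_deriv (hS.lim σ hσ).1 (hS.lim τ hτ).1 fun n _ => ?_).1
  rw [h1]

lemma av_log (hS : Stk ι M N W C Z ε lam) {g τ : GQ} {n : ℕ} (hgM : Fixes M g) (hτ : Fixes M τ) :
    (Real.log (‖ι (τ (sA lam g n))‖ ^ 2) : ℂ) = -deriv (Z (τ * g)) 0 + n * deriv (Z τ) 0 := by
  have hW := hS.W_pos
  have hε0 := hS.ne
  have haW : (sA lam g n) ^ W = g ε / ε ^ n := by
    unfold sA
    rw [div_pow, ← map_pow, hS.root, ← pow_mul, mul_comm n W, pow_mul, hS.root]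
  have h1 := (hS.lim (τ * g) (hτ.mul hgM)).2.2
  have h2 := (hS.lim τ hτ).2.2
  have hn1 : ‖ι ((τ * g) ε)‖ ^ 2 ≠ 0 := by
    apply pow_ne_zero
    rw [norm_ne_zero_iff, Ne, map_eq_zero]
    simpa using hε0
  have hn2 : ‖ι (τ ε)‖ ^ 2 ≠ 0 := by
    apply pow_ne_zero
    rw [norm_ne_zero_iff, Ne, map_eq_zero]
    simpa using hε0
  have h3 : (W : ℝ) * Real.log (‖ι (τ (sA lam g n))‖ ^ 2) =
      Real.log (‖ι ((τ * g) ε)‖ ^ 2) - n * Real.log (‖ι (τ ε)‖ ^ 2) := by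
    rw [← Real.log_pow, ← Real.log_pow, ← Real.log_div hn1 (pow_ne_zero n hn2), ← pow_mul,
      mul_comm 2 W, pow_mul, ← norm_pow, ← map_pow, ← map_pow, haW, map_div₀, map_div₀, norm_div,
      div_pow, map_pow, map_pow, norm_pow, ← pow_mul, ← pow_mul, mul_comm n 2]
    rfl
  have h4 : (W : ℂ) * (Real.log (‖ι (τ (sA lam g n))‖ ^ 2) : ℂ) =
      -(W : ℂ) * deriv (Z (τ * g)) 0 - n * (-(W : ℂ) * deriv (Z τ) 0) := by
    rw [← h1, ← h2]
    exact_mod_cast h3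
  have hW' : (W : ℂ) ≠ 0 := Nat.cast_ne_zero.2 hW.ne'
  apply mul_left_cancel₀ hW'
  rw [h4]
  ring

end AV

theorem t_AV : S_AV := by
  intro ι F M N H f ζ c z W C Z ε lam hFld hG hS g n hgF hgM hξ
  have hN := hFld.normal
  have ha := av_mem hFld.M_le hS hgM hξ
  have hl0 := av_lam_ne hS
  have ha0 : sA lam g n ≠ 0 := by
    unfold sA
    refine div_ne_zero ?_ (pow_ne_zero n hl0)
    simpa using hl0
  have hcV : c (sV c lam g n) = sV c lam g n := by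
    unfold sV
    rw [map_mul, hG.cc, mul_comm]
  have hVN : sV c lam g n ∈ N := by
    unfold sV
    exact mul_mem ha (normal_mem hN c ha)
  have hVH : sV c lam g n ∈ H := by
    rw [hFld.mem_H]
    refine ⟨hVN, ?_⟩
    have h1 := hG.conj (sV c lam g n)
    rw [hcV] at h1
    exact Complex.conj_eq_iff_im.1 h1.symm
  refine ⟨ha, hVH, av_gU hN hFld.M_le hG hS hgF hgM hξ, ?_, ?_⟩
  · intro τ hτ
    constructor
    · exact av_pos ha0 (av_norm hFld hG ha hτ)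
    · have h1 := av_norm hFld hG ha (hτ.mul hG.z_F.inv)
      exact av_pos ha0 h1
  · have h1 := av_norm hFld hG ha (Fixes.one F)
    have h2 := av_norm hFld hG ha hG.z_F.inv
    have h3 : ‖ι (sV c lam g n * z⁻¹ (sV c lam g n))‖ =
        ‖ι ((1 : GQ) (sA lam g n))‖ ^ 2 * ‖ι (z⁻¹ (sA lam g n))‖ ^ 2 := by
      have e1 : ι (sV c lam g n) = ((‖ι ((1 : GQ) (sA lam g n))‖ ^ 2 : ℝ) : ℂ) := h1
      have e2 : ι (z⁻¹ (sV c lam g n)) = ((‖ι (z⁻¹ (sA lam g n))‖ ^ 2 : ℝ) : ℂ) := h2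
      rw [map_mul, e1, e2, norm_mul, Complex.norm_real, Complex.norm_real, Real.norm_eq_abs,
        Real.norm_eq_abs, abs_of_nonneg (by positivity), abs_of_nonneg (by positivity)]
    have hn : ∀ τ : GQ, ‖ι (τ (sA lam g n))‖ ^ 2 ≠ 0 := by
      intro τ
      apply pow_ne_zero
      rw [norm_ne_zero_iff, Ne, map_eq_zero]
      simpa using ha0
    rw [h3, Real.log_mul (hn 1) (hn z⁻¹), Complex.ofReal_add, av_log hS hgM (Fixes.one M),
      av_log hS hgM hG.z_M.inv, one_mul]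
    have h4 : deriv (Z (z⁻¹ * g)) 0 = deriv (Z (g * z)) 0 := by
      refine av_deriv hS (hG.z_M.inv.mul hgM) (hgM.mul hG.z_M) fun x hx => ?_
      rw [AlgEquiv.mul_apply, AlgEquiv.mul_apply, av_yc hN hG g hx, av_y hG hx]
    have h5 : deriv (Z z⁻¹) 0 = deriv (Z z) 0 :=
      av_deriv hS hG.z_M.inv hG.z_M fun x hx => av_y hG hx
    rw [h4, h5]
    ring

end Pool.Agent.U131.SR
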