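import Pool.Agent.U131.SR.Stm

/-! Project SR: assembly -/

set_option autoImplicit false
set_option linter.style.haveILetI false

namespace Pool.Agent.U131.SR
open NumberField Module IntermediateField Pool.Agent.K4H33.SK
open Pool.Agent.K4H33.SK.Stmt (Sub)

lemma exists_std (ι : Qbar →+* ℂ) (f : ℕ) (hf : f ≠ 0) :
    ∃ ζ : Qbar, IsPrimitiveRoot ζ f ∧ Std ι f ζ := by
  haveI : NeZero f := ⟨hf⟩
  haveI : NeZero ((f : ℕ) : Qbar) := ⟨Nat.cast_ne_zero.2 hf⟩
  obtain ⟨η, hη⟩ := HasEnoughRootsOfUnity.exists_primitiveRoot Qbar f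
  have h1 : IsPrimitiveRoot (ι η) f := hη.map_of_injective ι.injective
  have h2 := Complex.isPrimitiveRoot_exp f hf
  obtain ⟨k, -, hk⟩ := h1.eq_pow_of_pow_eq_one h2.pow_eq_one
  refine ⟨η ^ k, ?_, ?_⟩
  · apply IsPrimitiveRoot.of_map_of_injective (f := ι) _ ι.injective
    rw [map_pow, hk]
    exact h2
  · unfold Std
    rw [map_pow, hk]

lemma cyc_eq {f : ℕ} [NeZero f] {ζ : Qbar} (hζ : IsPrimitiveRoot ζ f) : Cyc f = ℚ⟮ζ⟯ := by
  apply le_antisymm
  · unfold Cyc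
    rw [IntermediateField.adjoin_le_iff]
    intro ξ hξ
    obtain ⟨k, -, hk⟩ := hζ.eq_pow_of_pow_eq_one hξ
    rw [← hk]
    exact pow_mem (mem_adjoin_simple_self ℚ ζ) k
  · rw [adjoin_simple_le_iff]
    exact IntermediateField.subset_adjoin ℚ _ hζ.pow_eq_one

theorem assemble (FX : S_FX) (GR : S_GR) (ZF : S_ZF) (UN : S_UN) (AR : S_AR) (PR : S_PR) :
    Main := by
  intro ι F H M N _ _ f hD hodd hl artF artM hartF hartM W hW hS 𝔣 h𝔣0 h𝔣
  have hf : f ≠ 0 := by have := hD.two_le; omega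
  haveI : NeZero f := ⟨hf⟩
  obtain ⟨ζ, hζ, hstd⟩ := exists_std ι f hf
  obtain ⟨hfin, hFld⟩ := FX ι F H M N f ζ hD hζ
  obtain ⟨c, z, hG⟩ := GR ι F M N H f ζ hFld
  set T : Sub := N ⊔ Cyc f with hT
  have hNT : N ≤ T := le_sup_left
  have hζT : ζ ∈ T := by
    have h1 : Cyc f ≤ T := le_sup_right
    apply h1
    rw [cyc_eq hζ]
    exact mem_adjoin_simple_self ℚ ζ
  have hHN : H ≤ N := fun x hx => ((hFld.mem_H x).1 hx).1
  have hFH : F ≤ H := hD.le
  obtain ⟨Z, ε, hε, hε0, hlim, hint, hab⟩ := hS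
  obtain ⟨lam, hlam⟩ := IsAlgClosed.exists_pow_nat_eq ε hW.1
  have hStk : Stk ι M N W (cnt M N (pri M f) artM) Z ε lam :=
    { W_pos := hW.1
      mem := hε
      ne := hε0
      C_congr := fun σ τ h => by
        funext n
        exact cnt_congr M N (pri M f) artM h n
      lim := hlim
      int := hint
      ab := hab
      root := hlam }
  have hZ : ∀ σ : GQ, Fixes M σ → IsZeta (cnt M N (pri M f) artM σ) (Z σ) ∧ Z σ 0 = 0 :=
    fun σ hσ => ⟨(hlim σ hσ).1, (hlim σ hσ).2.1⟩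
  obtain ⟨-, hu1, hu2, hu3, hu4, hu5, hu6, hu7⟩ :=
    UN ι F M N H f ζ c z W (cnt M N (pri M f) artM) Z ε lam hFld hG hStk
  -- the field `R`
  let R : Sub := H ⊓ fixedField (Subgroup.zpowers z)
  have hR : ∀ x, x ∈ R ↔ x ∈ H ∧ z x = x := by
    intro x
    rw [IntermediateField.mem_inf, mem_fixedField_iff]
    refine and_congr_right fun _ => ?_
    constructor
    · intro h
      exact h z (Subgroup.mem_zpowers z)
    · intro h σ hσ
      obtain ⟨n, rfl⟩ := Subgroup.mem_zpowers_iff.1 hσ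
      have h2 : z ∈ MulAction.stabilizer GQ x := h
      exact zpow_mem h2 n
  have hRoot : AbelianRoot F 2 (sU c z lam) := by
    obtain ⟨l, a, f₁, h1, h2, h3, h4, h5⟩ := hl
    have hf1 : f₁ ≠ 0 := by
      rintro rfl
      exact h2 (dvd_zero _)
    haveI : NeZero f₁ := ⟨hf1⟩
    refine AR ι F M N H R f ζ hζ c z T artM W Z ε lam l a f₁ hstd hFld hG hR hNT hζT hartM hStk
      ?_ h1 h2 h3 h4 ?_
    · rcases hodd with h | ⟨h, h'⟩
      · exact Or.inl h
      · refine Or.inr ⟨h, ?_⟩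
        have h6 : f / 4 ≠ 0 := by
          obtain ⟨k, rfl⟩ := h
          simpa using hf
        haveI : NeZero (f / 4) := ⟨h6⟩
        have h7 : IsPrimitiveRoot (ζ ^ 4) (f / 4) := by
          obtain ⟨k, hk⟩ := h
          refine hζ.pow (Nat.pos_of_ne_zero hf) ?_
          rw [Nat.mul_div_cancel' ⟨k, hk⟩]
        rw [← cyc_eq h7]
        intro x hx
        obtain ⟨hx1, hx2⟩ := (hR x).1 hx
        refine h' x (hHN hx1) fun σ τ => ?_
        rcases hG.comm σ τ with h8 | h8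
        · exact h8 x (hHN hx1)
        · rw [h8 x (hHN hx1), hG.z_comm τ _ (normal_mem hFld.normal σ (hHN hx1)),
            hG.z_comm σ x (hHN hx1), hx2]
    · have h7 : IsPrimitiveRoot (ζ ^ (l ^ a)) f₁ := by
        exact hζ.pow (Nat.pos_of_ne_zero hf) h4
      rw [← cyc_eq h7]
      exact h5
  -- the representative of the class which fixes `M`
  have hrep : ∀ σ : GQ, Fixes F σ → ∃ g : GQ, Fixes F g ∧ Fixes M g ∧ ∀ x ∈ H, g x = σ x := by
    intro σ hσ
    by_cases h : Fixes M σ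
    · exact ⟨σ, hσ, h, fun _ _ => rfl⟩
    · refine ⟨σ * c, hσ.mul hG.c_F, quad hFld.deg_M h hG.c_M, fun x hx => ?_⟩
      rw [AlgEquiv.mul_apply, hG.c_H x hx]
  have hE : ∀ σ : GQ, ∃ E : ℂ → ℂ, Fixes F σ → IsZeta (cnt F H (pri F f) artF σ) E ∧ E 0 = 0 ∧
      (Real.log ‖ι (σ (sU c z lam))‖ : ℂ) = -2 * deriv E 0 := by
    intro σ
    by_cases hσ : Fixes F σ
    · obtain ⟨g, hg1, hg2, hg3⟩ := hrep σ hσ
      obtain ⟨E, h1, h2, h3⟩ :=
        ZF ι F M N H f ζ c z T artF artM Z hfin hFld hG hNT hζT hartF hartM hZ g hg1 hg2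
      refine ⟨E, fun _ => ⟨?_, h2, ?_⟩⟩
      · have h4 : cnt F H (pri F f) artF σ = cnt F H (pri F f) artF g := by
          funext n
          exact cnt_congr F H (pri F f) artF (fun x hx => (hg3 x hx).symm) n
        rw [h4]
        exact h1
      · rw [← hg3 _ hu1, hu7 g hg1 hg2, ← h3]
        ring
    · exact ⟨0, fun h => absurd h hσ⟩
  choose E hE using hE
  have hSR : StarkReal ι F H (pri F f) artF :=
    ⟨E, sU c z lam, hu1, hu2, hu3, hu4, fun σ hσ => ⟨(hE σ hσ).1, (hE σ hσ).2.1, (hE σ hσ).2.2,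
      hu6 σ hσ⟩, hu5, hRoot⟩
  exact PR ι F H T f artF hD.two_le hFH (hHN.trans hNT) hartF hSR 𝔣 h𝔣0 h𝔣

end Pool.Agent.U131.SR
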