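import Pool.Agent.U131.SR.Pr0

/-! Project SR: the formulation with ray class groups. -/

set_option autoImplicit false
set_option linter.style.haveILetI false

namespace Pool.Agent.U131.SR
open NumberField Module IntermediateField Pool.Agent.K4H33.SK
open Pool.Agent.K4H33.SK.Stmt (Sub)

/-- The integral ideals `𝔞`, `𝔟` of the real quadratic field `F` have the same class in the ray
class group of modulus `𝔪∞₂`, where `∞₁` is the real place given by `ι` and `∞₂` the other one: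
`α 𝔞 = β 𝔟` with integers `α`, `β` prime to `𝔪`, `α ≡ β` modulo `𝔪` and `αβ` positive at
`∞₂`. -/
def RayEq (ι : Qbar →+* ℂ) (F : Sub) [NumberField F] (𝔪 𝔞 𝔟 : Ideal (𝓞 F)) : Prop :=
  ∃ α β : 𝓞 F, α ≠ 0 ∧ β ≠ 0 ∧ IsCoprime (Ideal.span {α}) 𝔪 ∧ IsCoprime (Ideal.span {β}) 𝔪 ∧
    Ideal.span {α} * 𝔞 = Ideal.span {β} * 𝔟 ∧ α - β ∈ 𝔪 ∧
    ∀ w : Qbar →+* ℂ, (∃ x ∈ F, w x ≠ ι x) → 0 < (w ((α * β : 𝓞 F) : F)).re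

/-- The number of integral ideals of norm `n`, prime to `𝔪`, in the ray class of `𝔟`: the
coefficients of the partial zeta function of the class. -/
noncomputable def rayCnt (ι : Qbar →+* ℂ) (F : Sub) [NumberField F] (𝔪 𝔟 : Ideal (𝓞 F))
    (n : ℕ) : ℕ :=
  Nat.card {𝔞 : Ideal (𝓞 F) // Ideal.absNorm 𝔞 = n ∧ IsCoprime 𝔞 𝔪 ∧ RayEq ι F 𝔪 𝔞 𝔟}

/-- `H` is the ray class field of modulus `𝔪∞₂`: two ideals prime to `𝔪` have the same Artin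
symbol on `H` if and only if they are in the same ray class. -/
def IsRayClassField (ι : Qbar →+* ℂ) (F H : Sub) [NumberField F] (𝔪 : Ideal (𝓞 F))
    (art : Ideal (𝓞 F) → GQ) : Prop :=
  ∀ 𝔞 𝔟 : Ideal (𝓞 F), IsCoprime 𝔞 𝔪 → IsCoprime 𝔟 𝔪 →
    ((∀ x ∈ H, art 𝔞 x = art 𝔟 x) ↔ RayEq ι F 𝔪 𝔞 𝔟)

/-- Stark's conjecture for the ray class field `H` of modulus `𝔪∞₂` of `F`: units `ε 𝔟` of `H`,
depending on the class of `𝔟`, equal to `exp (-2 ζ'(0, 𝔟))` under `ι`, permuted by the Artin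
symbols and of absolute value one at all places above `∞₂`. -/
def StarkRay (ι : Qbar →+* ℂ) (F H : Sub) [NumberField F] (𝔪 : Ideal (𝓞 F))
    (art : Ideal (𝓞 F) → GQ) (ε : Ideal (𝓞 F) → Qbar) : Prop :=
  ∀ 𝔟 : Ideal (𝓞 F), IsCoprime 𝔟 𝔪 →
    ε 𝔟 ∈ H ∧ IsIntegral ℤ (ε 𝔟) ∧ IsIntegral ℤ (ε 𝔟)⁻¹ ∧
    (∃ Z : ℂ → ℂ, IsZeta (rayCnt ι F 𝔪 𝔟) Z ∧ Z 0 = 0 ∧
      ι (ε 𝔟) = Complex.exp (-2 * deriv Z 0)) ∧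
    (∀ 𝔠 : Ideal (𝓞 F), IsCoprime 𝔠 𝔪 → art 𝔠 (ε 𝔟) = ε (𝔠 * 𝔟)) ∧
    (∀ 𝔠 : Ideal (𝓞 F), IsCoprime 𝔠 𝔪 → RayEq ι F 𝔪 𝔟 𝔠 → ε 𝔟 = ε 𝔠) ∧
    (∀ w : Qbar →+* ℂ, (∃ x ∈ F, w x ≠ ι x) → ‖w (ε 𝔟)‖ = 1)

lemma pos_exp {ι : Qbar →+* ℂ} {x : Qbar} {d : ℂ} (hx : Pos ι x)
    (h : (Real.log ‖ι x‖ : ℂ) = -2 * d) : ι x = Complex.exp (-2 * d) := by
  have e1 : ι x = ((ι x).re : ℂ) := Complex.ext (by simp) (by simp [hx.1])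
  have e2 : ‖ι x‖ = (ι x).re := by
    rw [e1, Complex.norm_real, Real.norm_of_nonneg (by simpa using hx.2.le)]
    simp
  rw [← h, e2, ← Complex.ofReal_exp, Real.exp_log hx.2]
  exact e1

lemma rayCnt_eq {ι : Qbar →+* ℂ} {F H : Sub} [NumberField F] {𝔪 : Ideal (𝓞 F)}
    {art : Ideal (𝓞 F) → GQ} (hray : IsRayClassField ι F H 𝔪 art) {𝔟 : Ideal (𝓞 F)}
    (h : IsCoprime 𝔟 𝔪) : cnt F H 𝔪 art (art 𝔟) = rayCnt ι F 𝔪 𝔟 := by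
  funext n
  unfold cnt rayCnt
  refine Nat.card_congr (Equiv.subtypeEquivRight fun 𝔞 => ?_)
  refine and_congr_right fun _ => ?_
  constructor
  · rintro ⟨h1, h2⟩
    exact ⟨h1, (hray 𝔞 𝔟 h1 h).1 h2⟩
  · rintro ⟨h1, h2⟩
    exact ⟨h1, (hray 𝔞 𝔟 h1 h).2 h2⟩

theorem ray0 {ι : Qbar →+* ℂ} {F H T : Sub} [NumberField F] {𝔪 : Ideal (𝓞 F)}
    {art : Ideal (𝓞 F) → GQ} (hart : IsArtin F T 𝔪 art) (hHT : H ≤ T)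
    (hst : ∀ σ : GQ, Fixes F σ → ∀ x ∈ H, σ x ∈ H) (hray : IsRayClassField ι F H 𝔪 art)
    {Z : GQ → ℂ → ℂ} {ε : Qbar} (h1 : ε ∈ H) (h4 : IsIntegral ℤ ε) (h5 : IsIntegral ℤ ε⁻¹)
    (h3 : ∀ σ : GQ, Fixes F σ → IsZeta (cnt F H 𝔪 art σ) (Z σ) ∧ Z σ 0 = 0 ∧
      (Real.log ‖ι (σ ε)‖ : ℂ) = -2 * deriv (Z σ) 0 ∧ Pos ι (σ ε))
    (h6 : ∀ w : Qbar →+* ℂ, (∃ x ∈ F, w x ≠ ι x) → ‖w ε‖ = 1) :
    StarkRay ι F H 𝔪 art (fun 𝔟 => art 𝔟 ε) := by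
  intro 𝔟 hb
  have hf := hart.fix 𝔟 hb
  obtain ⟨g1, g2, g3, g4⟩ := h3 (art 𝔟) hf
  refine ⟨hst _ hf ε h1, h4.map (art 𝔟 : Qbar →+* Qbar).toIntAlgHom, ?_, ⟨Z (art 𝔟), ?_, g2,
    pos_exp g4 g3⟩, ?_, ?_, ?_⟩
  · have h7 := h5.map (art 𝔟 : Qbar →+* Qbar).toIntAlgHom
    have h8 : (art 𝔟 : Qbar →+* Qbar).toIntAlgHom ε⁻¹ = (art 𝔟 ε)⁻¹ := map_inv₀ (art 𝔟) ε
    rwa [h8] at h7
  · rw [← rayCnt_eq hray hb]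
    exact g1
  · intro 𝔠 hc
    exact (hart.mul 𝔠 𝔟 hc hb ε (hHT h1)).symm
  · intro 𝔠 hc hr
    exact (hray 𝔟 𝔠 hb hc).2 hr ε h1
  · intro w hw
    have h8 : ‖(w.comp (art 𝔟 : Qbar →+* Qbar)) ε‖ = 1 := by
      refine h6 _ ?_
      obtain ⟨x, hx, hx2⟩ := hw
      refine ⟨x, hx, ?_⟩
      have h9 : (w.comp (art 𝔟 : Qbar →+* Qbar)) x = w x := congrArg w (hf x hx)
      rw [h9]
      exact hx2
    exact h8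

lemma root_conj {F : Sub} {W : ℕ} {ε : Qbar} (h : AbelianRoot F W ε) {ρ : GQ}
    (hF : Normal ℚ F) : AbelianRoot F W (ρ ε) := by
  intro lam hlam σ τ hσ hτ
  have h1 : (ρ⁻¹ lam) ^ W = ε := by
    rw [← map_pow, hlam, AlgEquiv.aut_inv, AlgEquiv.symm_apply_apply]
  have h2 := h (ρ⁻¹ lam) h1 (ρ⁻¹ * σ * ρ) (ρ⁻¹ * τ * ρ) (hσ.conj' hF ρ) (hτ.conj' hF ρ)
  have h3 : ∀ s : GQ, ∀ x, (ρ⁻¹ * s * ρ) x = ρ⁻¹ (s (ρ x)) := fun s x => rfl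
  have h4 : ∀ x, ρ (ρ⁻¹ x) = x := fun x => by
    rw [AlgEquiv.aut_inv, AlgEquiv.apply_symm_apply]
  rw [h3, h3, h3, h3, h4, h4, h4] at h2
  exact ρ⁻¹.injective h2

end Pool.Agent.U131.SR
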