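import Pool.Agent.U131.SR.Asm
import Pool.Agent.U131.SR.Ray

/-! Project SR: assembly of the version without the square root condition -/

set_option autoImplicit false
set_option linter.style.haveILetI false

namespace Pool.Agent.U131.SR
open NumberField Module IntermediateField Pool.Agent.K4H33.SK
open Pool.Agent.K4H33.SK.Stmt (Sub)

/-- the theorem without the square root condition -/
def Main0 : Prop := ∀ (ι : Qbar →+* ℂ) (F H M N : Sub) [NumberField F] [NumberField M] (f : ℕ),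
  Fields ι F H M N f →
  ∀ (artF : Ideal (𝓞 F) → GQ) (artM : Ideal (𝓞 M) → GQ),
  IsArtin F (N ⊔ Cyc f) (pri F f) artF → IsArtin M (N ⊔ Cyc f) (pri M f) artM →
  ∀ W : ℕ, IsTorsionOrder N W → StarkImQuad ι M N (pri M f) artM W →
  ∀ 𝔣 : Ideal (𝓞 F), 𝔣 ≠ ⊥ → (∀ P : Ideal (𝓞 F), P.IsPrime → (f : 𝓞 F) ∈ P → 𝔣 ≤ P) →
    StarkReal0 ι F H 𝔣 artF

theorem assemble0 (FX : S_FX) (GR : S_GR) (ZF : S_ZF) (UN : S_UN) : Main0 := by
  intro ι F H M N _ _ f hD artF artM hartF hartM W hW hS 𝔣 h𝔣0 h𝔣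
  have hf : f ≠ 0 := by have := hD.two_le; omega
  haveI : NeZero f := ⟨hf⟩
  obtain ⟨ζ, hζ, hstd⟩ := exists_std ι f hf
  obtain ⟨hfin, hFld⟩ := FX ι F H M N f ζ hD hζ
  obtain ⟨c, z, hG⟩ := GR ι F M N H f ζ hFld
  set T : Sub := N ⊔ Cyc f with hT
  have hNT : N ≤ T := le_sup_left
  have hζT : ζ ∈ T := by
    have h1 : Cyc f ≤ T := le_sup_right
    apply h1
    rw [cyc_eq hζ]
    exact mem_adjoin_simple_self ℚ ζ
  have hHN : H ≤ N := fun x hx => ((hFld.mem_H x).1 hx).1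
  have hFH : F ≤ H := hD.le
  obtain ⟨Z, ε, hε, hε0, hlim, hint, hab⟩ := hS
  obtain ⟨lam, hlam⟩ := IsAlgClosed.exists_pow_nat_eq ε hW.1
  have hStk : Stk ι M N W (cnt M N (pri M f) artM) Z ε lam :=
    { W_pos := hW.1
      mem := hε
      ne := hε0
      C_congr := fun σ τ h => by
        funext n
        exact cnt_congr M N (pri M f) artM h n
      lim := hlim
      int := hint
      ab := hab
      root := hlam }
  have hZ : ∀ σ : GQ, Fixes M σ → IsZeta (cnt M N (pri M f) artM σ) (Z σ) ∧ Z σ 0 = 0 :=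
    fun σ hσ => ⟨(hlim σ hσ).1, (hlim σ hσ).2.1⟩
  obtain ⟨-, hu1, hu2, hu3, hu4, hu5, hu6, hu7⟩ :=
    UN ι F M N H f ζ c z W (cnt M N (pri M f) artM) Z ε lam hFld hG hStk
  -- the representative of the class which fixes `M`
  have hrep : ∀ σ : GQ, Fixes F σ → ∃ g : GQ, Fixes F g ∧ Fixes M g ∧ ∀ x ∈ H, g x = σ x := by
    intro σ hσ
    by_cases h : Fixes M σ
    · exact ⟨σ, hσ, h, fun _ _ => rfl⟩
    · refine ⟨σ * c, hσ.mul hG.c_F, quad hFld.deg_M h hG.c_M, fun x hx => ?_⟩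
      rw [AlgEquiv.mul_apply, hG.c_H x hx]
  have hE : ∀ σ : GQ, ∃ E : ℂ → ℂ, Fixes F σ → IsZeta (cnt F H (pri F f) artF σ) E ∧ E 0 = 0 ∧
      (Real.log ‖ι (σ (sU c z lam))‖ : ℂ) = -2 * deriv E 0 := by
    intro σ
    by_cases hσ : Fixes F σ
    · obtain ⟨g, hg1, hg2, hg3⟩ := hrep σ hσ
      obtain ⟨E, h1, h2, h3⟩ :=
        ZF ι F M N H f ζ c z T artF artM Z hfin hFld hG hNT hζT hartF hartM hZ g hg1 hg2
      refine ⟨E, fun _ => ⟨?_, h2, ?_⟩⟩
      · have h4 : cnt F H (pri F f) artF σ = cnt F H (pri F f) artF g := by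
          funext n
          exact cnt_congr F H (pri F f) artF (fun x hx => (hg3 x hx).symm) n
        rw [h4]
        exact h1
      · rw [← hg3 _ hu1, hu7 g hg1 hg2, ← h3]
        ring
    · exact ⟨0, fun h => absurd h hσ⟩
  choose E hE using hE
  have hSR : StarkReal0 ι F H (pri F f) artF :=
    ⟨E, sU c z lam, hu1, hu2, hu3, hu4, fun σ hσ => ⟨(hE σ hσ).1, (hE σ hσ).2.1, (hE σ hσ).2.2,
      hu6 σ hσ⟩, hu5⟩
  exact t_PR0 (hHN.trans hNT) hartF hD.galois hD.abelian hSR 𝔣 h𝔣0 h𝔣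

end Pool.Agent.U131.SR
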