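import Pool.Agent.U131.SR.Stm
import Pool.Agent.H916R2.ExpZetaOne

/-!
# Project SR, package CYD

Lerch's formula: the derivative at `0` of the even partial zeta functions modulo `f`.
-/

set_option autoImplicit false

namespace Pool.Agent.U131.SR.CYDp
open Complex HurwitzZeta Filter Topology

/-- the derivative at `0` of the even Hurwitz zeta function -/
lemma even_deriv {a : UnitAddCircle} (ha : a ≠ 0) :
    HasDerivAt (hurwitzZetaEven a) (cosZeta a 1 / 2) 0 := by
  have hpi : (Real.pi : ℂ) ≠ 0 := by exact_mod_cast Real.pi_ne_zero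
  have h2pi : (2 * Real.pi : ℂ) ≠ 0 := mul_ne_zero two_ne_zero hpi
  set A : ℂ → ℂ := fun s => 2 * (2 * Real.pi : ℂ) ^ (-s) * Gamma s with hA
  have hAd : DifferentiableAt ℂ A 1 := by
    refine DifferentiableAt.mul ?_ ?_
    · refine DifferentiableAt.const_mul ?_ _
      exact (differentiableAt_id.neg).const_cpow (Or.inl h2pi)
    · refine differentiableAt_Gamma _ fun m => ?_
      intro h
      have := congrArg Complex.re h
      simp at this
      have h3 : (0 : ℝ) ≤ m := Nat.cast_nonneg m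
      linarith
  have hcos : HasDerivAt (fun s : ℂ => cos (Real.pi * s / 2)) (-(Real.pi / 2)) 1 := by
    have h1 : HasDerivAt (fun s : ℂ => Real.pi * s / 2) (Real.pi / 2 : ℂ) 1 := by
      simpa using ((hasDerivAt_id (1 : ℂ)).const_mul (Real.pi : ℂ)).div_const 2
    have h2 := h1.ccos
    have h3 : sin (Real.pi * 1 / 2 : ℂ) = 1 := by
      rw [mul_one, Complex.sin_pi_div_two]
    rw [h3] at h2
    convert! h2 using 1
    ring
  have hG : HasDerivAt (fun s : ℂ => A s * cos (Real.pi * s / 2) * cosZeta a s)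
      (-(cosZeta a 1 / 2)) 1 := by
    have h1 := (hAd.hasDerivAt.mul hcos).mul
      ((differentiable_cosZeta_of_ne_zero ha) 1).hasDerivAt
    have h3 : cos (Real.pi * 1 / 2 : ℂ) = 0 := by
      rw [mul_one, Complex.cos_pi_div_two]
    have hA1 : A 1 = 1 / Real.pi := by
      simp only [hA]
      rw [Complex.Gamma_one, Complex.cpow_neg_one]
      field_simp
    refine h1.congr_deriv ?_
    simp only [Pi.mul_apply]
    rw [h3, hA1]
    field_simp
    ring
  have hG' : HasDerivAt (fun s : ℂ => A (1 - s) * cos (Real.pi * (1 - s) / 2) * cosZeta a (1 - s))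
      (cosZeta a 1 / 2) 0 := by
    have h1 : HasDerivAt (fun s : ℂ => 1 - s) (-1) 0 := by
      simpa using (hasDerivAt_id (0 : ℂ)).const_sub 1
    have hG2 : HasDerivAt (fun s : ℂ => A s * cos (Real.pi * s / 2) * cosZeta a s)
        (-(cosZeta a 1 / 2)) (1 - 0) := by simpa using hG
    have h2 := HasDerivAt.comp (0 : ℂ) hG2 h1
    refine h2.congr_deriv ?_
    ring
  refine hG'.congr_of_eventuallyEq ?_
  have hev : ∀ᶠ s : ℂ in 𝓝 0, s.re < 1 := by
    have : Tendsto (fun s : ℂ => s.re) (𝓝 0) (𝓝 0) := by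
      simpa using Complex.continuous_re.tendsto (0 : ℂ)
    exact this.eventually (Iio_mem_nhds (by norm_num))
  filter_upwards [hev] with s hs
  have h := hurwitzZetaEven_one_sub a (s := 1 - s) (by
    intro n h
    have := congrArg Complex.re h
    simp at this
    have h3 : (0 : ℝ) ≤ n := Nat.cast_nonneg n
    linarith) (Or.inl ha)
  rw [sub_sub_cancel] at h
  rw [h]

/-- the value at `1` of the cosine zeta function -/
lemma cosZeta_one {x : ℝ} (hx : (x : UnitAddCircle) ≠ 0) :
    cosZeta (x : UnitAddCircle) 1 =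
      -((Real.log ‖1 - cexp (2 * Real.pi * I * x)‖ : ℝ) : ℂ) := by
  set z : ℂ := cexp (2 * Real.pi * I * x) with hz
  have hz1 : z ≠ 1 := by
    intro h
    rw [hz, Complex.exp_eq_one_iff] at h
    obtain ⟨n, hn⟩ := h
    apply hx
    have hpi : (2 * Real.pi * I : ℂ) ≠ 0 := by
      simp [Real.pi_ne_zero]
    have h1 : (x : ℂ) = n := by
      have : (2 * Real.pi * I : ℂ) * x = (2 * Real.pi * I) * n := by rw [hn]; ring
      exact mul_left_cancel₀ hpi this
    have h2 : x = (n : ℝ) := by exact_mod_cast h1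
    rw [h2]
    rw [AddCircle.coe_eq_zero_iff]
    exact ⟨n, by simp⟩
  have hnz : ‖z‖ = 1 := by
    rw [hz, show (2 * Real.pi * I * x : ℂ) = ((2 * Real.pi * x : ℝ) : ℂ) * I by push_cast; ring]
    exact Complex.norm_exp_ofReal_mul_I _
  have hcz : cexp (2 * Real.pi * I * ((-x : ℝ) : ℂ)) = (starRingEnd ℂ) z := by
    rw [hz, ← Complex.exp_conj]
    congr 1
    rw [map_mul, map_mul, map_mul, Complex.conj_I, Complex.conj_ofReal, Complex.conj_ofReal,
      map_ofNat, Complex.ofReal_neg]
    ring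
  have hcz1 : (starRingEnd ℂ) z ≠ 1 := by
    intro h
    apply hz1
    have := congrArg (starRingEnd ℂ) h
    simpa using this
  have hnx : ((-x : ℝ) : UnitAddCircle) ≠ 0 := by
    intro h
    apply hx
    have : -(x : UnitAddCircle) = 0 := by simpa using h
    simpa using this
  have e1 := Pool.Agent.H916R2.expZeta_one hz hz1 hx
  have e2 := Pool.Agent.H916R2.expZeta_one hcz.symm hcz1 hnx
  have hneg : ((-x : ℝ) : UnitAddCircle) = -(x : UnitAddCircle) := by simp
  rw [hneg] at e2
  rw [cosZeta_eq, e1, e2]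
  have hre : 0 < (1 - z).re := by
    have h1 : z.re ≤ 1 := by
      have := Complex.abs_re_le_norm z
      rw [hnz] at this
      exact (abs_le.mp this).2
    have h2 : z.re ≠ 1 := by
      intro h
      apply hz1
      have h3 : z.re ^ 2 + z.im ^ 2 = 1 := by
        have := Complex.sq_norm z
        rw [hnz, Complex.normSq_apply] at this
        nlinarith
      have h4 : z.im = 0 := by
        rw [h] at h3
        nlinarith
      exact Complex.ext (by simpa using h) (by simpa using h4)
    have h3 : z.re < 1 := lt_of_le_of_ne h1 h2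
    simp
    linarith
  have harg : (1 - z).arg ≠ Real.pi := by
    intro h
    rw [Complex.arg_eq_pi_iff] at h
    linarith [h.1]
  have hlog : Complex.log (1 - (starRingEnd ℂ) z) = (starRingEnd ℂ) (Complex.log (1 - z)) := by
    rw [← Complex.log_conj _ harg]
    simp
  rw [hlog]
  have h5 : Complex.log (1 - z) + (starRingEnd ℂ) (Complex.log (1 - z)) =
      ((2 * Real.log ‖1 - z‖ : ℝ) : ℂ) := by
    rw [Complex.add_conj, Complex.log_re]
  have h6 : -Complex.log (1 - z) + -(starRingEnd ℂ) (Complex.log (1 - z)) =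
      -(((2 * Real.log ‖1 - z‖ : ℝ)) : ℂ) := by
    rw [← h5]; ring
  rw [h6]
  push_cast
  ring

end Pool.Agent.U131.SR.CYDp

namespace Pool.Agent.U131.SR
open NumberField Module IntermediateField Pool.Agent.K4H33.SK
open Complex HurwitzZeta Filter Topology Finset

lemma CYDp.zq_add {f : ℕ} [NeZero f] {Q : Type} [CommGroup Q] [DecidableEq Q]
    (p : (ZMod f)ˣ →* Q) (x : Q) (s : ℂ) :
    zq p x s + zq p (p (-1) * x) s = (f : ℂ) ^ (-s) * ∑ u : (ZMod f)ˣ,
      if p u = x then 2 * hurwitzZetaEven (ZMod.toAddCircle (u : ZMod f)) s else 0 := by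
  unfold zq ZMod.LFunction
  have hsi : ∀ y : Q, ∑ j, ind p y j * hurwitzZeta (ZMod.toAddCircle j) s =
      ∑ u : (ZMod f)ˣ, if p u = y then hurwitzZeta (ZMod.toAddCircle (u : ZMod f)) s else 0 := by
    intro y
    rw [sum_ind]
    refine sum_congr rfl fun u _ => ?_
    split_ifs <;> rfl
  rw [← mul_add, hsi, hsi]
  congr 1
  have h1 : (∑ u : (ZMod f)ˣ, if p u = p (-1) * x then
      hurwitzZeta (ZMod.toAddCircle (u : ZMod f)) s else 0) =
      ∑ u : (ZMod f)ˣ, if p u = x then
        hurwitzZeta (-(ZMod.toAddCircle (u : ZMod f))) s else 0 := by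
    rw [← Equiv.sum_comp (Equiv.mulLeft (-1 : (ZMod f)ˣ))]
    refine sum_congr rfl fun u _ => ?_
    simp only [Equiv.coe_mulLeft, map_mul, mul_right_inj]
    have h2 : ((-1 * u : (ZMod f)ˣ) : ZMod f) = -(u : ZMod f) := by simp
    rw [h2, map_neg]
  rw [h1, ← sum_add_distrib]
  refine sum_congr rfl fun u _ => ?_
  split_ifs with h
  · unfold hurwitzZeta
    rw [hurwitzZetaEven_neg, hurwitzZetaOdd_neg]
    ring
  · simp

/-- CYD: Lerch's formula -/
theorem t_CYD : S_CYD := by
  intro f _ hf Q _ _ p x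
  have hf0 : (f : ℂ) ≠ 0 := Nat.cast_ne_zero.2 (NeZero.ne f)
  have hne : ∀ u : (ZMod f)ˣ, ZMod.toAddCircle (u : ZMod f) ≠ 0 := by
    intro u h
    have h0 : (u : ZMod f) ≠ 0 := by
      intro h0
      have h1 := u.isUnit
      rw [h0] at h1
      have : Fact (1 < f) := ⟨hf⟩
      exact not_isUnit_zero h1
    exact h0 ((ZMod.toAddCircle_injective f) (by rw [h, map_zero]))
  have hsum : HasDerivAt (fun s => ∑ u : (ZMod f)ˣ,
      if p u = x then 2 * hurwitzZetaEven (ZMod.toAddCircle (u : ZMod f)) s else 0)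
      (∑ u : (ZMod f)ˣ, if p u = x then cosZeta (ZMod.toAddCircle (u : ZMod f)) 1 else 0) 0 := by
    refine HasDerivAt.fun_sum fun u _ => ?_
    split_ifs with h
    · refine ((CYDp.even_deriv (hne u)).const_mul 2).congr_deriv ?_
      ring
    · exact hasDerivAt_const _ _
  have hzero : (∑ u : (ZMod f)ˣ,
      if p u = x then 2 * hurwitzZetaEven (ZMod.toAddCircle (u : ZMod f)) (0 : ℂ) else 0) = 0 := by
    refine sum_eq_zero fun u _ => ?_
    rw [hurwitzZetaEven_apply_zero, if_neg (hne u)]
    simp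
  have hpow : DifferentiableAt ℂ (fun s : ℂ => (f : ℂ) ^ (-s)) 0 :=
    (differentiableAt_id.neg).const_cpow (Or.inl hf0)
  have hd : HasDerivAt (fun s => zq p x s + zq p (p (-1) * x) s)
      (∑ u : (ZMod f)ˣ, if p u = x then cosZeta (ZMod.toAddCircle (u : ZMod f)) 1 else 0) 0 := by
    have h1 := hpow.hasDerivAt.mul hsum
    rw [hzero] at h1
    have h2 : (fun s => zq p x s + zq p (p (-1) * x) s) = (fun s : ℂ => (f : ℂ) ^ (-s)) *
        (fun s => ∑ u : (ZMod f)ˣ,
          if p u = x then 2 * hurwitzZetaEven (ZMod.toAddCircle (u : ZMod f)) s else 0) := by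
      funext s
      rw [CYDp.zq_add]
      rfl
    rw [h2]
    refine h1.congr_deriv ?_
    simp
  have hadd : deriv (zq p x) 0 + deriv (zq p (p (-1) * x)) 0 =
      deriv (fun s => zq p x s + zq p (p (-1) * x) s) 0 := by
    rw [deriv_fun_add (zq_diff p x (by simp)) (zq_diff p _ (by simp))]
  rw [hadd, hd.deriv]
  rw [Complex.ofReal_sum, ← sum_neg_distrib]
  refine sum_congr rfl fun u _ => ?_
  split_ifs with h
  · have h3 : ZMod.toAddCircle (u : ZMod f) =
        ((((u : ZMod f).val : ℝ) / f : ℝ) : UnitAddCircle) := by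
      rw [ZMod.toAddCircle_apply]
    have h4 := hne u
    rw [h3] at h4 ⊢
    rw [CYDp.cosZeta_one h4]
    have h5 : cexp (2 * Real.pi * I * ((((u : ZMod f).val : ℝ) / f : ℝ) : ℂ)) =
        cexp (2 * Real.pi * I * ((u : ZMod f).val : ℂ) / f) := by
      congr 1
      push_cast
      ring
    rw [h5]
  · simp

end Pool.Agent.U131.SR
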