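import Pool.Agent.U131.SR.Lay

/-! Project SR: the formulation with `L`-functions of characters. -/

set_option autoImplicit false

namespace Pool.Agent.U131.SR.Lay
open NumberField Module IntermediateField
open Pool.Agent.K4H33.SK (Qbar GQ Fixes IsZeta AbelianRoot IsTorsionOrder)
open Pool.Agent.K4H33.SK.Stmt (Sub Ideals nrm Cop prd principal IsArtin cnt StarkImQuad)

/-- `χ` is a character of the Galois group of `H/F`: a function on the automorphisms which is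
multiplicative on those fixing `F` and trivial on those fixing `H`. -/
structure IsCharacter (F H : Sub) (χ : GQ → ℂ) : Prop where
  mul : ∀ σ τ : GQ, Fixes F σ → Fixes F τ → χ (σ * τ) = χ σ * χ τ
  triv : ∀ σ : GQ, Fixes H σ → χ σ = 1

/-- `T` is a set of representatives of the Galois group of `H/F`. -/
structure Represents (F H : Sub) (T : Finset GQ) : Prop where
  fix : ∀ t ∈ T, Fixes F t
  ex : ∀ σ : GQ, Fixes F σ → ∃ t ∈ T, Agree H σ t
  inj : ∀ t ∈ T, ∀ t' ∈ T, Agree H t t' → t = t'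

/-- The ideals of norm `n` prime to `𝔣`. -/
def normSet (F : Sub) [NumberField F] (𝔣 : Ideals F) (n : ℕ) : Set (Ideals F) :=
  {𝔟 : Ideals F | nrm F 𝔟 = n ∧ Cop F 𝔟 𝔣}

/-- The coefficients of the `L`-function of `χ`: the sum of `χ (art 𝔟)` over the ideals `𝔟` of norm
`n` prime to `𝔣`. -/
noncomputable def lCoef (F : Sub) [NumberField F] (𝔣 : Ideals F) (art : Ideals F → GQ)
    (χ : GQ → ℂ) (n : ℕ) : ℂ := ∑ᶠ 𝔟 ∈ normSet F 𝔣 n, χ (art 𝔟)

/-- `Λ` is the continuation, holomorphic away from `s = 1`, of the Dirichlet series with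
coefficients `a`. -/
def IsContinuation (a : ℕ → ℂ) (Λ : ℂ → ℂ) : Prop :=
  DifferentiableOn ℂ Λ {1}ᶜ ∧ ∀ s : ℂ, 1 < s.re → LSeriesHasSum a s (Λ s)

/-- The sum over the Galois group of `χ σ log |σ ε|` for the real place given by `ι`. -/
noncomputable def logSum (ι : Qbar →+* ℂ) (T : Finset GQ) (χ : GQ → ℂ) (ε : Qbar) : ℂ :=
  ∑ t ∈ T, χ t * (Real.log ‖val ι (app t ε)‖ : ℂ)

/-- `L(0, χ) = 0` and `L'(0, χ) = -(1/2) ∑ χ(σ) log |σ ε|` for all characters `χ` of `H/F`. -/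
def LFormula (ι : Qbar →+* ℂ) (F H : Sub) [NumberField F] (𝔣 : Ideals F) (art : Ideals F → GQ)
    (ε : Qbar) : Prop :=
  ∀ χ : GQ → ℂ, IsCharacter F H χ → ∀ T : Finset GQ, Represents F H T →
    ∃ Λ : ℂ → ℂ, IsContinuation (lCoef F 𝔣 art χ) Λ ∧ Λ 0 = 0 ∧
      deriv Λ 0 = -(1 / 2) * logSum ι T χ ε

/-- `ε (σ ε) = 1` for the complex conjugations `σ` at the places above the second real place. -/
def OddUnit (ι : Qbar →+* ℂ) (F : Sub) (ε : Qbar) : Prop :=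
  ∀ (w : Qbar →+* ℂ) (σ : GQ), Differ ι w F → (∀ x, val w (app σ x) = star (val w x)) →
    ε * app σ ε = 1

lemma agree_symm {H : Sub} {σ τ : GQ} (h : Agree H σ τ) : Agree H τ σ := fun x hx => (h x hx).symm

lemma chi_agree {F H : Sub} {χ : GQ → ℂ} (h : IsCharacter F H χ) (hFH : F ≤ H) {σ τ : GQ}
    (hτ : Fixes F τ) (ha : Agree H σ τ) : χ σ = χ τ := by
  have h1 : Fixes H (τ⁻¹ * σ) := Pool.Agent.K4H33.SK.agree_iff.1 ha
  have h2 : Fixes F (τ⁻¹ * σ) := h1.mono hFH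
  have h3 := h.mul τ (τ⁻¹ * σ) hτ h2
  rw [h.triv _ h1, mul_one, mul_inv_cancel_left] at h3
  exact h3

lemma lCoef_eq {F H : Sub} [NumberField F] {𝔣 : Ideals F} {art : Ideals F → GQ}
    (hfix : ∀ 𝔟 : Ideals F, Cop F 𝔟 𝔣 → Fixes F (art 𝔟)) (hFH : F ≤ H) {χ : GQ → ℂ}
    (h : IsCharacter F H χ) {S : Finset GQ} (hS : Represents F H S) (n : ℕ) :
    lCoef F 𝔣 art χ n = ∑ t ∈ S, χ t * (cnt F H 𝔣 art t n : ℂ) := by
  classical
  have hfin : (normSet F 𝔣 n).Finite :=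
    (Ideal.finite_setOfPred_absNorm_eq (S := 𝓞 F) n).subset fun 𝔟 h => h.1
  unfold lCoef
  rw [finsum_mem_eq_finite_toFinset_sum _ hfin]
  have h1 : ∀ t ∈ S, χ t * (cnt F H 𝔣 art t n : ℂ) =
      ∑ 𝔟 ∈ hfin.toFinset with Agree H (art 𝔟) t, χ (art 𝔟) := by
    intro t ht
    have h2 : (cnt F H 𝔣 art t n : ℂ) =
        ((hfin.toFinset.filter fun 𝔟 => Agree H (art 𝔟) t).card : ℂ) := by
      congr 1
      unfold cnt
      rw [Nat.card_congr (Equiv.subtypeEquivRight (q := fun 𝔟 =>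
        𝔟 ∈ hfin.toFinset.filter fun 𝔟 => Agree H (art 𝔟) t) fun 𝔟 => ?_)]
      · rw [Nat.card_eq_fintype_card, Fintype.card_coe]
      · rw [Finset.mem_filter, Set.Finite.mem_toFinset]
        constructor
        · rintro ⟨a1, a2, a3⟩
          exact ⟨⟨a1, a2⟩, a3⟩
        · rintro ⟨⟨a1, a2⟩, a3⟩
          exact ⟨a1, a2, a3⟩
    rw [h2, Finset.sum_congr rfl (g := fun _ => χ t), Finset.sum_const, nsmul_eq_mul, mul_comm]
    intro 𝔟 hb
    rw [Finset.mem_filter] at hb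
    exact chi_agree h hFH (hS.fix t ht) hb.2
  rw [Finset.sum_congr rfl h1]
  simp only [Finset.sum_filter]
  rw [Finset.sum_comm]
  refine Finset.sum_congr rfl fun 𝔟 hb => ?_
  rw [Set.Finite.mem_toFinset] at hb
  obtain ⟨t, ht, hat⟩ := hS.ex (art 𝔟) (hfix 𝔟 hb.2)
  rw [Finset.sum_eq_single t]
  · rw [if_pos hat]
  · intro t' ht' hne
    rw [if_neg]
    intro ha
    apply hne
    refine hS.inj t' ht' t ht fun x hx => ?_
    rw [← ha x hx, hat x hx]
  · intro h2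
    exact absurd ht h2

lemma lFormula_of {ι : Qbar →+* ℂ} {F H : Sub} [NumberField F] {𝔣 : Ideals F}
    {art : Ideals F → GQ} (hfix : ∀ 𝔟 : Ideals F, Cop F 𝔟 𝔣 → Fixes F (art 𝔟)) (hFH : F ≤ H)
    {Z : GQ → ℂ → ℂ} {ε : Qbar} (h : LimitReal ι F (cnt F H 𝔣 art) Z ε) :
    LFormula ι F H 𝔣 art ε := by
  intro χ hχ S hS
  refine ⟨fun s => ∑ t ∈ S, χ t * Z t s, ⟨?_, ?_⟩, ?_, ?_⟩
  · refine DifferentiableOn.fun_sum fun t ht => ?_
    exact (h t (hS.fix t ht)).1.1.const_mul _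
  · intro s hs
    have h3 : ∀ t ∈ S, LSeriesHasSum (χ t • fun n => (cnt F H 𝔣 art t n : ℂ)) s
        (χ t * Z t s) := fun t ht => ((h t (hS.fix t ht)).1.2 s hs).smul (χ t)
    have h4 := LSeriesHasSum.sum h3
    refine (LSeriesHasSum_congr s _ (fun {n} _ => ?_)).1 h4
    rw [lCoef_eq hfix hFH hχ hS n, Finset.sum_apply]
    rfl
  · refine Finset.sum_eq_zero fun t ht => ?_
    rw [(h t (hS.fix t ht)).2.1, mul_zero]
  · have hn : ({1}ᶜ : Set ℂ) ∈ nhds (0 : ℂ) := isOpen_compl_singleton.mem_nhds (by simp)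
    have h5 : HasDerivAt (fun s => ∑ t ∈ S, χ t * Z t s) (∑ t ∈ S, χ t * deriv (Z t) 0) 0 := by
      refine HasDerivAt.fun_sum fun t ht => ?_
      exact (((h t (hS.fix t ht)).1.1.differentiableAt hn).hasDerivAt).const_mul _
    rw [h5.deriv]
    unfold logSum
    rw [Finset.mul_sum]
    refine Finset.sum_congr rfl fun t ht => ?_
    rw [(h t (hS.fix t ht)).2.2.1]
    ring

lemma oddUnit_of {ι : Qbar →+* ℂ} {F : Sub} {ε : Qbar} (h : Circle ι F ε) : OddUnit ι F ε := by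
  intro w σ hw hσ
  have h1 := h w hw
  apply w.injective
  have h2 : w (app σ ε) = star (w ε) := hσ ε
  rw [map_mul, map_one, h2]
  have h3 : (w ε) * (starRingEnd ℂ) (w ε) = 1 := by
    rw [Complex.mul_conj, Complex.normSq_eq_norm_sq]
    have h4 : ‖w ε‖ = 1 := h1
    rw [h4]
    norm_num
  exact h3

/-- The integral form, with characters: a unit `ε` of `H` with the limit formula for all characters
of `H/F`, of absolute value one at the places above the second real place of `F`, such that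
`H (√ε)` is abelian over `F`. -/
def StarkChar (ι : Qbar →+* ℂ) (F H : Sub) [NumberField F] (𝔣 : Ideals F) (art : Ideals F → GQ) :
    Prop :=
  ∃ ε : Qbar, ε ∈ H ∧ IsUnitInt ε ∧ Circle ι F ε ∧ OddUnit ι F ε ∧ LFormula ι F H 𝔣 art ε ∧
    AbelianRoot F 2 ε

/-- The integral form without the condition on the square root. -/
def StarkChar0 (ι : Qbar →+* ℂ) (F H : Sub) [NumberField F] (𝔣 : Ideals F)
    (art : Ideals F → GQ) : Prop :=
  ∃ ε : Qbar, ε ∈ H ∧ IsUnitInt ε ∧ Circle ι F ε ∧ OddUnit ι F ε ∧ LFormula ι F H 𝔣 art ε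

lemma fix_over {F T : Sub} [NumberField F] {f : ℕ} {𝔪 : Ideals F} {art : Ideals F → GQ}
    (h𝔪f : ∀ P : Ideal (𝓞 F), P.IsPrime → (f : 𝓞 F) ∈ P → 𝔪 ≤ P)
    (h : Pool.Agent.K4H33.SK.IsArtin F T (pri F f) art) (𝔟 : Ideals F) (hb : Cop F 𝔟 𝔪) :
    Fixes F (art 𝔟) := h.fix 𝔟 (coprime_over h𝔪f hb)

theorem stark_char (ι : Qbar →+* ℂ) (F H M N : Sub) [NumberField F] [NumberField M] (f : ℕ)
    (hF : Fields ι F H M N f) (hf : OddOrFour N f) (hl : HasUnramified M f)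
    (artF : Ideals F → GQ) (artM : Ideals M → GQ) (hart : Symbols F M N f artF artM)
    (hS : StarkTheorem ι M N f artM) (𝔣 : Ideals F) (h𝔣 : Over F f 𝔣) :
    StarkChar ι F H 𝔣 artF := by
  obtain ⟨Z, ε, h1, -, h3, h4, h5, h6⟩ := stark ι F H M N f hF hf hl artF artM hart hS 𝔣 h𝔣
  exact ⟨ε, h1, h3, h5, oddUnit_of h5, lFormula_of (fix_over h𝔣.2 hart.artin_F.down) hF.le h4, h6⟩

theorem stark_char0 (ι : Qbar →+* ℂ) (F H M N : Sub) [NumberField F] [NumberField M] (f : ℕ)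
    (hF : Fields ι F H M N f)
    (artF : Ideals F → GQ) (artM : Ideals M → GQ) (hart : Symbols F M N f artF artM)
    (hS : StarkTheorem ι M N f artM) (𝔣 : Ideals F) (h𝔣 : Over F f 𝔣) :
    StarkChar0 ι F H 𝔣 artF := by
  obtain ⟨W, hW, hS⟩ := hS
  obtain ⟨Z, ε, h1, -, h3, h3', h4, h5⟩ :=
    main0 ι F H M N f hF.down artF artM hart.artin_F.down hart.artin_M.down W hW
      (star_down hS) 𝔣 h𝔣.1 h𝔣.2
  exact ⟨ε, h1, ⟨h3, h3'⟩, h5, oddUnit_of h5,
    lFormula_of (fix_over h𝔣.2 hart.artin_F.down) hF.le h4⟩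

end Pool.Agent.U131.SR.Lay
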