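import Pool.Agent.U131.SR.Stm
import Pool.Agent.H38R2.CG.N2
import Pool.Agent.K4H33.SK.Art
import Pool.Agent.K4H33.SK.Zeta

/-!
# Project SR, package E1

The number of ideals of norm `n` of a quadratic subfield of a cyclotomic field.
-/

set_option autoImplicit false
set_option linter.style.haveILetI false

namespace Pool.Agent.U131.SR
open NumberField Module IntermediateField Pool.Agent.K4H33.SK
open Pool.Agent.K4H33.SK.Stmt (Sub)

namespace E1h

section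
variable {f : ℕ} [NeZero f] {ζ : Qbar}

lemma int_zeta (hζ : IsPrimitiveRoot ζ f) : IsIntegral ℤ ζ :=
  hζ.isIntegral (Nat.pos_of_ne_zero (NeZero.ne f))

lemma fin_adjoin (hζ : IsPrimitiveRoot ζ f) : FiniteDimensional ℚ ℚ⟮ζ⟯ :=
  IntermediateField.adjoin.finiteDimensional ((int_zeta hζ).tower_top)

lemma map_mem (hζ : IsPrimitiveRoot ζ f) (σ : GQ) : σ ζ ∈ ℚ⟮ζ⟯ := by
  have h1 : (σ ζ) ^ f = 1 := by rw [← map_pow, hζ.pow_eq_one, map_one]
  obtain ⟨k, -, hk⟩ := hζ.eq_pow_of_pow_eq_one h1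
  rw [← hk]
  exact pow_mem (mem_adjoin_simple_self ℚ ζ) k

lemma normal_adjoin (hζ : IsPrimitiveRoot ζ f) : Normal ℚ ℚ⟮ζ⟯ := by
  have h : ∀ σ : GQ, (ℚ⟮ζ⟯).map (σ : Qbar →ₐ[ℚ] Qbar) ≤ ℚ⟮ζ⟯ := by
    intro σ
    rw [IntermediateField.adjoin_map, IntermediateField.adjoin_le_iff]
    rintro x ⟨y, hy, rfl⟩
    rw [Set.mem_singleton_iff] at hy
    subst hy
    exact map_mem hζ σ
  have h2 := (IntermediateField.normal_iff_forall_map_le' (K := ℚ⟮ζ⟯)).2 h
  convert h2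
  exact Subsingleton.elim _ _

omit [NeZero f] in
/-- two roots of unity congruent modulo a prime not containing `f` agree -/
lemma root_eq (hf : 0 < f) {𝔓 : Ideal (𝓞 Qbar)} (hfP : (f : 𝓞 Qbar) ∉ 𝔓) {y z : 𝓞 Qbar}
    (hy : y ^ f = 1) (hz : z ^ f = 1) (h : y - z ∈ 𝔓) : y = z := by
  by_contra hne
  exact hfP (mem_of_roots hf hy hz hne h)

lemma unr_adjoin (hζ : IsPrimitiveRoot ζ f) : Unr ℚ⟮ζ⟯ f := by
  intro 𝔓 _ hfP σ hσ
  have hint := int_zeta hζ
  have hint2 : IsIntegral ℤ (σ ζ) := hint.map ((σ : Qbar →+* Qbar).toIntAlgHom)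
  let z : 𝓞 Qbar := ⟨ζ, hint⟩
  let y : 𝓞 Qbar := ⟨σ ζ, hint2⟩
  have h1 := hσ z y (mem_adjoin_simple_self ℚ ζ) rfl
  have hz : z ^ f = 1 := by
    apply RingOfIntegers.ext
    show ζ ^ f = 1
    exact hζ.pow_eq_one
  have hy : y ^ f = 1 := by
    apply RingOfIntegers.ext
    show (σ ζ) ^ f = 1
    rw [← map_pow, hζ.pow_eq_one, map_one]
  have h2 := root_eq (Nat.pos_of_ne_zero (NeZero.ne f)) hfP hy hz h1
  have h3 : σ ζ = ζ := congrArg (fun t : 𝓞 Qbar => (t : Qbar)) h2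
  exact fixes_adjoin h3

lemma frob_zeta (hζ : IsPrimitiveRoot ζ f) {p : ℕ} (hp : p.Prime) (hpf : ¬ p ∣ f) {φ : GQ}
    {𝔓 : Ideal (𝓞 Qbar)} (hP : 𝔓.IsPrime) (hpP : (p : 𝓞 Qbar) ∈ 𝔓)
    (h : ∀ x y : 𝓞 Qbar, (x : Qbar) ∈ ℚ⟮ζ⟯ → (y : Qbar) = φ (x : Qbar) → y - x ^ p ∈ 𝔓) :
    φ ζ = ζ ^ p := by
  have hint := int_zeta hζ
  have hint2 : IsIntegral ℤ (φ ζ) := hint.map ((φ : Qbar →+* Qbar).toIntAlgHom)
  let z : 𝓞 Qbar := ⟨ζ, hint⟩
  let y : 𝓞 Qbar := ⟨φ ζ, hint2⟩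
  have h1 := h z y (mem_adjoin_simple_self ℚ ζ) rfl
  have hz : z ^ f = 1 := by
    apply RingOfIntegers.ext
    show ζ ^ f = 1
    exact hζ.pow_eq_one
  have hy : y ^ f = 1 := by
    apply RingOfIntegers.ext
    show (φ ζ) ^ f = 1
    rw [← map_pow, hζ.pow_eq_one, map_one]
  have hfP : (f : 𝓞 Qbar) ∉ 𝔓 := by
    intro hfP
    apply hP.ne_top
    rw [Ideal.eq_top_iff_one]
    have hc : p.Coprime f := (Nat.Prime.coprime_iff_not_dvd hp).2 hpf
    obtain ⟨u, v, huv⟩ := Nat.isCoprime_iff_coprime.2 hc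
    have h5 := congrArg (Int.cast : ℤ → 𝓞 Qbar) huv
    push_cast at h5
    rw [← h5]
    exact 𝔓.add_mem (𝔓.mul_mem_left _ hpP) (𝔓.mul_mem_left _ hfP)
  have h2 := root_eq (Nat.pos_of_ne_zero (NeZero.ne f)) hfP hy (z := z ^ p)
    (by rw [← pow_mul, mul_comm, pow_mul, hz, one_pow]) h1
  exact congrArg (fun t : 𝓞 Qbar => (t : Qbar)) h2

end

section
variable {f : ℕ} [NeZero f] {ζ : Qbar} (hζ : IsPrimitiveRoot ζ f) (K : Sub)

open Classical in
/-- the quadratic character -/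
noncomputable def chi (n : ℕ) : ℤ :=
  if h : n.Coprime f then (if pp hζ K (ZMod.unitOfCoprime n h) = 1 then 1 else -1) else 0

lemma chi_eq {n : ℕ} (h : n.Coprime f) :
    ((chi hζ K n : ℤ) : ℂ) = 2 * ind (pp hζ K) 1 (n : ZMod f) - 1 := by
  classical
  have h1 : ((n : ℕ) : ZMod f) = (ZMod.unitOfCoprime n h : ZMod f) :=
    (ZMod.coe_unitOfCoprime n h).symm
  rw [h1, ind_unit, chi, dif_pos h]
  split_ifs <;> norm_num

lemma chi_not {n : ℕ} (h : ¬ n.Coprime f) : chi hζ K n = 0 := by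
  rw [chi, dif_neg h]

variable {K}

lemma chi_fix (hK : K ≤ ℚ⟮ζ⟯) {n : ℕ} (h : n.Coprime f) {g : GQ} (hg : g ζ = ζ ^ n) :
    (Fixes K g → chi hζ K n = 1) ∧ (¬ Fixes K g → chi hζ K n = -1) := by
  classical
  have h1 : hζ.autToPow ℚ g = ZMod.unitOfCoprime n h :=
    aut_eq hζ (ZMod.coe_unitOfCoprime n h).symm hg
  have h2 : pp hζ K (ZMod.unitOfCoprime n h) = 1 ↔ Fixes K g := by
    rw [← h1, ← qq_apply, ← map_one (qq hζ K)]
    exact qq_eq_iff hζ hK
  rw [chi, dif_pos h]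
  constructor
  · intro h3
    rw [if_pos (h2.2 h3)]
  · intro h3
    rw [if_neg (fun h4 => h3 (h2.1 h4))]

variable (FR : S_FR)

include FR in
lemma ex_aut (hf : 2 ≤ f) (hζ : IsPrimitiveRoot ζ f) (n : ℕ) :
    n.Coprime f → ∃ g : GQ, g ζ = ζ ^ n := by
  induction n using Nat.recOnMul with
  | zero =>
    intro h
    rw [Nat.coprime_zero_left] at h
    omega
  | one =>
    intro _
    exact ⟨1, by simp⟩
  | prime p hp =>
    intro h
    have hpf : ¬ p ∣ f := (Nat.Prime.coprime_iff_not_dvd hp).1 h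
    obtain ⟨φ, 𝔓, hP, hpP, h1, -⟩ := FR ℚ⟮ζ⟯ f (fin_adjoin hζ) (normal_adjoin hζ)
      (unr_adjoin hζ) p hp hpf
    exact ⟨φ, frob_zeta hζ hp hpf hP hpP h1⟩
  | mul a b iha ihb =>
    intro h
    obtain ⟨g, hg⟩ := iha (Nat.Coprime.coprime_mul_right h)
    obtain ⟨g', hg'⟩ := ihb (Nat.Coprime.coprime_mul_left h)
    refine ⟨g * g', ?_⟩
    rw [AlgEquiv.mul_apply, hg', map_pow, hg, ← pow_mul]

lemma chi_one (hK : K ≤ ℚ⟮ζ⟯) : chi hζ K 1 = 1 :=
  (chi_fix hζ hK (n := 1) (Nat.coprime_one_left f) (g := 1) (by simp)).1 (Fixes.one K)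

include FR in
lemma chi_mul (hf : 2 ≤ f) (hd : finrank ℚ K = 2) (hK : K ≤ ℚ⟮ζ⟯) (a b : ℕ) :
    chi hζ K (a * b) = chi hζ K a * chi hζ K b := by
  by_cases ha : a.Coprime f
  · by_cases hb : b.Coprime f
    · have hab : (a * b).Coprime f := Nat.Coprime.mul_left ha hb
      obtain ⟨g, hg⟩ := ex_aut FR hf hζ a ha
      obtain ⟨g', hg'⟩ := ex_aut FR hf hζ b hb
      have hgg : (g * g') ζ = ζ ^ (a * b) := by
        rw [AlgEquiv.mul_apply, hg', map_pow, hg, ← pow_mul]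
      have e1 := chi_fix hζ hK ha hg
      have e2 := chi_fix hζ hK hb hg'
      have e3 := chi_fix hζ hK hab hgg
      by_cases f1 : Fixes K g
      · by_cases f2 : Fixes K g'
        · rw [e1.1 f1, e2.1 f2, e3.1 (f1.mul f2)]
          norm_num
        · have f3 : ¬ Fixes K (g * g') := by
            intro h
            apply f2
            have := f1.inv.mul h
            rwa [inv_mul_cancel_left] at this
          rw [e1.1 f1, e2.2 f2, e3.2 f3]
          norm_num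
      · by_cases f2 : Fixes K g'
        · have f3 : ¬ Fixes K (g * g') := by
            intro h
            apply f1
            have := h.mul f2.inv
            rwa [mul_inv_cancel_right] at this
          rw [e1.2 f1, e2.1 f2, e3.2 f3]
          norm_num
        · rw [e1.2 f1, e2.2 f2, e3.1 (quad hd f1 f2)]
          norm_num
    · rw [chi_not hζ K hb, chi_not hζ K (fun h => hb (Nat.Coprime.coprime_mul_left h)), mul_zero]
  · rw [chi_not hζ K ha, chi_not hζ K (fun h => ha (Nat.Coprime.coprime_mul_right h)), zero_mul]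

include FR in
lemma chi_pow (hf : 2 ≤ f) (hd : finrank ℚ K = 2) (hK : K ≤ ℚ⟮ζ⟯) (p i : ℕ) :
    chi hζ K (p ^ i) = chi hζ K p ^ i := by
  induction i with
  | zero => rw [pow_zero, pow_zero, chi_one hζ hK]
  | succ i ih => rw [pow_succ, chi_mul hζ FR hf hd hK, ih, pow_succ]

include FR in
lemma sum_mul (hf : 2 ≤ f) (hd : finrank ℚ K = 2) (hK : K ≤ ℚ⟮ζ⟯) {a b : ℕ}
    (hab : a.Coprime b) : ∑ m ∈ (a * b).divisors, chi hζ K m =
      (∑ m ∈ a.divisors, chi hζ K m) * ∑ m ∈ b.divisors, chi hζ K m := by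
  have h0 : chi hζ K 0 = 0 := by
    apply chi_not
    rw [Nat.coprime_zero_left]
    omega
  let cf : ArithmeticFunction ℤ := ⟨fun n => chi hζ K n, h0⟩
  have hm : cf.IsMultiplicative :=
    ⟨chi_one hζ hK, fun {m n} _ => chi_mul hζ FR hf hd hK m n⟩
  have hs : ∀ n : ℕ, (cf * (ArithmeticFunction.zeta : ArithmeticFunction ℤ)) n =
      ∑ m ∈ n.divisors, chi hζ K m := by
    intro n
    rw [ArithmeticFunction.coe_mul_zeta_apply]
    rfl
  rw [← hs, ← hs, ← hs]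
  exact (hm.mul ArithmeticFunction.isMultiplicative_zeta.natCast).map_mul_of_coprime hab

lemma alt_sum (e : ℕ) : (((if Even e then 1 else 0 : ℕ)) : ℤ) =
    ∑ i ∈ Finset.range (e + 1), (-1 : ℤ) ^ i := by
  induction e with
  | zero => simp
  | succ e ih =>
    rw [Finset.sum_range_succ, ← ih]
    rcases Nat.even_or_odd e with he | he
    · have h1 : ¬ Even (e + 1) := by rw [Nat.not_even_iff_odd]; exact he.add_one
      rw [if_pos he, if_neg h1, Odd.neg_one_pow he.add_one]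
      norm_num
    · have h1 : ¬ Even e := by rw [Nat.not_even_iff_odd]; exact he
      have h2 : Even (e + 1) := he.add_one
      rw [if_pos h2, if_neg h1, Even.neg_one_pow h2]
      norm_num

include FR in
lemma count [NumberField K] (hf : 2 ≤ f) (hd : finrank ℚ K = 2) (hK : K ≤ ℚ⟮ζ⟯) (n : ℕ) :
    n.Coprime f → (Pool.Agent.H38R2.CG.N2h.rr K n : ℤ) = ∑ m ∈ n.divisors, chi hζ K m := by
  have h2 : Module.finrank ℤ (𝓞 K) = 2 := by rw [RingOfIntegers.rank, hd]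
  induction n using Nat.recOnPosPrimePosCoprime with
  | zero =>
    intro h
    rw [Nat.coprime_zero_left] at h
    omega
  | one =>
    intro _
    rw [Pool.Agent.H38R2.CG.N2h.rr_one, Nat.divisors_one, Finset.sum_singleton, chi_one hζ hK]
    norm_num
  | prime_pow p e hp he =>
    intro h
    have hpf' : p.Coprime f := (Nat.coprime_pow_left_iff he p f).1 h
    have hpf : ¬ p ∣ f := (Nat.Prime.coprime_iff_not_dvd hp).1 hpf'
    obtain ⟨φ, 𝔓, hP, hpP, h1, h3⟩ := FR ℚ⟮ζ⟯ f (fin_adjoin hζ) (normal_adjoin hζ)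
      (unr_adjoin hζ) p hp hpf
    have h4 := chi_fix hζ hK hpf' (frob_zeta hζ hp hpf hP hpP h1)
    obtain ⟨h5, h6⟩ := h3 K hd hK
    rw [Nat.sum_divisors_prime_pow hp]
    simp_rw [chi_pow hζ FR hf hd hK]
    by_cases hF : Fixes K φ
    · obtain ⟨P₁, P₂, hne, q1, q2, n1, n2, hprod, -⟩ := h5 hF
      rw [Pool.Agent.H38R2.CG.N2h.rr_split K hp e hne q1 q2 n1 n2 hprod, h4.1 hF]
      simp
    · obtain ⟨q, -⟩ := h6 hF
      rw [Pool.Agent.H38R2.CG.N2h.rr_inert K hp e h2 q, h4.2 hF]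
      exact alt_sum e
  | coprime a b ha hb hab iha ihb =>
    intro h
    have h7 : (a * b).Coprime f := h
    rw [Pool.Agent.H38R2.CG.N2h.rr_mul K (by omega) (by omega) hab, sum_mul hζ FR hf hd hK hab,
      ← iha (Nat.Coprime.coprime_mul_right h7), ← ihb (Nat.Coprime.coprime_mul_left h7)]
    push_cast
    rfl

end

end E1h

theorem t_E1 : S_FR → S_E1 := by
  intro FR K _ f _ ζ hζ hf hd hK n hn
  have h := E1h.count hζ FR hf hd hK n hn
  have h1 : (Nat.card {𝔞 : Ideal (𝓞 K) // Ideal.absNorm 𝔞 = n} : ℂ) =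
      ((Pool.Agent.H38R2.CG.N2h.rr K n : ℤ) : ℂ) := by
    unfold Pool.Agent.H38R2.CG.N2h.rr
    push_cast
    rfl
  rw [h1, h]
  push_cast
  refine Finset.sum_congr rfl fun d hd' => ?_
  exact E1h.chi_eq hζ K (Nat.Coprime.coprime_dvd_left (Nat.dvd_of_mem_divisors hd') hn)

end Pool.Agent.U131.SR
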