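import Pool.Agent.U131.SR.Stm

/-!
# Project SR, package EV: double zeros at `0` over real abelian fields (helper394)
-/

set_option autoImplicit false

namespace Pool.Agent.U131.SR
open NumberField Module IntermediateField Pool.Agent.K4H33.SK
open Pool.Agent.K4H33.SK.Stmt (Sub)

lemma zq_zero_of_even {f : ℕ} [NeZero f] {Q : Type} [CommGroup Q] [DecidableEq Q]
    (p : (ZMod f)ˣ →* Q) (hf : 2 ≤ f) (hp : p (-1) = 1) (x : Q) : zq p x 0 = 0 := by
  have h1 := theta_neg p hf x
  rw [hp, one_mul] at h1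
  have h2 : theta p x = 0 := by linarith
  rw [zq_zero p hf, h2, Rat.cast_zero]

theorem t_EV : S_LD → S_EV := by
  classical
  intro hLD K L T _ f _ ζ hζ art hf hK hKL hL hLT hζT hart hp g hg
  let _ : Fintype (QQ hζ L) := Fintype.ofFinite _
  refine ⟨_, hLD K L T f ζ hζ art hf hK hKL hL hLT hζT hart g hg, ?_, ?_⟩
  · refine Finset.sum_eq_zero fun x _ => ?_
    rw [zq_zero_of_even _ hf hp, zero_mul, mul_zero]
  · have h1 : HasDerivAt (fun s : ℂ => ∑ x : QQ hζ L,
        chiQ hζ K L x * (zq (pp hζ L) x s * zq (pp hζ L) (qq hζ L g * x⁻¹) s))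
        (∑ x : QQ hζ L, chiQ hζ K L x *
          (deriv (zq (pp hζ L) x) 0 * zq (pp hζ L) (qq hζ L g * x⁻¹) 0 +
            zq (pp hζ L) x 0 * deriv (zq (pp hζ L) (qq hζ L g * x⁻¹)) 0)) 0 := by
      refine HasDerivAt.fun_sum fun x _ => ?_
      exact (((zq_diff (pp hζ L) x (s := 0) (by simp)).hasDerivAt).mul
        ((zq_diff (pp hζ L) (qq hζ L g * x⁻¹) (s := 0) (by simp)).hasDerivAt)).const_mul _
    rw [h1.deriv]
    refine Finset.sum_eq_zero fun x _ => ?_
    rw [zq_zero_of_even _ hf hp, zq_zero_of_even _ hf hp, mul_zero, zero_mul, add_zero, mul_zero]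

end Pool.Agent.U131.SR
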