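import Pool.Agent.U131.SR.Stm

/-!
# Project SR, package FR (helper97)

The Frobenius automorphism of a prime number and the quadratic subfields of an unramified field.
-/

set_option autoImplicit false
set_option linter.style.haveILetI false

namespace Pool.Agent.U131.SR
open NumberField Module IntermediateField Pool.Agent.K4H33.SK
open Pool.Agent.K4H33.SK.Stmt (Sub)

namespace FRp

/-- the action on the integers -/
noncomputable def ac (σ : GQ) : 𝓞 Qbar →+* 𝓞 Qbar :=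
  RingOfIntegers.mapRingHom (σ : Qbar →+* Qbar)

lemma ac_coe (σ : GQ) (x : 𝓞 Qbar) : ((ac σ x : 𝓞 Qbar) : Qbar) = σ (x : Qbar) := rfl

lemma ac_mul (σ τ : GQ) (x : 𝓞 Qbar) : ac (σ * τ) x = ac σ (ac τ x) := by
  apply RingOfIntegers.ext
  rfl

lemma ac_inv (σ : GQ) (x : 𝓞 Qbar) : ac σ (ac σ⁻¹ x) = x := by
  apply RingOfIntegers.ext
  rw [ac_coe, ac_coe, AlgEquiv.aut_inv, AlgEquiv.apply_symm_apply]

lemma ac_inv' (σ : GQ) (x : 𝓞 Qbar) : ac σ⁻¹ (ac σ x) = x := by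
  apply RingOfIntegers.ext
  rw [ac_coe, ac_coe, AlgEquiv.aut_inv, AlgEquiv.symm_apply_apply]

lemma lift_mem {N : Sub} {x : 𝓞 Qbar} (hx : (x : Qbar) ∈ N) :
    ∃ z : 𝓞 N, algebraMap (𝓞 N) (𝓞 Qbar) z = x := by
  have h1 : IsIntegral ℤ (algebraMap N Qbar ⟨x, hx⟩) := RingOfIntegers.isIntegral_coe x
  have h2 : IsIntegral ℤ (⟨x, hx⟩ : N) :=
    (isIntegral_algebraMap_iff (algebraMap N Qbar).injective).1 h1
  refine ⟨⟨⟨x, hx⟩, h2⟩, ?_⟩
  apply RingOfIntegers.ext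
  rfl

lemma ac_mem {N : Sub} (hN : Normal ℚ N) (g : GQ) {x : 𝓞 Qbar} (hx : (x : Qbar) ∈ N) :
    ((ac g x : 𝓞 Qbar) : Qbar) ∈ N := normal_mem hN g hx

lemma coe_mem {N : Sub} (z : 𝓞 N) : ((algebraMap (𝓞 N) (𝓞 Qbar) z : 𝓞 Qbar) : Qbar) ∈ N :=
  (z : N).2

/-- the residue field of a prime at which all elements satisfy `x ^ p = x` -/
lemma absNorm_eq {K : Sub} [NumberField K] {P : Ideal (𝓞 K)} (hP : P.IsPrime) {p : ℕ}
    (hp : p.Prime) (hpP : (p : 𝓞 K) ∈ P) (h : ∀ x : 𝓞 K, x ^ p - x ∈ P) :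
    Ideal.absNorm P = p := by
  have hP0 : P ≠ ⊥ := by
    rintro rfl
    rw [Ideal.mem_bot] at hpP
    exact hp.ne_zero (by exact_mod_cast hpP)
  haveI hfin : Finite (𝓞 K ⧸ P) := Ideal.finiteQuotientOfFreeOfNeBot _ hP0
  haveI hdom : IsDomain (𝓞 K ⧸ P) := Ideal.Quotient.isDomain P
  have hcard : Ideal.absNorm P = Nat.card (𝓞 K ⧸ P) := by
    rw [Ideal.absNorm_apply, Submodule.cardQuot_apply]
  haveI hchar : CharP (𝓞 K ⧸ P) p := by
    refine (CharP.charP_iff_prime_eq_zero hp).2 ?_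
    rw [← map_natCast (Ideal.Quotient.mk P)]
    exact Ideal.Quotient.eq_zero_iff_mem.2 hpP
  haveI : Fact p.Prime := ⟨hp⟩
  letI := Fintype.ofFinite (𝓞 K ⧸ P)
  rw [hcard]
  apply le_antisymm
  · classical
    have h1 : (Polynomial.X ^ p - Polynomial.X : Polynomial (𝓞 K ⧸ P)) ≠ 0 := by
      intro h0
      have h2 := congrArg (fun q => Polynomial.coeff q p) h0
      simp [Polynomial.coeff_X_pow, Polynomial.coeff_X, hp.one_lt.ne] at h2
    have h2 : (Finset.univ : Finset (𝓞 K ⧸ P)) ⊆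
        (Polynomial.X ^ p - Polynomial.X : Polynomial (𝓞 K ⧸ P)).roots.toFinset := by
      intro x _
      rw [Multiset.mem_toFinset, Polynomial.mem_roots h1, Polynomial.IsRoot, Polynomial.eval_sub,
        Polynomial.eval_pow, Polynomial.eval_X]
      obtain ⟨y, rfl⟩ := Ideal.Quotient.mk_surjective x
      rw [← map_pow, ← map_sub]
      exact Ideal.Quotient.eq_zero_iff_mem.2 (h y)
    have h3 := (Finset.card_le_card h2).trans (Multiset.toFinset_card_le _)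
    have h4 := Polynomial.card_roots' (Polynomial.X ^ p - Polynomial.X : Polynomial (𝓞 K ⧸ P))
    have h5 : (Polynomial.X ^ p - Polynomial.X : Polynomial (𝓞 K ⧸ P)).natDegree ≤ p := by
      refine (Polynomial.natDegree_sub_le _ _).trans ?_
      rw [Polynomial.natDegree_X_pow, Polynomial.natDegree_X]
      exact max_le le_rfl hp.one_lt.le
    rw [Nat.card_eq_fintype_card, ← Finset.card_univ]
    exact h3.trans (h4.trans h5)
  · have h1 : Function.Injective (ZMod.castHom (dvd_refl p) (𝓞 K ⧸ P)) :=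
      (ZMod.castHom (dvd_refl p) (𝓞 K ⧸ P)).injective
    have h2 := Nat.card_le_card_of_injective _ h1
    rwa [Nat.card_zmod] at h2

lemma bot_int (x : 𝓞 ((⊥ : Sub) : Type)) : ∃ n : ℤ, x = n := by
  obtain ⟨q, hq⟩ := IntermediateField.mem_bot.1 (x : ((⊥ : Sub) : Type)).2
  have h1 : IsIntegral ℤ (algebraMap ℚ Qbar q) := by
    rw [hq]
    exact RingOfIntegers.isIntegral_coe (algebraMap (𝓞 ((⊥ : Sub) : Type)) (𝓞 Qbar) x)
  have h2 : IsIntegral ℤ q := (isIntegral_algebraMap_iff (algebraMap ℚ Qbar).injective).1 h1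
  obtain ⟨n, hn⟩ := IsIntegrallyClosed.isIntegral_iff.1 h2
  refine ⟨n, ?_⟩
  apply RingOfIntegers.ext
  apply Subtype.ext
  rw [← hq, ← hn]
  simp

/-- Frobenius elements and transitivity over a subfield -/
lemma key (K N : Sub) [NumberField K] [NumberField N] (hN : Normal ℚ N) (hKN : K ≤ N)
    (𝔓 : Ideal (𝓞 Qbar)) (h𝔓 : 𝔓.IsPrime) (p : ℕ) (hp : p.Prime) (hp𝔓 : (p : 𝓞 Qbar) ∈ 𝔓) :
    (∃ ψ : GQ, Fixes K ψ ∧ ∀ x : 𝓞 Qbar, (x : Qbar) ∈ N →
      ac ψ x - x ^ Ideal.absNorm (𝔓.comap (algebraMap (𝓞 K) (𝓞 Qbar))) ∈ 𝔓) ∧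
    (∀ 𝔔 : Ideal (𝓞 Qbar), 𝔔.IsPrime → 𝔔.comap (algebraMap (𝓞 K) (𝓞 Qbar)) =
      𝔓.comap (algebraMap (𝓞 K) (𝓞 Qbar)) → ∃ τ : GQ, Fixes K τ ∧
        ∀ x : 𝓞 Qbar, (x : Qbar) ∈ N → (x ∈ 𝔓 ↔ ac τ x ∈ 𝔔)) := by
  letI : Algebra K N := (IntermediateField.inclusion hKN).toRingHom.toAlgebra
  haveI : IsScalarTower ℚ K N := IsScalarTower.of_algebraMap_eq (fun _ => rfl)
  haveI : IsScalarTower K N Qbar := IsScalarTower.of_algebraMap_eq (fun _ => rfl)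
  haveI : IsGalois ℚ N := ⟨⟩
  haveI : IsGalois K N := IsGalois.tower_top_of_isGalois ℚ K N
  haveI : FiniteDimensional K N := FiniteDimensional.right ℚ K N
  have htow : (algebraMap (𝓞 N) (𝓞 Qbar)).comp (algebraMap (𝓞 K) (𝓞 N)) =
      algebraMap (𝓞 K) (𝓞 Qbar) := rfl
  -- lifts
  have hlift : ∀ τ : N ≃ₐ[K] N, ∃ σ : GQ, Fixes K σ ∧ ∀ z : 𝓞 N,
      ac σ (algebraMap (𝓞 N) (𝓞 Qbar) z) = algebraMap (𝓞 N) (𝓞 Qbar) (τ • z) := by
    intro τ
    obtain ⟨σ, hσ⟩ := AlgEquiv.restrictNormalHom_surjective (F := ℚ) (K₁ := N) Qbar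
      (τ.restrictScalars ℚ)
    have h1 : ∀ y : N, σ (y : Qbar) = (τ y : Qbar) := by
      intro y
      have h2 := AlgEquiv.restrictNormal_commutes σ N y
      have h3 : σ.restrictNormal N = τ.restrictScalars ℚ := hσ
      rw [h3] at h2
      exact h2.symm
    refine ⟨σ, fun x hx => ?_, fun z => ?_⟩
    · have h4 := h1 (algebraMap K N ⟨x, hx⟩)
      rw [τ.commutes] at h4
      exact h4
    · apply RingOfIntegers.ext
      exact h1 (z : N)
  have hres : ∀ 𝔔 : Ideal (𝓞 Qbar), (𝔔.comap (algebraMap (𝓞 N) (𝓞 Qbar))).under (𝓞 K) =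
      𝔔.comap (algebraMap (𝓞 K) (𝓞 Qbar)) := by
    intro 𝔔
    rw [Ideal.under_def, Ideal.comap_comap, htow]
  constructor
  · have hP : (𝔓.comap (algebraMap (𝓞 N) (𝓞 Qbar))).IsPrime := Ideal.comap_isPrime _ _
    have hP0 : 𝔓.comap (algebraMap (𝓞 N) (𝓞 Qbar)) ≠ ⊥ := by
      intro h0
      have h1 : (p : 𝓞 N) ∈ 𝔓.comap (algebraMap (𝓞 N) (𝓞 Qbar)) := by
        rw [Ideal.mem_comap, map_natCast]
        exact hp𝔓
      rw [h0, Ideal.mem_bot] at h1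
      exact hp.ne_zero (by exact_mod_cast h1)
    haveI : Finite (𝓞 N ⧸ 𝔓.comap (algebraMap (𝓞 N) (𝓞 Qbar))) :=
      Ideal.finiteQuotientOfFreeOfNeBot _ hP0
    obtain ⟨τ, hτ⟩ := IsArithFrobAt.exists_of_isInvariant (𝓞 K) (N ≃ₐ[K] N)
      (𝔓.comap (algebraMap (𝓞 N) (𝓞 Qbar)))
    obtain ⟨σ, hσK, hσ⟩ := hlift τ
    refine ⟨σ, hσK, fun x hx => ?_⟩
    obtain ⟨z, rfl⟩ := lift_mem hx
    have h1 := hτ z
    rw [hσ, Ideal.absNorm_apply, Submodule.cardQuot_apply, ← hres, ← map_pow, ← map_sub]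
    exact h1
  · intro 𝔔 h𝔔 heq
    have hP : (𝔓.comap (algebraMap (𝓞 N) (𝓞 Qbar))).IsPrime := Ideal.comap_isPrime _ _
    have hQ : (𝔔.comap (algebraMap (𝓞 N) (𝓞 Qbar))).IsPrime := Ideal.comap_isPrime _ _
    obtain ⟨τ, hτ⟩ := Algebra.IsInvariant.exists_smul_of_under_eq (𝓞 K) (𝓞 N) (N ≃ₐ[K] N)
      (𝔓.comap (algebraMap (𝓞 N) (𝓞 Qbar))) (𝔔.comap (algebraMap (𝓞 N) (𝓞 Qbar)))
      (by rw [hres, hres, heq])
    obtain ⟨σ, hσK, hσ⟩ := hlift τ
    refine ⟨σ, hσK, fun x hx => ?_⟩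
    obtain ⟨z, rfl⟩ := lift_mem hx
    rw [hσ, ← Ideal.mem_comap, ← Ideal.mem_comap, hτ, Ideal.smul_mem_pointwise_smul_iff]

/-- an element of the decomposition group acts on the residue field through a power -/
lemma pow_frob (N : Sub) [NumberField N] (hN : Normal ℚ N)
    (𝔓 : Ideal (𝓞 Qbar)) (h𝔓 : 𝔓.IsPrime) (p : ℕ) (hp : p.Prime) (hp𝔓 : (p : 𝓞 Qbar) ∈ 𝔓)
    (β : GQ) (hβ : ∀ x : 𝓞 Qbar, (x : Qbar) ∈ N → x ∈ 𝔓 → ac β x ∈ 𝔓) :
    ∃ n : ℕ, ∀ x : 𝓞 Qbar, (x : Qbar) ∈ N → ac β x - x ^ p ^ n ∈ 𝔓 := by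
  obtain ⟨P, hPdef⟩ : ∃ P : Ideal (𝓞 N), P = 𝔓.comap (algebraMap (𝓞 N) (𝓞 Qbar)) := ⟨_, rfl⟩
  have hP : P.IsPrime := by
    rw [hPdef]
    exact Ideal.comap_isPrime _ _
  have hpP : (p : 𝓞 N) ∈ P := by
    rw [hPdef, Ideal.mem_comap, map_natCast]
    exact hp𝔓
  have hP0 : P ≠ ⊥ := by
    rintro rfl
    rw [Ideal.mem_bot] at hpP
    exact hp.ne_zero (by exact_mod_cast hpP)
  haveI hPm : P.IsMaximal := hP.isMaximal hP0
  haveI : Finite (𝓞 N ⧸ P) := Ideal.finiteQuotientOfFreeOfNeBot _ hP0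
  letI : Field (𝓞 N ⧸ P) := Ideal.Quotient.field P
  haveI : Fact p.Prime := ⟨hp⟩
  haveI hchar : CharP (𝓞 N ⧸ P) p := by
    refine (CharP.charP_iff_prime_eq_zero hp).2 ?_
    rw [← map_natCast (Ideal.Quotient.mk P)]
    exact Ideal.Quotient.eq_zero_iff_mem.2 hpP
  letI : Algebra (ZMod p) (𝓞 N ⧸ P) := ZMod.algebra _ p
  let b : 𝓞 N →+* 𝓞 N := RingOfIntegers.mapRingHom ((β.restrictNormal N : N ≃ₐ[ℚ] N) : N →+* N)
  have hb : ∀ z : 𝓞 N, algebraMap (𝓞 N) (𝓞 Qbar) (b z) = ac β (algebraMap (𝓞 N) (𝓞 Qbar) z) := by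
    intro z
    apply RingOfIntegers.ext
    exact AlgEquiv.restrictNormal_commutes β N (z : N)
  have hbP : P ≤ P.comap b := by
    intro z hz
    rw [Ideal.mem_comap, hPdef, Ideal.mem_comap, hb]
    rw [hPdef, Ideal.mem_comap] at hz
    exact hβ _ (coe_mem z) hz
  let s : (𝓞 N ⧸ P) →+* (𝓞 N ⧸ P) := Ideal.quotientMap P b hbP
  let s' : (𝓞 N ⧸ P) →ₐ[ZMod p] (𝓞 N ⧸ P) :=
    { s with
      commutes' := fun r => by
        have h1 : s.comp (algebraMap (ZMod p) (𝓞 N ⧸ P)) = algebraMap (ZMod p) (𝓞 N ⧸ P) :=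
          RingHom.ext_zmod _ _
        exact congrArg (fun g : ZMod p →+* (𝓞 N ⧸ P) => g r) h1 }
  obtain ⟨n, hn⟩ := (FiniteField.bijective_frobeniusAlgHom_pow (ZMod p) (𝓞 N ⧸ P)).2 s'
  refine ⟨n.1, fun x hx => ?_⟩
  obtain ⟨z, rfl⟩ := lift_mem hx
  have h1 : s' (Ideal.Quotient.mk P z) = Ideal.Quotient.mk P (b z) :=
    Ideal.quotientMap_mk (H := hbP)
  rw [← hn] at h1
  have h2 : (FiniteField.frobeniusAlgHom (ZMod p) (𝓞 N ⧸ P) ^ (n : ℕ)) (Ideal.Quotient.mk P z) =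
      (Ideal.Quotient.mk P z) ^ p ^ (n : ℕ) := by
    rw [AlgHom.coe_pow, FiniteField.coe_frobeniusAlgHom, pow_iterate, ZMod.card]
  have h3 : Ideal.Quotient.mk P (b z) = Ideal.Quotient.mk P (z ^ p ^ (n : ℕ)) := by
    rw [map_pow, ← h2]
    exact h1.symm
  have h4 := hPdef.le (Ideal.Quotient.eq.1 h3)
  rw [Ideal.mem_comap, map_sub, map_pow, hb] at h4
  exact h4

/-- two automorphisms which are congruent are equal -/
lemma inert {N : Sub} {f : ℕ} (hN : Normal ℚ N) (hU : Unr N f) {𝔓 : Ideal (𝓞 Qbar)}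
    (h𝔓 : 𝔓.IsPrime) (hf : (f : 𝓞 Qbar) ∉ 𝔓) (g h : GQ)
    (hst : ∀ x : 𝓞 Qbar, (x : Qbar) ∈ N → ac h x ∈ 𝔓 → x ∈ 𝔓)
    (hgh : ∀ x : 𝓞 Qbar, (x : Qbar) ∈ N → ac g x - ac h x ∈ 𝔓) : ∀ x ∈ N, g x = h x := by
  have h1 := hU 𝔓 h𝔓 hf (h⁻¹ * g) (fun x y hx hy => by
    have hy' : y = ac (h⁻¹ * g) x := by
      apply RingOfIntegers.ext
      exact hy
    apply hst
    · have e : ((y - x : 𝓞 Qbar) : Qbar) = (y : Qbar) - (x : Qbar) := rfl
      rw [e, hy]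
      exact N.sub_mem (normal_mem hN _ hx) hx
    · rw [map_sub, hy', ac_mul, ac_inv]
      exact hgh x hx)
  intro x hx
  have h2 := h1 x hx
  rw [AlgEquiv.mul_apply, AlgEquiv.aut_inv, AlgEquiv.symm_apply_eq] at h2
  exact h2

/-- conjugate prime -/
lemma comap_ac_eq {K : Sub} {b b' : GQ} (h : ∀ x ∈ K, b x = b' x)
    (𝔓 : Ideal (𝓞 Qbar)) :
    (𝔓.comap (ac b)).comap (algebraMap (𝓞 K) (𝓞 Qbar)) =
      (𝔓.comap (ac b')).comap (algebraMap (𝓞 K) (𝓞 Qbar)) := by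
  ext z
  rw [Ideal.mem_comap, Ideal.mem_comap, Ideal.mem_comap, Ideal.mem_comap]
  have e : ac b (algebraMap (𝓞 K) (𝓞 Qbar) z) = ac b' (algebraMap (𝓞 K) (𝓞 Qbar) z) := by
    apply RingOfIntegers.ext
    exact h _ (coe_mem z)
  rw [e]

/-- the main part -/
lemma main (N : Sub) (f : ℕ) [NumberField N] (hN : Normal ℚ N) (hU : Unr N f)
    (p : ℕ) (hp : p.Prime) (hpf : ¬ p ∣ f) (φ : GQ) (𝔓 : Ideal (𝓞 Qbar)) (h𝔓 : 𝔓.IsPrime)
    (hp𝔓 : (p : 𝓞 Qbar) ∈ 𝔓) (hφ : ∀ x : 𝓞 Qbar, (x : Qbar) ∈ N → ac φ x - x ^ p ∈ 𝔓)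
    (K : Sub) [NumberField K] (hK2 : finrank ℚ K = 2) (hKN : K ≤ N) :
      (Fixes K φ → ∃ P₁ P₂ : Ideal (𝓞 K), P₁ ≠ P₂ ∧ P₁.IsPrime ∧ P₂.IsPrime ∧
        Ideal.absNorm P₁ = p ∧ Ideal.absNorm P₂ = p ∧ P₁ * P₂ = pri K p ∧
        ∀ (T : Sub) (art : Ideal (𝓞 K) → GQ), N ≤ T → IsArtin K T (pri K f) art →
          (∀ x ∈ N, art P₁ x = φ x) ∧
          ∀ b : GQ, ¬ Fixes K b → ∀ x ∈ N, art P₂ x = b (φ (b⁻¹ x))) ∧
      (¬ Fixes K φ → (pri K p).IsPrime ∧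
        ∀ (T : Sub) (art : Ideal (𝓞 K) → GQ), N ≤ T → IsArtin K T (pri K f) art →
          ∀ x ∈ N, art (pri K p) x = φ (φ x)) := by
  have hKn : Normal ℚ K := quad_normal hK2
  have hcop : Nat.Coprime p f := (Nat.Prime.coprime_iff_not_dvd hp).2 hpf
  -- `f` is not in a prime which contains `p`
  have hfn : ∀ {R : Type} [CommRing R] (I : Ideal R), I.IsPrime → (p : R) ∈ I → (f : R) ∉ I := by
    intro R _ I hI h1 h2
    obtain ⟨u, v, huv⟩ := Nat.isCoprime_iff_coprime.2 hcop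
    apply hI.ne_top
    rw [Ideal.eq_top_iff_one]
    have h3 : (u : R) * p + (v : R) * f = 1 := by exact_mod_cast congrArg (Int.cast : ℤ → R) huv
    rw [← h3]
    exact I.add_mem (I.mul_mem_left _ h1) (I.mul_mem_left _ h2)
  -- `φ` and the decomposition group
  have hφ1 : ∀ x : 𝓞 Qbar, (x : Qbar) ∈ N → ac φ x ∈ 𝔓 → x ∈ 𝔓 := by
    intro x hx h1
    have h2 := 𝔓.sub_mem h1 (hφ x hx)
    rw [sub_sub_cancel] at h2
    exact h𝔓.mem_of_pow_mem _ h2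
  have hφN : ∀ x : 𝓞 Qbar, (x : Qbar) ∈ N → ((ac φ x : 𝓞 Qbar) : Qbar) ∈ N := fun x hx =>
    normal_mem hN φ hx
  -- Frobenius at a prime of norm `p` which is below a conjugate of `𝔓`
  have hart : ∀ (b : GQ) (P : Ideal (𝓞 K)), P.IsPrime →
      P = (𝔓.comap (ac b⁻¹)).comap (algebraMap (𝓞 K) (𝓞 Qbar)) → Ideal.absNorm P = p →
      ∀ (T : Sub) (art : Ideal (𝓞 K) → GQ), N ≤ T → IsArtin K T (pri K f) art →
        ∀ x ∈ N, art P x = (b * φ * b⁻¹) x := by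
    intro b P hP hPeq hPn T art hNT hA
    have h𝔔 : (𝔓.comap (ac b⁻¹)).IsPrime := Ideal.comap_isPrime _ _
    have hp𝔔 : (p : 𝓞 Qbar) ∈ 𝔓.comap (ac b⁻¹) := by
      rw [Ideal.mem_comap, map_natCast]
      exact hp𝔓
    have hpP : (p : 𝓞 K) ∈ P := by
      rw [hPeq, Ideal.mem_comap, map_natCast]
      exact hp𝔔
    have hfP := hfn P hP hpP
    have hP0 : P ≠ ⊥ := by
      rintro rfl
      rw [Ideal.mem_bot] at hpP
      exact hp.ne_zero (by exact_mod_cast hpP)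
    have hc : IsCoprime P (pri K f) := by
      rw [coprime_norm, hPn]
      exact hcop
    haveI hover : (𝔓.comap (ac b⁻¹)).LiesOver P := ⟨hPeq⟩
    refine inert hN hU h𝔔 (hfn _ h𝔔 hp𝔔) _ _ ?_ ?_
    · intro x hx h1
      rw [Ideal.mem_comap] at h1 ⊢
      have e : ac b⁻¹ (ac (b * φ * b⁻¹) x) = ac φ (ac b⁻¹ x) := by
        rw [mul_assoc, ac_mul, ac_inv', ac_mul]
      rw [e] at h1
      exact hφ1 _ (ac_mem hN _ hx) h1
    · intro x hx
      have h1 := hA.frob P hP hc _ h𝔔 hover x (ac (art P) x) (hNT hx) rfl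
      rw [hPn] at h1
      have h2 : ac (b * φ * b⁻¹) x - x ^ p ∈ 𝔓.comap (ac b⁻¹) := by
        have e : ac b⁻¹ (ac (b * φ * b⁻¹) x) = ac φ (ac b⁻¹ x) := by
          rw [mul_assoc, ac_mul, ac_inv', ac_mul]
        rw [Ideal.mem_comap, map_sub, map_pow, e]
        exact hφ _ (ac_mem hN _ hx)
      have h3 := (𝔓.comap (ac b⁻¹)).sub_mem h1 h2
      rw [sub_sub_sub_cancel_right] at h3
      exact h3
  have hone : 𝔓.comap (ac (1 : GQ)⁻¹) = 𝔓 := by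
    ext x
    rw [Ideal.mem_comap]
    have e : ac (1 : GQ)⁻¹ x = x := by
      apply RingOfIntegers.ext
      rw [ac_coe, inv_one]
      rfl
    rw [e]
  obtain ⟨P₁, hP₁⟩ : ∃ P₁ : Ideal (𝓞 K), P₁ = 𝔓.comap (algebraMap (𝓞 K) (𝓞 Qbar)) := ⟨_, rfl⟩
  have hP₁p : P₁.IsPrime := by
    rw [hP₁]
    exact Ideal.comap_isPrime _ _
  have hpP₁ : (p : 𝓞 K) ∈ P₁ := by
    rw [hP₁, Ideal.mem_comap, map_natCast]
    exact hp𝔓
  have hP₁0 : P₁ ≠ ⊥ := by
    rintro rfl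
    rw [Ideal.mem_bot] at hpP₁
    exact hp.ne_zero (by exact_mod_cast hpP₁)
  have hnp : Ideal.absNorm (pri K p) = p ^ 2 := by
    rw [Ideal.absNorm_span_singleton, ← map_natCast (algebraMap ℤ (𝓞 K)), Algebra.norm_algebraMap,
      RingOfIntegers.rank, hK2]
    simp
  obtain ⟨hF1, hF2⟩ := key K N hN hKN 𝔓 h𝔓 p hp hp𝔓
  rw [← hP₁] at hF1 hF2
  constructor
  · intro hφK
    -- elements of `K` satisfy `x ^ p = x`
    have hx1 : ∀ x : 𝓞 K, x ^ p - x ∈ P₁ := by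
      intro x
      rw [hP₁, Ideal.mem_comap, map_sub, map_pow]
      have h1 := hφ _ (hKN (coe_mem x))
      have e : ac φ (algebraMap (𝓞 K) (𝓞 Qbar) x) = algebraMap (𝓞 K) (𝓞 Qbar) x := by
        apply RingOfIntegers.ext
        exact hφK _ (coe_mem x)
      rw [e] at h1
      have h2 := 𝔓.neg_mem h1
      rw [neg_sub] at h2
      exact h2
    have hn1 := absNorm_eq hP₁p hp hpP₁ hx1
    -- an element which does not fix `K`
    obtain ⟨b₀, hb₀⟩ : ∃ b₀ : GQ, ¬ Fixes K b₀ := by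
      by_contra hcon
      push Not at hcon
      have h1 : K ≤ ⊥ := by
        intro x hx
        exact mem_of_fixed ⊥ (fun σ _ => hcon σ x hx)
      have h2 : K = ⊥ := le_bot_iff.1 h1
      rw [h2, IntermediateField.finrank_bot] at hK2
      omega
    obtain ⟨P₂, hP₂⟩ : ∃ P₂ : Ideal (𝓞 K),
      P₂ = (𝔓.comap (ac b₀⁻¹)).comap (algebraMap (𝓞 K) (𝓞 Qbar)) := ⟨_, rfl⟩
    have h𝔔 : (𝔓.comap (ac b₀⁻¹)).IsPrime := Ideal.comap_isPrime _ _
    have hP₂p : P₂.IsPrime := by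
      rw [hP₂]
      exact Ideal.comap_isPrime _ _
    have hpP₂ : (p : 𝓞 K) ∈ P₂ := by
      rw [hP₂, Ideal.mem_comap, Ideal.mem_comap, map_natCast, map_natCast]
      exact hp𝔓
    have hx2 : ∀ x : 𝓞 K, x ^ p - x ∈ P₂ := by
      intro x
      obtain ⟨y, hy⟩ : ∃ y : 𝓞 K, algebraMap (𝓞 K) (𝓞 Qbar) y =
          ac b₀⁻¹ (algebraMap (𝓞 K) (𝓞 Qbar) x) :=
        lift_mem (normal_mem hKn b₀⁻¹ (coe_mem x))
      rw [hP₂, Ideal.mem_comap, Ideal.mem_comap, map_sub, map_pow, map_sub, map_pow, ← hy]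
      have h1 := hx1 y
      rw [hP₁, Ideal.mem_comap, map_sub, map_pow] at h1
      exact h1
    have hn2 := absNorm_eq hP₂p hp hpP₂ hx2
    have hne : P₁ ≠ P₂ := by
      intro heq
      obtain ⟨τ, hτK, hτ⟩ := hF2 (𝔓.comap (ac b₀⁻¹)) h𝔔 (by rw [← hP₂, heq])
      -- `b₀⁻¹ τ` is in the decomposition group
      have h1 : ∀ x : 𝓞 Qbar, (x : Qbar) ∈ N → x ∈ 𝔓 → ac (b₀⁻¹ * τ) x ∈ 𝔓 := by
        intro x hx hx2
        have h2 := (hτ x hx).1 hx2
        rw [ac_mul]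
        exact h2
      obtain ⟨n, hn⟩ := pow_frob N hN 𝔓 h𝔓 p hp hp𝔓 _ h1
      -- powers of `φ`
      have h3 : ∀ n : ℕ, ∀ x : 𝓞 Qbar, (x : Qbar) ∈ N → ac (φ ^ n) x - x ^ p ^ n ∈ 𝔓 := by
        intro n
        induction n with
        | zero =>
          intro x hx
          have e : ac (φ ^ 0) x = x := by
            apply RingOfIntegers.ext
            rw [ac_coe, pow_zero]
            rfl
          rw [e, pow_zero, pow_one, sub_self]
          exact 𝔓.zero_mem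
        | succ n ih =>
          intro x hx
          have h4 := hφ _ (ac_mem hN (φ ^ n) hx)
          have h5 := ih x hx
          have h6 : (ac (φ ^ n) x) ^ p - (x ^ p ^ n) ^ p ∈ 𝔓 := by
            have h7 := sub_dvd_pow_sub_pow (ac (φ ^ n) x) (x ^ p ^ n) p
            exact 𝔓.mem_of_dvd h7 h5
          have h8 := 𝔓.add_mem h4 h6
          rw [sub_add_sub_cancel, ← pow_mul, ← pow_succ, ← ac_mul, ← pow_succ'] at h8
          exact h8
      have h4 : ∀ x ∈ N, (b₀⁻¹ * τ) x = (φ ^ n) x := by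
        refine inert hN hU h𝔓 (hfn _ h𝔓 hp𝔓) _ _ ?_ ?_
        · intro x hx h5
          have h6 := 𝔓.sub_mem h5 (h3 n x hx)
          rw [sub_sub_cancel] at h6
          exact h𝔓.mem_of_pow_mem _ h6
        · intro x hx
          have h6 := 𝔓.sub_mem (hn x hx) (h3 n x hx)
          rw [sub_sub_sub_cancel_right] at h6
          exact h6
      apply hb₀
      have h5 : Fixes K (b₀⁻¹ * τ) := by
        intro x hx
        rw [h4 x (hKN hx)]
        exact Fixes.pow hφK n x hx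
      have h6 : Fixes K (τ * (b₀⁻¹ * τ)⁻¹) := hτK.mul h5.inv
      have e : τ * (b₀⁻¹ * τ)⁻¹ = b₀ := by group
      rwa [e] at h6
    have hP₂0 : P₂ ≠ ⊥ := by
      rintro h0
      rw [h0, Ideal.mem_bot] at hpP₂
      exact hp.ne_zero (by exact_mod_cast hpP₂)
    have hmul : P₁ * P₂ = pri K p := by
      have hm1 : P₁.IsMaximal := hP₁p.isMaximal hP₁0
      have hm2 : P₂.IsMaximal := hP₂p.isMaximal hP₂0
      have h1 : IsCoprime P₁ P₂ := by
        rw [isCoprime_prime_iff hP₂p hP₂0]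
        intro hle
        exact hne (hm1.eq_of_le hm2.ne_top hle)
      have h2 : pri K p ≤ P₁ * P₂ := by
        rw [Ideal.mul_eq_inf_of_isCoprime h1]
        refine le_inf ?_ ?_
        · rw [Ideal.span_singleton_le_iff_mem]
          exact hpP₁
        · rw [Ideal.span_singleton_le_iff_mem]
          exact hpP₂
      obtain ⟨C, hC⟩ := Ideal.dvd_iff_le.2 h2
      have h3 : Ideal.absNorm C = 1 := by
        have h4 := congrArg Ideal.absNorm hC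
        rw [hnp, map_mul, map_mul, hn1, hn2, ← pow_two] at h4
        have h5 : 0 < p ^ 2 := pow_pos hp.pos 2
        exact (Nat.eq_of_mul_eq_mul_left h5 (by rw [mul_one]; exact h4)).symm
      rw [Ideal.absNorm_eq_one_iff] at h3
      rw [hC, h3, Ideal.mul_top]
    refine ⟨P₁, P₂, hne, hP₁p, hP₂p, hn1, hn2, hmul, ?_⟩
    intro T art hNT hA
    constructor
    · intro x hx
      have h1 := hart 1 P₁ hP₁p (by rw [hone, hP₁]) hn1 T art hNT hA x hx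
      rw [h1, one_mul, inv_one, mul_one]
    · intro b hb x hx
      have h0 : ∀ y ∈ K, b₀⁻¹ y = b⁻¹ y := by
        rw [agree_iff]
        rw [inv_inv]
        have h2 : Fixes K (b * b₀) := quad hK2 hb hb₀
        have h3 : ¬ Fixes K b₀⁻¹ := fun h => hb₀ (by simpa using h.inv)
        exact quad hK2 hb h3
      have h1 := hart b P₂ hP₂p (by rw [hP₂]; exact comap_ac_eq h0 𝔓) hn2 T art hNT hA x hx
      rw [h1]
      rfl
  · intro hφK
    have hne : Ideal.absNorm P₁ ≠ p := by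
      intro h1
      obtain ⟨ψ, hψK, hψ⟩ := hF1
      rw [h1] at hψ
      apply hφK
      have h2 : ∀ x ∈ N, ψ x = φ x := by
        refine inert hN hU h𝔓 (hfn _ h𝔓 hp𝔓) _ _ hφ1 ?_
        intro x hx
        have h6 := 𝔓.sub_mem (hψ x hx) (hφ x hx)
        rw [sub_sub_sub_cancel_right] at h6
        exact h6
      intro x hx
      rw [← h2 x (hKN hx)]
      exact hψK x hx
    have hle : pri K p ≤ P₁ := by
      rw [Ideal.span_singleton_le_iff_mem]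
      exact hpP₁
    have hdvd : P₁ ∣ pri K p := Ideal.dvd_iff_le.2 hle
    have hn : Ideal.absNorm P₁ = p ^ 2 := by
      have h1 : Ideal.absNorm P₁ ∣ p ^ 2 := by
        rw [← hnp]
        exact map_dvd Ideal.absNorm hdvd
      obtain ⟨i, hi, h2⟩ := (Nat.dvd_prime_pow hp).1 h1
      interval_cases i
      · exfalso
        rw [pow_zero, Ideal.absNorm_eq_one_iff] at h2
        exact hP₁p.ne_top h2
      · exfalso
        rw [pow_one] at h2
        exact hne h2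
      · exact h2
    have heq : pri K p = P₁ := by
      obtain ⟨C, hC⟩ := hdvd
      have h3 : Ideal.absNorm C = 1 := by
        have h4 := congrArg Ideal.absNorm hC
        rw [hnp, map_mul, hn] at h4
        have h5 : 0 < p ^ 2 := pow_pos hp.pos 2
        exact (Nat.eq_of_mul_eq_mul_left h5 (by rw [mul_one]; exact h4)).symm
      rw [Ideal.absNorm_eq_one_iff] at h3
      rw [hC, h3, Ideal.mul_top]
    rw [heq]
    refine ⟨hP₁p, ?_⟩
    intro T art hNT hA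
    have hc : IsCoprime P₁ (pri K f) := by
      rw [coprime_norm, hn]
      exact Nat.Coprime.pow_left 2 hcop
    haveI hover : 𝔓.LiesOver P₁ := ⟨hP₁⟩
    have h1 : ∀ x ∈ N, art P₁ x = (φ * φ) x := by
      refine inert hN hU h𝔓 (hfn _ h𝔓 hp𝔓) _ _ ?_ ?_
      · intro x hx h2
        rw [ac_mul] at h2
        exact hφ1 x hx (hφ1 _ (hφN x hx) h2)
      · intro x hx
        have h2 := hA.frob P₁ hP₁p hc 𝔓 h𝔓 hover x (ac (art P₁) x) (hNT hx) rfl
        rw [hn] at h2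
        have h3 := hφ _ (hφN x hx)
        have h4 : (ac φ x) ^ p - (x ^ p) ^ p ∈ 𝔓 :=
          𝔓.mem_of_dvd (sub_dvd_pow_sub_pow (ac φ x) (x ^ p) p) (hφ x hx)
        have h5 := 𝔓.add_mem h3 h4
        rw [sub_add_sub_cancel, ← pow_mul, ← pow_two, ← ac_mul] at h5
        have h6 := 𝔓.sub_mem h2 h5
        rw [sub_sub_sub_cancel_right] at h6
        exact h6
    intro x hx
    exact h1 x hx

end FRp

open FRp in
theorem t_FR : S_FR := by
  intro N f hfd hN hU p hp hpf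
  haveI : NumberField N := { to_charZero := inferInstance, to_finiteDimensional := hfd }
  haveI : Fact p.Prime := ⟨hp⟩
  have hpI : (Ideal.span {(p : ℤ)}).IsPrime := by
    rw [Ideal.span_singleton_prime (by exact_mod_cast hp.ne_zero)]
    exact Nat.prime_iff_prime_int.1 hp
  obtain ⟨⟨𝔓, h𝔓, hl⟩⟩ := Ideal.nonempty_primesOver (S := 𝓞 Qbar) (Ideal.span {(p : ℤ)})
  have hp𝔓 : (p : 𝓞 Qbar) ∈ 𝔓 := by
    have h1 : (p : ℤ) ∈ Ideal.span {(p : ℤ)} := Ideal.mem_span_singleton_self _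
    rw [Ideal.mem_of_liesOver 𝔓 (Ideal.span {(p : ℤ)})] at h1
    simpa using h1
  haveI : NumberField ((⊥ : Sub) : Type) :=
    { to_charZero := inferInstance, to_finiteDimensional := inferInstance }
  obtain ⟨⟨φ, -, hφ⟩, -⟩ := key ⊥ N hN bot_le 𝔓 h𝔓 p hp hp𝔓
  have hn : Ideal.absNorm (𝔓.comap (algebraMap (𝓞 ((⊥ : Sub) : Type)) (𝓞 Qbar))) = p := by
    refine absNorm_eq (Ideal.comap_isPrime _ _) hp ?_ ?_
    · rw [Ideal.mem_comap, map_natCast]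
      exact hp𝔓
    · intro x
      obtain ⟨n, rfl⟩ := bot_int x
      rw [Ideal.mem_comap]
      have h1 : (p : ℤ) ∣ n ^ p - n := by
        rw [← ZMod.intCast_zmod_eq_zero_iff_dvd]
        push_cast
        rw [ZMod.pow_card, sub_self]
      obtain ⟨m, hm⟩ := h1
      have h2 : ((n : 𝓞 ((⊥ : Sub) : Type)) ^ p - n) = (p : 𝓞 ((⊥ : Sub) : Type)) * m := by
        exact_mod_cast congrArg (Int.cast : ℤ → 𝓞 ((⊥ : Sub) : Type)) hm
      rw [h2, map_mul, map_natCast]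
      exact 𝔓.mul_mem_right _ hp𝔓
  rw [hn] at hφ
  refine ⟨φ, 𝔓, h𝔓, hp𝔓, ?_, ?_⟩
  · intro x y hx hy
    have e : y = ac φ x := by
      apply RingOfIntegers.ext
      exact hy
    rw [e]
    exact hφ x hx
  · intro K _ hK2 hKN
    exact main N f hN hU p hp hpf φ 𝔓 h𝔓 hp𝔓 hφ K hK2 hKN

end Pool.Agent.U131.SR
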