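import Pool.Agent.U131.SR.Stm

/-! Project SR: package FX (from the structure `Fields` to the structure `Fld`). -/

set_option autoImplicit false
set_option linter.style.haveILetI false

namespace Pool.Agent.U131.SR
open NumberField Module IntermediateField Pool.Agent.K4H33.SK
open Pool.Agent.K4H33.SK.Stmt (Sub)

private lemma cyc_eq_aux {f : ℕ} [NeZero f] {ζ : Qbar} (hζ : IsPrimitiveRoot ζ f) :
    Cyc f = ℚ⟮ζ⟯ := by
  apply le_antisymm
  · unfold Cyc
    rw [IntermediateField.adjoin_le_iff]
    intro ξ hξ
    obtain ⟨k, -, hk⟩ := hζ.eq_pow_of_pow_eq_one hξ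
    rw [← hk]
    exact pow_mem (mem_adjoin_simple_self ℚ ζ) k
  · rw [adjoin_simple_le_iff]
    exact IntermediateField.subset_adjoin ℚ _ hζ.pow_eq_one

private lemma exists_not_fixes {F : Sub} (hF : finrank ℚ F = 2) : ∃ b : GQ, ¬ Fixes F b := by
  by_contra h
  push Not at h
  have h1 : F = ⊥ := by
    rw [eq_bot_iff]
    intro x hx
    exact mem_of_fixed ⊥ fun σ _ => h σ x hx
  rw [h1, IntermediateField.finrank_bot] at hF
  norm_num at hF

theorem t_FX : S_FX := by
  intro ι F H M N f ζ D hζ
  have hFn := quad_normal D.deg_F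
  obtain ⟨b, hb⟩ := exists_not_fixes D.deg_F
  haveI := D.fin
  set Hb : Sub := H.map (b : Qbar →ₐ[ℚ] Qbar) with hHb
  have hbinv : ¬ Fixes F b⁻¹ := by
    intro h
    apply hb
    have := h.inv
    rwa [inv_inv] at this
  have hHN : H ≤ N := fun x hx => D.conj_mem 1 x hx
  have hHbN : Hb ≤ N := by
    intro y hy
    obtain ⟨x, hx, rfl⟩ := (IntermediateField.mem_map _).1 hy
    exact D.conj_mem b x hx
  have hN : N = H ⊔ Hb := by
    apply le_antisymm
    · apply D.minimal
      intro σ x hx
      by_cases h : Fixes F σ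
      · exact (le_sup_left : H ≤ H ⊔ Hb) (D.galois σ h x hx)
      · have h1 : Fixes F (b⁻¹ * σ) := quad D.deg_F hbinv h
        have h2 := D.galois _ h1 x hx
        apply (le_sup_right : Hb ≤ H ⊔ Hb)
        refine (IntermediateField.mem_map _).2 ⟨_, h2, ?_⟩
        change b ((b⁻¹ * σ) x) = σ x
        rw [← AlgEquiv.mul_apply, mul_inv_cancel_left]
    · exact sup_le hHN hHbN
  have hfin : FiniteDimensional ℚ N := by
    rw [hN]
    infer_instance
  have hnorm : Normal ℚ N := by
    have h : ∀ σ : GQ, N.map (σ : Qbar →ₐ[ℚ] Qbar) ≤ N := by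
      intro σ
      rw [IntermediateField.map_le_iff_le_comap]
      apply D.minimal
      intro τ x hx
      exact D.conj_mem (σ * τ) x hx
    have h2 := (IntermediateField.normal_iff_forall_map_le' (K := N)).2 h
    convert h2
    exact Subsingleton.elim _ _
  have habF : ∀ σ τ : GQ, Fixes F σ → Fixes F τ → ∀ x ∈ N, σ (τ x) = τ (σ x) := by
    intro σ τ hσ hτ x hx
    rw [hN] at hx
    refine agree_sup (σ := σ * τ) (τ := τ * σ) (fun y hy => D.abelian σ τ hσ hτ y hy) ?_ x hx
    intro z hz
    obtain ⟨y, hy, rfl⟩ := (IntermediateField.mem_map _).1 hz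
    have h1 := D.abelian _ _ (hσ.conj' hFn b) (hτ.conj' hFn b) y hy
    have h2 := congrArg b h1
    rw [← AlgEquiv.mul_apply, ← AlgEquiv.mul_apply, ← AlgEquiv.mul_apply, ← AlgEquiv.mul_apply]
      at h2
    have e1 : b * (b⁻¹ * σ * b) * (b⁻¹ * τ * b) = σ * τ * b := by group
    have e2 : b * (b⁻¹ * τ * b) * (b⁻¹ * σ * b) = τ * σ * b := by group
    rw [e1, e2] at h2
    exact h2
  obtain ⟨c, hc⟩ := exists_conj ι
  have hcfix : ∀ x : Qbar, (ι x).im = 0 ↔ c x = x := by
    intro x
    rw [← Complex.conj_eq_iff_im, ← hc]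
    exact ⟨fun h => ι.injective h, fun h => by rw [h]⟩
  have hcH : Fixes H c := fun x hx => (hcfix x).1 (D.real x hx)
  have hcM : ¬ Fixes M c := by
    intro h
    obtain ⟨x, hx, hx'⟩ := D.imag
    exact hx' ((hcfix x).2 (h x hx))
  have hA : ∀ u : GQ, Fixes H u → Fixes M u → ∀ x ∈ N, u x = x := by
    intro u hu huM x hx
    rw [hN] at hx
    refine agree_sup (σ := u) (τ := 1) (fun y hy => hu y hy) ?_ x hx
    intro z hz
    obtain ⟨y, hy, rfl⟩ := (IntermediateField.mem_map _).1 hz
    change u (b y) = b y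
    by_cases hbM : Fixes M b
    · rw [D.abelian_M u b huM hbM y (hHN hy), hu y hy]
    · have h1 := D.abelian_M u (b * c) huM (quad D.deg_M hbM hcM) y (hHN hy)
      rw [AlgEquiv.mul_apply, AlgEquiv.mul_apply, hu y hy, hcH y hy] at h1
      exact h1
  refine ⟨hfin, ?_⟩
  exact
    { deg_F := D.deg_F
      deg_M := D.deg_M
      real_F := fun x hx => D.real x (D.le hx)
      imag_M := D.imag
      normal := hnorm
      F_le := D.le.trans hHN
      M_le := D.M_le
      ab_F := habF
      ab_M := D.abelian_M
      nonab := by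
        by_contra hcon
        push Not at hcon
        obtain ⟨w, x, hx, hwx⟩ := D.complex
        obtain ⟨τ, hτ⟩ := exists_lift ι w
        apply hwx
        rw [hτ, hcfix, hcon c τ x (hHN hx), hcH x hx]
      mem_H := by
        intro x
        constructor
        · intro hx
          exact ⟨hHN hx, D.real x hx⟩
        · rintro ⟨hx, hx'⟩
          have hcx := (hcfix x).1 hx'
          apply mem_of_fixed
          intro u hu
          by_cases huM : Fixes M u
          · exact hA u hu huM x hx
          · have h1 := hA (u * c) (hu.mul hcH) (quad D.deg_M huM hcM) x hx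
            rw [AlgEquiv.mul_apply, hcx] at h1
            exact h1
      unr := D.unramified
      two_le := D.two_le
      prim := hζ
      cyc := by
        intro x hx h
        haveI : NeZero f := ⟨by have := D.two_le; omega⟩
        rw [← cyc_eq_aux hζ]
        exact D.cyclotomic x hx h }

end Pool.Agent.U131.SR
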