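import Pool.Agent.U131.SR.Stm
import Pool.Agent.K4H33.SK.Gal
import Pool.Agent.K4H33.SK.Cyc

/-!
# Project SR, package GR: complex conjugation and the nontrivial commutator
-/

set_option autoImplicit false

namespace Pool.Agent.U131.SR
open NumberField Module IntermediateField Pool.Agent.K4H33.SK
open Pool.Agent.K4H33.SK.Stmt (Sub)

namespace GRAux

lemma conj_real {ι : Qbar →+* ℂ} {c : GQ} (hc : ∀ x, ι (c x) = (starRingEnd ℂ) (ι x)) {x : Qbar} :
    c x = x ↔ (ι x).im = 0 := by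
  constructor
  · intro h
    have h1 := hc x
    rw [h] at h1
    exact Complex.conj_eq_iff_im.1 h1.symm
  · intro h
    apply ι.injective
    rw [hc]
    exact Complex.conj_eq_iff_im.2 h

lemma exists_not_fixes {F : Sub} (hF : finrank ℚ F = 2) : ∃ b : GQ, ¬ Fixes F b := by
  by_contra hcon
  push Not at hcon
  have h1 : F = ⊥ := by
    rw [eq_bot_iff]
    intro x hx
    exact mem_of_fixed _ fun σ _ => hcon σ x hx
  rw [h1, IntermediateField.finrank_bot] at hF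
  omega

lemma root_comm {n : ℕ} (hn : n ≠ 0) {ξ : Qbar} (hξ : ξ ^ n = 1) (σ τ : GQ) :
    σ (τ ξ) = τ (σ ξ) := by
  obtain ⟨a, -, ha⟩ := exists_pow (Nat.pos_of_ne_zero hn) σ
  obtain ⟨b, -, hb⟩ := exists_pow (Nat.pos_of_ne_zero hn) τ
  rw [hb ξ hξ, map_pow, ha ξ hξ, map_pow, hb ξ hξ, ← pow_mul, ← pow_mul, mul_comm]

lemma root_or {g c : GQ} {x : Qbar} (h1 : g (x + c x) = x + c x) (h2 : g (x * c x) = x * c x) :
    g x = x ∨ g x = c x := by
  rw [map_add] at h1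
  rw [map_mul] at h2
  have h3 : (g x - x) * (g x - c x) = 0 := by
    linear_combination (g x) * h1 - h2
  rcases mul_eq_zero.1 h3 with h | h
  · exact Or.inl (sub_eq_zero.1 h)
  · exact Or.inr (sub_eq_zero.1 h)

lemma union {A : Sub} {g c : GQ} (h : ∀ x ∈ A, g x = x ∨ g x = c x) :
    (∀ x ∈ A, g x = x) ∨ (∀ x ∈ A, g x = c x) := by
  by_contra hcon
  push Not at hcon
  obtain ⟨⟨x, hx, hx1⟩, ⟨y, hy, hy1⟩⟩ := hcon
  have hx2 : g x = c x := (h x hx).resolve_left hx1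
  have hy2 : g y = y := (h y hy).resolve_right hy1
  rcases h (x + y) (A.add_mem hx hy) with h1 | h1
  · rw [map_add, hy2] at h1
    exact hx1 (add_right_cancel h1)
  · rw [map_add, map_add, hx2] at h1
    exact hy1 (add_left_cancel h1)

end GRAux

open GRAux

theorem t_GR : S_GR := by
  intro ι F M N H f ζ hL
  have hFn : Normal ℚ F := quad_normal hL.deg_F
  have hMn : Normal ℚ M := quad_normal hL.deg_M
  have hN : Normal ℚ N := hL.normal
  obtain ⟨c, hc⟩ := exists_conj ι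
  obtain ⟨b, hb⟩ := exists_not_fixes hL.deg_F
  have cc : ∀ x, c (c x) = x := fun x => by
    apply ι.injective
    rw [hc, hc, Complex.conj_conj]
  have c_F : Fixes F c := fun x hx => (conj_real hc).2 (hL.real_F x hx)
  have c_M : ¬ Fixes M c := by
    intro h
    obtain ⟨x, hx, hx1⟩ := hL.imag_M
    exact hx1 ((conj_real hc).1 (h x hx))
  have c_H : Fixes H c := fun x hx => (conj_real hc).2 ((hL.mem_H x).1 hx).2
  have mN : ∀ (g : GQ) {x : Qbar}, x ∈ N → g x ∈ N := fun g x hx => normal_mem hN g hx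
  -- the commutator
  obtain ⟨z, hz⟩ : ∃ z : GQ, z = b * c * b⁻¹ * c := ⟨_, rfl⟩
  have zx : ∀ x, z x = b (c (b⁻¹ (c x))) := fun x => by rw [hz]; rfl
  have bb : ∀ x, b⁻¹ (b x) = x := fun x => by
    rw [AlgEquiv.aut_inv, AlgEquiv.symm_apply_apply]
  have bb' : ∀ x, b (b⁻¹ x) = x := fun x => by
    rw [AlgEquiv.aut_inv, AlgEquiv.apply_symm_apply]
  have z_F : Fixes F z := by
    rw [hz]
    exact (c_F.conj hFn b).mul c_F
  have z_M : Fixes M z := by
    rw [hz]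
    refine quad hL.deg_M (fun h => c_M ?_) c_M
    have h1 := h.conj' hMn b
    have h2 : b⁻¹ * (b * c * b⁻¹) * b = c := by group
    rwa [h2] at h1
  have z_root : ∀ (ξ : Qbar) (n : ℕ), n ≠ 0 → ξ ^ n = 1 → z ξ = ξ := by
    intro ξ n hn hξ
    have h1 : (c ξ) ^ n = 1 := by rw [← map_pow, hξ, map_one]
    rw [zx, root_comm hn h1 c b⁻¹, cc, bb']
  have central : ∀ g : GQ, Fixes F g → Fixes M g → ∀ σ : GQ, ∀ x ∈ N, g (σ x) = σ (g x) := by
    intro g hgF hgM σ x hx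
    by_cases h1 : Fixes F σ
    · exact hL.ab_F g σ hgF h1 x hx
    by_cases h2 : Fixes M σ
    · exact hL.ab_M g σ hgM h2 x hx
    have h3 := hL.ab_M g (σ * c) hgM (quad hL.deg_M h2 c_M) (c x) (mN c hx)
    rw [AlgEquiv.mul_apply, AlgEquiv.mul_apply, cc] at h3
    rw [h3, hL.ab_F g c hgF c_F x hx, cc]
  have bc : ∀ b' : GQ, ¬ Fixes F b' → ∀ x ∈ N, b' (c x) = z (c (b' x)) := by
    intro b' hb' x hx
    have h1 : Fixes F (b⁻¹ * b') := by
      refine quad hL.deg_F (fun h => hb ?_) hb'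
      have h2 := h.inv
      rwa [inv_inv] at h2
    rw [zx, cc]
    have h2 := hL.ab_F c (b⁻¹ * b') c_F h1 x hx
    rw [AlgEquiv.mul_apply, AlgEquiv.mul_apply] at h2
    rw [h2, bb']
  have z_comm : ∀ σ : GQ, ∀ x ∈ N, z (σ x) = σ (z x) := central z z_F z_M
  have zz : ∀ x ∈ N, z (z x) = x := by
    intro x hx
    have h1 : ∀ y ∈ N, c (b (c (b⁻¹ (c y)))) = b (c (b⁻¹ y)) := by
      intro y hy
      have h2 := z_comm c y hy
      rw [zx, zx, cc] at h2
      exact h2.symm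
    rw [zx (z x), zx x, h1 x hx, bb, cc, bb']
  -- commutation up to `z`
  have symm : ∀ σ τ : GQ, ((∀ x ∈ N, σ (τ x) = τ (σ x)) ∨ (∀ x ∈ N, σ (τ x) = z (τ (σ x)))) →
      ((∀ x ∈ N, τ (σ x) = σ (τ x)) ∨ (∀ x ∈ N, τ (σ x) = z (σ (τ x)))) := by
    rintro σ τ (h | h)
    · exact Or.inl fun x hx => (h x hx).symm
    · refine Or.inr fun x hx => ?_
      rw [h x hx, zz _ (mN _ (mN _ hx))]
  have hmul : ∀ σ τ τ' : GQ,
      ((∀ x ∈ N, σ (τ x) = τ (σ x)) ∨ (∀ x ∈ N, σ (τ x) = z (τ (σ x)))) →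
      ((∀ x ∈ N, σ (τ' x) = τ' (σ x)) ∨ (∀ x ∈ N, σ (τ' x) = z (τ' (σ x)))) →
      ((∀ x ∈ N, σ ((τ * τ') x) = (τ * τ') (σ x)) ∨
        (∀ x ∈ N, σ ((τ * τ') x) = z ((τ * τ') (σ x)))) := by
    rintro σ τ τ' (h | h) (h' | h')
    · refine Or.inl fun x hx => ?_
      rw [AlgEquiv.mul_apply, AlgEquiv.mul_apply, h _ (mN _ hx), h' x hx]
    · refine Or.inr fun x hx => ?_
      rw [AlgEquiv.mul_apply, AlgEquiv.mul_apply, h _ (mN _ hx), h' x hx,
        z_comm _ _ (mN _ (mN _ hx))]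
    · refine Or.inr fun x hx => ?_
      rw [AlgEquiv.mul_apply, AlgEquiv.mul_apply, h _ (mN _ hx), h' x hx]
    · refine Or.inl fun x hx => ?_
      rw [AlgEquiv.mul_apply, AlgEquiv.mul_apply, h _ (mN _ hx), h' x hx,
        ← z_comm _ _ (mN _ (mN _ hx)), zz _ (mN _ (mN _ (mN _ hx)))]
  have hcomm_c : ∀ σ : GQ,
      (∀ x ∈ N, σ (c x) = c (σ x)) ∨ (∀ x ∈ N, σ (c x) = z (c (σ x))) := by
    intro σ
    by_cases h : Fixes F σ
    · exact Or.inl fun x hx => hL.ab_F σ c h c_F x hx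
    · exact Or.inr (bc σ h)
  have split : ∀ σ : GQ, ∃ s : GQ, Fixes M s ∧ (σ = s ∨ σ = s * c) := by
    intro σ
    by_cases h : Fixes M σ
    · exact ⟨σ, h, Or.inl rfl⟩
    · refine ⟨σ * c, quad hL.deg_M h c_M, Or.inr ?_⟩
      ext x
      rw [AlgEquiv.mul_apply, AlgEquiv.mul_apply, cc]
  have comm : ∀ σ τ : GQ,
      (∀ x ∈ N, σ (τ x) = τ (σ x)) ∨ (∀ x ∈ N, σ (τ x) = z (τ (σ x))) := by
    have hM : ∀ s : GQ, Fixes M s → ∀ τ : GQ,
        (∀ x ∈ N, s (τ x) = τ (s x)) ∨ (∀ x ∈ N, s (τ x) = z (τ (s x))) := by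
      intro s hs τ
      obtain ⟨t, ht, h1 | h1⟩ := split τ
      · rw [h1]
        exact Or.inl (hL.ab_M s t hs ht)
      · rw [h1]
        exact hmul s t c (Or.inl (hL.ab_M s t hs ht)) (hcomm_c s)
    intro σ τ
    obtain ⟨s, hs, h1 | h1⟩ := split σ
    · rw [h1]
      exact hM s hs τ
    · rw [h1]
      exact symm _ _ (hmul τ s c (symm _ _ (hM s hs τ)) (hcomm_c τ))
  have z_ne : ∃ x ∈ N, z x ≠ x := by
    by_contra hcon
    push Not at hcon
    obtain ⟨σ, τ, x, hx, hne⟩ := hL.nonab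
    rcases comm σ τ with h | h
    · exact hne (h x hx)
    · apply hne
      rw [h x hx, hcon _ (mN _ (mN _ hx))]
  have H_stab : ∀ g : GQ, Fixes F g → ∀ x ∈ H, g x ∈ H := by
    intro g hg x hx
    rw [hL.mem_H] at hx ⊢
    refine ⟨mN g hx.1, (conj_real hc).1 ?_⟩
    rw [← hL.ab_F g c hg c_F x hx.1, (conj_real hc).2 hx.2]
  have H_le : ∀ x ∈ H, x ∈ N := fun x hx => ((hL.mem_H x).1 hx).1
  refine ⟨c, z, hc, cc, c_F, c_M, c_H, z_F, z_M, z_root, z_ne, zz, z_comm, comm, bc, central, ?_,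
    H_stab, ?_⟩
  · intro g hg
    refine union fun x hx => root_or (hg _ ?_) (hg _ ?_)
    · rw [hL.mem_H]
      refine ⟨N.add_mem hx (mN c hx), (conj_real hc).1 ?_⟩
      rw [map_add, cc, add_comm]
    · rw [hL.mem_H]
      refine ⟨N.mul_mem hx (mN c hx), (conj_real hc).1 ?_⟩
      rw [map_mul, cc, mul_comm]
  · intro g hg
    refine union fun x hx => root_or (hg _ ?_ ?_) (hg _ ?_ ?_)
    · exact H.add_mem hx (H_stab z z_F x hx)
    · rw [map_add, zz x (H_le x hx), add_comm]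
    · exact H.mul_mem hx (H_stab z z_F x hx)
    · rw [map_mul, zz x (H_le x hx), mul_comm]

end Pool.Agent.U131.SR
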