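import Pool.Agent.U131.SR.Stm

/-!
Project SR, package KAP: `± eR 1` is a square in `ℚ(ζ)` (helper901).
-/

set_option autoImplicit false

namespace Pool.Agent.U131.SR
open NumberField Module IntermediateField Pool.Agent.K4H33.SK
open Pool.Agent.K4H33.SK.Stmt (Sub)

namespace KAP

theorem exists_aut {f : ℕ} {ζ : Qbar} (hf : 0 < f) (hζ : IsPrimitiveRoot ζ f) {n : ℕ}
    (hn : n.Coprime f) : ∃ σ : GQ, σ ζ = ζ ^ n := by
  have h1 := Polynomial.cyclotomic_eq_minpoly_rat hζ hf
  have h2 := Polynomial.cyclotomic_eq_minpoly_rat (hζ.pow_of_coprime n hn) hf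
  have h3 : IsConjRoot ℚ (ζ ^ n) ζ := by
    rw [IsConjRoot, ← h1, ← h2]
  exact h3.exists_algEquiv

variable {f : ℕ} [NeZero f]

theorem val_neg' (hf : 3 ≤ f) (w : (ZMod f)ˣ) :
    ((-w : (ZMod f)ˣ) : ZMod f).val = f - (w : ZMod f).val := by
  have : Fact (1 < f) := ⟨by omega⟩
  rw [Units.val_neg, ZMod.neg_val, if_neg w.ne_zero]

omit [NeZero f] in
theorem val_pos (hf : 3 ≤ f) (w : (ZMod f)ˣ) : 0 < (w : ZMod f).val := by
  have : Fact (1 < f) := ⟨by omega⟩
  exact ZMod.val_pos.mpr w.ne_zero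

omit [NeZero f] in
theorem val_ne (hf : 3 ≤ f) (w : (ZMod f)ˣ) : 2 * (w : ZMod f).val ≠ f := by
  intro h
  have h1 := ZMod.val_coe_unit_coprime w
  have h2 : (w : ZMod f).val ∣ f := ⟨2, by omega⟩
  have h3 : (w : ZMod f).val = 1 := by
    have := Nat.Coprime.eq_one_of_dvd h1 h2
    exact this
  omega

end KAP

open KAP in
open Classical in
theorem t_KAP : S_KAP := by
  intro f _ ζ hζ R hf hR hm1 hcase
  have hfpos : 0 < f := by omega
  have hζ0 : ζ ≠ 0 := hζ.ne_zero (by omega)
  have hζm : ζ ∈ ℚ⟮ζ⟯ := mem_adjoin_simple_self ℚ ζ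
  let v : (ZMod f)ˣ → ℕ := fun w => (w : ZMod f).val
  have hvlt : ∀ w, v w < f := fun w => ZMod.val_lt _
  have hvneg : ∀ w, v (-w) = f - v w := val_neg' hf
  have hvpos : ∀ w, 0 < v w := val_pos hf
  have hvne : ∀ w, 2 * v w ≠ f := val_ne hf
  have hppneg : ∀ w, pp hζ R (-w) = pp hζ R w := by
    intro w
    rw [← neg_one_mul w, map_mul, hm1, one_mul]
  set Up : Finset (ZMod f)ˣ :=
    (Finset.univ.filter (fun w => pp hζ R w = 1)).filter (fun w => 2 * v w < f) with hUp
  have hmemUp : ∀ w, w ∈ Up ↔ pp hζ R w = 1 ∧ 2 * v w < f := by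
    intro w
    simp [hUp]
  have hprod : eR hζ R 1 = (∏ w ∈ Up, (1 - ζ ^ v w)) * ∏ w ∈ Up, (1 - ζ ^ (f - v w)) := by
    have h1 : eR hζ R 1 = ∏ w ∈ Finset.univ.filter (fun w => pp hζ R w = 1), (1 - ζ ^ v w) := by
      rw [Finset.prod_filter]
      rfl
    rw [h1, ← Finset.prod_filter_mul_prod_filter_not _ (fun w => 2 * v w < f)]
    congr 1
    refine Finset.prod_nbij' (fun w => -w) (fun w => -w) ?_ ?_ ?_ ?_ ?_
    · intro w hw
      simp only [Finset.mem_filter, Finset.mem_univ, true_and] at hw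
      rw [hmemUp, hppneg, hvneg]
      have := hvne w
      have := hvlt w
      exact ⟨hw.1, by omega⟩
    · intro w hw
      rw [hmemUp] at hw
      simp only [Finset.mem_filter, Finset.mem_univ, true_and]
      rw [hppneg, hvneg]
      have := hvlt w
      exact ⟨hw.1, by omega⟩
    · intro w _; exact neg_neg w
    · intro w _; exact neg_neg w
    · intro w _
      rw [hvneg]
      have := hvlt w
      congr 2
      omega
  set k0 : Qbar := ∏ w ∈ Up, (1 - ζ ^ v w) with hk0
  set j : ℕ := ∑ w ∈ Up, v w with hj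
  have hfac : eR hζ R 1 = (-1) ^ Up.card * ((ζ⁻¹) ^ j * k0 ^ 2) := by
    rw [hprod, hk0, ← Finset.prod_mul_distrib]
    have h1 : ∀ w ∈ Up, (1 - ζ ^ v w) * (1 - ζ ^ (f - v w)) =
        (-1) * ((ζ⁻¹) ^ v w * (1 - ζ ^ v w) ^ 2) := by
      intro w _
      have h2 : ζ ^ (f - v w) = (ζ⁻¹) ^ v w := by
        rw [inv_pow]
        apply eq_inv_of_mul_eq_one_left
        rw [← pow_add, Nat.sub_add_cancel (hvlt w).le, hζ.pow_eq_one]
      have h3 : (ζ⁻¹) ^ v w * ζ ^ v w = 1 := by
        rw [← mul_pow, inv_mul_cancel₀ hζ0, one_pow]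
      rw [h2]
      linear_combination (ζ ^ v w - 1) * h3
    rw [Finset.prod_congr rfl h1, Finset.prod_mul_distrib, Finset.prod_mul_distrib,
      Finset.prod_const, Finset.prod_pow_eq_pow_sum, Finset.prod_pow]
  have hk0ne : k0 ≠ 0 := by
    rw [hk0, Finset.prod_ne_zero_iff]
    intro w _ h
    have h1 : ζ ^ v w = 1 := (sub_eq_zero.mp h).symm
    have h2 := (hζ.pow_eq_one_iff_dvd _).1 h1
    have h3 := Nat.le_of_dvd (hvpos w) h2
    have := hvlt w
    omega
  have hk0m : k0 ∈ ℚ⟮ζ⟯ :=
    prod_mem (fun w _ => sub_mem (one_mem _) (pow_mem hζm _))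
  have hmu : ∃ μ ∈ ℚ⟮ζ⟯, μ ≠ 0 ∧ (ζ⁻¹) ^ j = μ ^ 2 := by
    rcases hcase with hodd | ⟨h4, hR4, hRb⟩
    · obtain ⟨r, hr⟩ := hodd
      refine ⟨((ζ⁻¹) ^ (r + 1)) ^ j, pow_mem (pow_mem (inv_mem hζm) _) _,
        pow_ne_zero _ (pow_ne_zero _ (inv_ne_zero hζ0)), ?_⟩
      rw [← pow_mul, ← pow_mul, show (r + 1) * (j * 2) = f * j + j by rw [hr]; ring, pow_add,
        pow_mul, inv_pow ζ f, hζ.pow_eq_one, inv_one, one_pow, one_mul]
    · obtain ⟨q, hq⟩ := h4
      have hq2 : 2 ≤ q := by
        by_contra hcon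
        have hq1 : q = 1 := by omega
        apply hRb
        have h1 : ζ ^ 4 = 1 := by
          have := hζ.pow_eq_one
          rwa [hq, hq1, mul_one] at this
        rw [h1] at hR4
        have h2 : ℚ⟮(1 : Qbar)⟯ = ⊥ := by
          rw [adjoin_simple_eq_bot_iff]
          exact one_mem _
        rw [h2] at hR4
        exact le_bot_iff.mp hR4
      have hvodd : ∀ w, (v w : ZMod 2) = 1 := by
        intro w
        have h1 : (v w).Coprime f := ZMod.val_coe_unit_coprime w
        have h2 : ¬ 2 ∣ v w := by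
          intro h2
          have h3 : 2 ∣ f := ⟨2 * q, by omega⟩
          have := Nat.dvd_gcd h2 h3
          rw [h1] at this
          omega
        have h3 : v w % 2 = 1 := by omega
        rw [← Nat.mod_add_div (v w) 2, h3]
        push_cast
        have : (2 : ZMod 2) = 0 := rfl
        rw [this]; ring
      have hz : ((4 * q : ℕ) : ZMod f) = 0 := by
        rw [← hq]; exact ZMod.natCast_self f
      have hz' : (4 : ZMod f) * (q : ZMod f) = 0 := by
        have := hz
        push_cast at this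
        exact this
      have hw0 : (1 + 2 * (q : ZMod f)) * (1 + 2 * (q : ZMod f)) = 1 := by
        linear_combination (1 + (q : ZMod f)) * hz'
      let w0 : (ZMod f)ˣ := ⟨1 + 2 * (q : ZMod f), 1 + 2 * (q : ZMod f), hw0, hw0⟩
      have hw02 : w0 * w0 = 1 := by ext; exact hw0
      have hw0v : (w0 : ZMod f) = ((1 + 2 * q : ℕ) : ZMod f) := by
        show 1 + 2 * (q : ZMod f) = _
        push_cast; rfl
      have hw01 : w0 ≠ 1 := by
        intro h
        have h1 : ((2 * q : ℕ) : ZMod f) = 0 := by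
          have h2 := congrArg (fun u : (ZMod f)ˣ => (u : ZMod f)) h
          simp only [hw0v, Units.val_one] at h2
          push_cast at h2 ⊢
          linear_combination h2
        rw [ZMod.natCast_eq_zero_iff] at h1
        have := Nat.le_of_dvd (by omega) h1
        omega
      have hw0m1 : -w0 ≠ 1 := by
        intro h
        have h1 : ((2 + 2 * q : ℕ) : ZMod f) = 0 := by
          have h2 := congrArg (fun u : (ZMod f)ˣ => (u : ZMod f)) h
          simp only [Units.val_neg, hw0v, Units.val_one] at h2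
          push_cast at h2 ⊢
          linear_combination -h2
        rw [ZMod.natCast_eq_zero_iff] at h1
        have := Nat.le_of_dvd (by omega) h1
        omega
      have hcop : (1 + 2 * q).Coprime f := by
        have h1 := ZMod.val_coe_unit_coprime w0
        have h2 : (w0 : ZMod f).val = 1 + 2 * q := by
          rw [hw0v, ZMod.val_natCast_of_lt (by omega)]
        rwa [h2] at h1
      have hppw0 : pp hζ R w0 = 1 := by
        obtain ⟨σ, hσ⟩ := exists_aut hfpos hζ hcop
        have h1 : hζ.autToPow ℚ σ = w0 := aut_eq hζ hw0v.symm hσ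
        have h2 : Fixes R σ := by
          refine Fixes.mono hR4 (fixes_adjoin ?_)
          rw [map_pow, hσ, ← pow_mul, show (1 + 2 * q) * 4 = 4 + f * 2 by rw [hq]; ring, pow_add,
            pow_mul, hζ.pow_eq_one, one_pow, mul_one]
        rw [← h1]
        exact (QuotientGroup.eq_one_iff _).2 ⟨σ, fixes_iff.1 h2, rfl⟩
      have hppm : ∀ w, pp hζ R (w0 * w) = pp hζ R w := by
        intro w
        rw [map_mul, hppw0, one_mul]
      have hjz : ((j : ℕ) : ZMod 2) = 0 := by
        rw [hj, Nat.cast_sum]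
        refine Finset.sum_involution
          (fun w _ => if 2 * v (w0 * w) < f then w0 * w else -(w0 * w)) ?_ ?_ ?_ ?_
        · intro w _
          rw [hvodd, hvodd]
          rfl
        · intro w _ _ h
          split_ifs at h with h1
          · exact hw01 (mul_eq_right.mp h)
          · apply hw0m1
            rw [← neg_mul] at h
            exact mul_eq_right.mp h
        · intro w hw
          rw [hmemUp] at hw ⊢
          split_ifs with h1
          · exact ⟨by rw [hppm]; exact hw.1, h1⟩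
          · refine ⟨by rw [hppneg, hppm]; exact hw.1, ?_⟩
            rw [hvneg]
            have := hvne (w0 * w)
            have := hvlt (w0 * w)
            omega
        · intro w hw
          rw [hmemUp] at hw
          have hlt := hvlt w
          by_cases h1 : 2 * v (w0 * w) < f
          · simp only [h1, if_true]
            rw [← mul_assoc, hw02, one_mul, if_pos hw.2]
          · simp only [h1, if_false]
            rw [mul_neg, ← mul_assoc, hw02, one_mul, neg_neg, hvneg, if_neg (by omega)]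
      have hje : 2 ∣ j := (ZMod.natCast_eq_zero_iff j 2).mp hjz
      obtain ⟨t, ht⟩ := hje
      refine ⟨(ζ⁻¹) ^ t, pow_mem (inv_mem hζm) _, pow_ne_zero _ (inv_ne_zero hζ0), ?_⟩
      rw [ht, ← pow_mul, mul_comm 2 t]
  obtain ⟨μ, hμm, hμ0, hμ⟩ := hmu
  refine ⟨μ * k0, mul_mem hμm hk0m, mul_ne_zero hμ0 hk0ne, ?_⟩
  rcases neg_one_pow_eq_or Qbar Up.card with h | h
  · left
    rw [hfac, h, hμ]; ring
  · right
    rw [hfac, h, hμ]; ring

end Pool.Agent.U131.SR
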