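import Pool.Agent.U27.SR.LD

/-! Package LD of project SR (proof by helper27 in `Pool.Agent.U27.SR.LD`). -/

set_option autoImplicit false

namespace Pool.Agent.U131.SR

theorem t_LD : S_E1 → S_LD := Pool.Agent.U27.SR.t_LD

end Pool.Agent.U131.SR
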