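import Pool.Agent.U131.SR.Stm

/-!
# Project SR, package MU: sums of multiplicative functions over ideals (helper423)
-/

set_option autoImplicit false

namespace Pool.Agent.U131.SR

namespace MUh

open NumberField

section ideals
variable (K : Type) [Field K] [NumberField K]

theorem norm_nat (n : ℕ) : Ideal.absNorm (Ideal.span {(n : 𝓞 K)}) =
    n ^ Module.finrank ℤ (𝓞 K) := by
  rw [Ideal.absNorm_span_singleton]
  have h2 : (n : 𝓞 K) = algebraMap ℤ (𝓞 K) (n : ℤ) := by simp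
  rw [h2, Algebra.norm_algebraMap, Int.natAbs_pow, Int.natAbs_natCast]

theorem coprime_of_norm {I J : Ideal (𝓞 K)} (h : (Ideal.absNorm I).Coprime (Ideal.absNorm J)) :
    IsCoprime I J := by
  rw [Ideal.isCoprime_iff_exists]
  have h1 := Ideal.absNorm_mem I
  have h2 := Ideal.absNorm_mem J
  have h3 : IsCoprime ((Ideal.absNorm I : ℕ) : ℤ) ((Ideal.absNorm J : ℕ) : ℤ) :=
    Nat.isCoprime_iff_coprime.2 h
  obtain ⟨u, v, huv⟩ := h3
  refine ⟨(u : 𝓞 K) * (Ideal.absNorm I : ℕ), Ideal.mul_mem_left _ _ h1,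
    (v : 𝓞 K) * (Ideal.absNorm J : ℕ), Ideal.mul_mem_left _ _ h2, ?_⟩
  have := congrArg (Int.cast : ℤ → 𝓞 K) huv
  push_cast at this
  exact this

theorem mul_inj {a b : ℕ} (hab : a.Coprime b) {I J I' J' : Ideal (𝓞 K)}
    (hI : Ideal.absNorm I = a) (hJ : Ideal.absNorm J = b) (hI' : Ideal.absNorm I' = a)
    (hJ' : Ideal.absNorm J' = b) (h0 : I * J = I' * J') : I = I' ∧ J = J' := by
  have c1 : IsCoprime I J' := coprime_of_norm K (by rw [hI, hJ']; exact hab)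
  have c2 : IsCoprime I' J := coprime_of_norm K (by rw [hI', hJ]; exact hab)
  have d1 : I ∣ I' := c1.dvd_of_dvd_mul_right (h0 ▸ dvd_mul_right I J)
  have d2 : I' ∣ I := c2.dvd_of_dvd_mul_right (h0 ▸ dvd_mul_right I' J')
  have d3 : J ∣ J' := c2.symm.dvd_of_dvd_mul_left (h0 ▸ dvd_mul_left J I)
  have d4 : J' ∣ J := c1.symm.dvd_of_dvd_mul_left (h0 ▸ dvd_mul_left J' I')
  exact ⟨le_antisymm (Ideal.dvd_iff_le.1 d2) (Ideal.dvd_iff_le.1 d1),
    le_antisymm (Ideal.dvd_iff_le.1 d4) (Ideal.dvd_iff_le.1 d3)⟩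

theorem mul_surj {a b : ℕ} (hab : a.Coprime b) {L : Ideal (𝓞 K)}
    (hL : Ideal.absNorm L = a * b) : ∃ I J : Ideal (𝓞 K), Ideal.absNorm I = a ∧
      Ideal.absNorm J = b ∧ I * J = L := by
  set A := Ideal.span {(a : 𝓞 K)} with hA
  set B := Ideal.span {(b : 𝓞 K)} with hB
  have hcop : IsCoprime A B := by
    apply coprime_of_norm K
    rw [norm_nat, norm_nat]
    exact Nat.Coprime.pow _ _ hab
  have hmem : (a : 𝓞 K) * b ∈ L := by
    have := Ideal.absNorm_mem L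
    rw [hL] at this
    exact_mod_cast this
  have hprod : (L ⊔ A) * (L ⊔ B) = L := by
    apply le_antisymm
    · rw [Ideal.sup_mul, Ideal.mul_sup, Ideal.mul_sup]
      refine sup_le (sup_le Ideal.mul_le_left Ideal.mul_le_left)
        (sup_le Ideal.mul_le_right ?_)
      rw [hA, hB, Ideal.span_singleton_mul_span_singleton, Ideal.span_singleton_le_iff_mem]
      exact hmem
    · intro x hx
      obtain ⟨i, hi, j, hj, hij⟩ := Ideal.isCoprime_iff_exists.1 hcop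
      have h1 : i * x ∈ (L ⊔ A) * (L ⊔ B) :=
        Ideal.mul_mem_mul (Ideal.mem_sup_right hi) (Ideal.mem_sup_left hx)
      have h2 : x * j ∈ (L ⊔ A) * (L ⊔ B) :=
        Ideal.mul_mem_mul (Ideal.mem_sup_left hx) (Ideal.mem_sup_right hj)
      have h3 : x = i * x + x * j := by
        rw [mul_comm x j, ← add_mul, hij, one_mul]
      rw [h3]
      exact Ideal.add_mem _ h1 h2
  have hn : Ideal.absNorm (L ⊔ A) * Ideal.absNorm (L ⊔ B) = a * b := by
    rw [← map_mul, hprod, hL]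
  have g1 : Ideal.absNorm (L ⊔ A) ∣ a ^ Module.finrank ℤ (𝓞 K) := by
    rw [← norm_nat]
    exact Ideal.absNorm_dvd_absNorm_of_le le_sup_right
  have g2 : Ideal.absNorm (L ⊔ B) ∣ b ^ Module.finrank ℤ (𝓞 K) := by
    rw [← norm_nat]
    exact Ideal.absNorm_dvd_absNorm_of_le le_sup_right
  have k1 : (Ideal.absNorm (L ⊔ A)).Coprime b :=
    Nat.Coprime.coprime_dvd_left g1 (Nat.Coprime.pow_left _ hab)
  have k2 : (Ideal.absNorm (L ⊔ B)).Coprime a :=
    Nat.Coprime.coprime_dvd_left g2 (Nat.Coprime.pow_left _ hab.symm)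
  have l1 : Ideal.absNorm (L ⊔ A) ∣ a :=
    k1.dvd_of_dvd_mul_right (hn ▸ dvd_mul_right _ _)
  have l2 : Ideal.absNorm (L ⊔ B) ∣ b :=
    k2.dvd_of_dvd_mul_left (hn ▸ dvd_mul_left _ _)
  have m1 : a ∣ Ideal.absNorm (L ⊔ A) :=
    k2.symm.dvd_of_dvd_mul_right (hn ▸ dvd_mul_right a b)
  have m2 : b ∣ Ideal.absNorm (L ⊔ B) :=
    k1.symm.dvd_of_dvd_mul_left (hn ▸ dvd_mul_left b a)
  exact ⟨L ⊔ A, L ⊔ B, Nat.dvd_antisymm l1 m1, Nat.dvd_antisymm l2 m2, hprod⟩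

theorem dvd_pow_of_norm {p e : ℕ} {I : Ideal (𝓞 K)} (hI : Ideal.absNorm I = p ^ e) :
    I ∣ Ideal.span {(p : 𝓞 K)} ^ e := by
  rw [Ideal.dvd_iff_le, Ideal.span_singleton_pow, Ideal.span_singleton_le_iff_mem]
  have := Ideal.absNorm_mem I
  rw [hI] at this
  exact_mod_cast this

theorem ne_bot_of_norm {p : ℕ} (hp : p.Prime) {P : Ideal (𝓞 K)} (h : Ideal.absNorm P = p) :
    P ≠ ⊥ := by
  rintro rfl
  rw [Ideal.absNorm_bot] at h
  exact hp.ne_zero h.symm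

theorem eq_pow_of_dvd {P I : Ideal (𝓞 K)} (hP : Prime P) {k : ℕ} (h : I ∣ P ^ k) :
    ∃ i ≤ k, I = P ^ i := by
  obtain ⟨i, hi, ha⟩ := (dvd_prime_pow hP k).1 h
  exact ⟨i, hi, associated_iff_eq.1 ha⟩

theorem split_set {p : ℕ} (hp : p.Prime) (e : ℕ) {P P' : Ideal (𝓞 K)} (hne : P ≠ P')
    (hP : P.IsPrime) (hP' : P'.IsPrime) (h1 : Ideal.absNorm P = p) (h2 : Ideal.absNorm P' = p)
    (h3 : P * P' = Ideal.span {(p : 𝓞 K)}) :
    (∀ i j : ℕ, P ^ i * P' ^ (e - i) = P ^ j * P' ^ (e - j) → i ≤ j) ∧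
    (∀ i ≤ e, Ideal.absNorm (P ^ i * P' ^ (e - i)) = p ^ e) ∧
    ∀ I : Ideal (𝓞 K), Ideal.absNorm I = p ^ e → ∃ i ≤ e, I = P ^ i * P' ^ (e - i) := by
  have b1 := ne_bot_of_norm K hp h1
  have b2 := ne_bot_of_norm K hp h2
  have q1 : Prime P := Ideal.prime_of_isPrime b1 hP
  have q2 : Prime P' := Ideal.prime_of_isPrime b2 hP'
  have : P.IsMaximal := hP.isMaximal b1
  have : P'.IsMaximal := hP'.isMaximal b2
  have hc : IsCoprime P P' := Ideal.isCoprime_of_isMaximal hne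
  refine ⟨fun i j h => ?_, fun i hi => ?_, fun I hI => ?_⟩
  · have d1 : P ^ i ∣ P ^ j * P' ^ (e - j) := h ▸ dvd_mul_right _ _
    have d2 : P ^ i ∣ P ^ j := (hc.pow).dvd_of_dvd_mul_right d1
    have d3 := Ideal.absNorm_dvd_absNorm_of_le (Ideal.dvd_iff_le.1 d2)
    rw [map_pow, map_pow, h1] at d3
    exact (Nat.pow_dvd_pow_iff_le_right hp.one_lt).1 d3
  · rw [map_mul, map_pow, map_pow, h1, h2, ← pow_add]
    congr 1
    omega
  · have d := dvd_pow_of_norm K hI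
    rw [← h3, mul_pow] at d
    obtain ⟨A, B, hA, hB, rfl⟩ := exists_dvd_and_dvd_of_dvd_mul d
    obtain ⟨i, hi, rfl⟩ := eq_pow_of_dvd K q1 hA
    obtain ⟨j, hj, rfl⟩ := eq_pow_of_dvd K q2 hB
    rw [map_mul, map_pow, map_pow, h1, h2, ← pow_add] at hI
    have hij := Nat.pow_right_injective hp.two_le hI
    refine ⟨i, by omega, ?_⟩
    congr 2
    omega

theorem inert_set {p : ℕ} (hp : p.Prime) (e : ℕ) (h2 : Module.finrank ℤ (𝓞 K) = 2)
    (hP : (Ideal.span {(p : 𝓞 K)}).IsPrime) (I : Ideal (𝓞 K)) :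
    Ideal.absNorm I = p ^ e ↔ ∃ i, I = Ideal.span {(p : 𝓞 K)} ^ i ∧ 2 * i = e := by
  have h1 : Ideal.absNorm (Ideal.span {(p : 𝓞 K)}) = p ^ 2 := by rw [norm_nat, h2]
  have b1 : Ideal.span {(p : 𝓞 K)} ≠ ⊥ := by
    intro h
    rw [h, Ideal.absNorm_bot] at h1
    exact (pow_pos hp.pos 2).ne h1
  have q1 := Ideal.prime_of_isPrime b1 hP
  constructor
  · intro hI
    obtain ⟨i, -, rfl⟩ := eq_pow_of_dvd K q1 (dvd_pow_of_norm K hI)
    rw [map_pow, h1, ← pow_mul] at hI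
    exact ⟨i, rfl, Nat.pow_right_injective hp.two_le hI⟩
  · rintro ⟨i, rfl, rfl⟩
    rw [map_pow, h1, ← pow_mul]

/-- the sum of `ψ` over the ideals of norm `n` -/
noncomputable def SJ {R : Type} [CommRing R] (ψ : Ideal (𝓞 K) → R) (n : ℕ) : R :=
  ∑ᶠ 𝔟 ∈ {𝔟 : Ideal (𝓞 K) | Ideal.absNorm 𝔟 = n}, ψ 𝔟

theorem main {R : Type} [CommRing R] (f : ℕ) (ψ : Ideal (𝓞 K) → R)
    (h2 : Module.finrank ℤ (𝓞 K) = 2) (hf : 2 ≤ f) (hψ1 : ψ ⊤ = 1)
    (hψ : ∀ 𝔟 𝔠 : Ideal (𝓞 K), IsCoprime 𝔟 (Ideal.span {(f : 𝓞 K)}) →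
      IsCoprime 𝔠 (Ideal.span {(f : 𝓞 K)}) → ψ (𝔟 * 𝔠) = ψ 𝔟 * ψ 𝔠) :
    SJ K ψ 1 = 1 ∧
    (∀ m n : ℕ, m.Coprime f → n.Coprime f → m.Coprime n → SJ K ψ (m * n) = SJ K ψ m * SJ K ψ n) ∧
    (∀ (p e : ℕ) (P₁ P₂ : Ideal (𝓞 K)), p.Prime → ¬ p ∣ f → P₁ ≠ P₂ → P₁.IsPrime → P₂.IsPrime →
      Ideal.absNorm P₁ = p → Ideal.absNorm P₂ = p → P₁ * P₂ = Ideal.span {(p : 𝓞 K)} →
      SJ K ψ (p ^ e) = ∑ i ∈ Finset.range (e + 1), ψ P₁ ^ i * ψ P₂ ^ (e - i)) ∧
    (∀ p e : ℕ, p.Prime → ¬ p ∣ f → (Ideal.span {(p : 𝓞 K)}).IsPrime →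
      SJ K ψ (p ^ e) = if Even e then ψ (Ideal.span {(p : 𝓞 K)}) ^ (e / 2) else 0) := by
  classical
  have hcop : ∀ (n : ℕ) (I : Ideal (𝓞 K)), n.Coprime f → Ideal.absNorm I = n →
      IsCoprime I (Ideal.span {(f : 𝓞 K)}) := by
    intro n I hn hI
    apply coprime_of_norm K
    rw [hI, norm_nat]
    exact hn.pow_right _
  have hpow : ∀ (I : Ideal (𝓞 K)) (i : ℕ), IsCoprime I (Ideal.span {(f : 𝓞 K)}) →
      ψ (I ^ i) = ψ I ^ i := by
    intro I i hI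
    induction i with
    | zero => rw [pow_zero, pow_zero, Ideal.one_eq_top, hψ1]
    | succ i ih => rw [pow_succ, pow_succ, hψ _ _ hI.pow_left hI, ih]
  have hfin : ∀ n : ℕ, n ≠ 0 → {𝔟 : Ideal (𝓞 K) | Ideal.absNorm 𝔟 = n}.Finite :=
    fun n hn => Ideal.finite_setOfPred_absNorm_eq n
  refine ⟨?_, ?_, ?_, ?_⟩
  · unfold SJ
    have hs : {𝔟 : Ideal (𝓞 K) | Ideal.absNorm 𝔟 = 1} = {⊤} := by
      ext I
      rw [Set.mem_ofPred_eq, Ideal.absNorm_eq_one_iff, Set.mem_singleton_iff]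
    rw [hs, finsum_mem_singleton, hψ1]
  · intro m n hm hn hmn
    have hm0 : m ≠ 0 := by
      rintro rfl
      rw [Nat.coprime_zero_left] at hm
      omega
    have hn0 : n ≠ 0 := by
      rintro rfl
      rw [Nat.coprime_zero_left] at hn
      omega
    unfold SJ
    rw [finsum_mem_eq_finite_toFinset_sum _ (hfin (m * n) (mul_ne_zero hm0 hn0)),
      finsum_mem_eq_finite_toFinset_sum _ (hfin m hm0),
      finsum_mem_eq_finite_toFinset_sum _ (hfin n hn0), Finset.sum_mul_sum, ← Finset.sum_product']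
    symm
    refine Finset.sum_bij (fun x _ => x.1 * x.2) ?_ ?_ ?_ ?_
    · rintro ⟨I, J⟩ hx
      simp only [Finset.mem_product, Set.Finite.mem_toFinset, Set.mem_ofPred_eq] at hx ⊢
      rw [map_mul, hx.1, hx.2]
    · rintro ⟨I, J⟩ hx ⟨I', J'⟩ hx' h
      simp only [Finset.mem_product, Set.Finite.mem_toFinset, Set.mem_ofPred_eq] at hx hx' h
      obtain ⟨e1, e2⟩ := mul_inj K hmn hx.1 hx.2 hx'.1 hx'.2 h
      rw [e1, e2]
    · intro L hL
      simp only [Set.Finite.mem_toFinset, Set.mem_ofPred_eq] at hL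
      obtain ⟨I, J, hI, hJ, rfl⟩ := mul_surj K hmn hL
      exact ⟨(I, J), by simp [hI, hJ], rfl⟩
    · rintro ⟨I, J⟩ hx
      simp only [Finset.mem_product, Set.Finite.mem_toFinset, Set.mem_ofPred_eq] at hx
      exact (hψ I J (hcop m I hm hx.1) (hcop n J hn hx.2)).symm
  · intro p e P₁ P₂ hp hpf hne hP₁ hP₂ n1 n2 h3
    have hpc : p.Coprime f := (Nat.Prime.coprime_iff_not_dvd hp).2 hpf
    obtain ⟨s1, s2, s3⟩ := split_set K hp e hne hP₁ hP₂ n1 n2 h3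
    unfold SJ
    rw [finsum_mem_eq_finite_toFinset_sum _ (hfin (p ^ e) (pow_ne_zero e hp.ne_zero))]
    symm
    refine Finset.sum_bij (fun i _ => P₁ ^ i * P₂ ^ (e - i)) ?_ ?_ ?_ ?_
    · intro i hi
      simp only [Set.Finite.mem_toFinset, Set.mem_ofPred_eq]
      exact s2 i (by have := Finset.mem_range.1 hi; omega)
    · intro i _ j _ h
      exact le_antisymm (s1 i j h) (s1 j i h.symm)
    · intro L hL
      simp only [Set.Finite.mem_toFinset, Set.mem_ofPred_eq] at hL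
      obtain ⟨i, hi, rfl⟩ := s3 L hL
      exact ⟨i, Finset.mem_range.2 (by omega), rfl⟩
    · intro i _
      have c1 := hcop p P₁ hpc n1
      have c2 := hcop p P₂ hpc n2
      rw [hψ _ _ c1.pow_left c2.pow_left, hpow _ _ c1, hpow _ _ c2]
  · intro p e hp hpf hP
    have hpc : p.Coprime f := (Nat.Prime.coprime_iff_not_dvd hp).2 hpf
    have hs := inert_set K hp e h2 hP
    unfold SJ
    split_ifs with he
    · obtain ⟨k, hk⟩ := he
      have hset : {𝔟 : Ideal (𝓞 K) | Ideal.absNorm 𝔟 = p ^ e} =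
          {Ideal.span {(p : 𝓞 K)} ^ k} := by
        ext I
        rw [Set.mem_ofPred_eq, hs, Set.mem_singleton_iff]
        constructor
        · rintro ⟨i, rfl, hi⟩
          have : i = k := by omega
          rw [this]
        · intro h
          exact ⟨k, h, by omega⟩
      rw [hset, finsum_mem_singleton, hpow]
      · congr 1
        omega
      · apply hcop (p ^ 2) _ (hpc.pow_left 2)
        rw [norm_nat, h2]
    · have hset : {𝔟 : Ideal (𝓞 K) | Ideal.absNorm 𝔟 = p ^ e} = ∅ := by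
        ext I
        rw [Set.mem_ofPred_eq, hs]
        simp only [Set.mem_empty_iff_false, iff_false]
        rintro ⟨i, -, hi⟩
        exact he ⟨i, by omega⟩
      rw [hset, finsum_mem_empty]

end ideals

end MUh

open NumberField Module

theorem t_MU : S_MU := by
  intro K _ R _ f ψ hK hf h1 h2
  have h0 : Module.finrank ℤ (𝓞 K) = 2 := by rw [RingOfIntegers.rank, hK]
  exact MUh.main K f ψ h0 hf h1 h2

end Pool.Agent.U131.SR
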