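import Pool.Agent.U131.SR.Stm
import Pool.Agent.K4H33.SK.Prime

/-! Project SR, package PR: more primes in the modulus (after `Pool.Agent.K4H33.SK.Final`). -/

set_option autoImplicit false
set_option linter.style.haveILetI false

namespace Pool.Agent.U131.SR
open NumberField Module IntermediateField Pool.Agent.K4H33.SK
open Pool.Agent.K4H33.SK.Stmt (Sub)

namespace PR

lemma pos_div {ι : Qbar →+* ℂ} {x y : Qbar} (hx : Pos ι x) (hy : Pos ι y) : Pos ι (x / y) := by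
  obtain ⟨hx1, hx2⟩ := hx
  obtain ⟨hy1, hy2⟩ := hy
  have e1 : ι x = (((ι x).re : ℝ) : ℂ) := Complex.ext (by simp) (by simp [hx1])
  have e2 : ι y = (((ι y).re : ℝ) : ℂ) := Complex.ext (by simp) (by simp [hy1])
  have e3 : ι (x / y) = (((ι x).re / (ι y).re : ℝ) : ℂ) := by
    rw [map_div₀, e1, e2]
    push_cast
    simp
  unfold Pos
  rw [e3, Complex.ofReal_im, Complex.ofReal_re]
  exact ⟨rfl, div_pos hx2 hy2⟩

lemma limit_prime' {ι : Qbar →+* ℂ} {F L M : IntermediateField ℚ Qbar} [NumberField F]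
    {𝔪 𝔤 P : Ideal (𝓞 F)} {art : Ideal (𝓞 F) → GQ} (hart : IsArtin F M 𝔪 art) (hLM : L ≤ M)
    (hc : ∀ 𝔟 : Ideal (𝓞 F), IsCoprime 𝔟 𝔤 → IsCoprime 𝔟 𝔪) (hP : P.IsPrime) (hP0 : P ≠ ⊥)
    (hPg : IsCoprime P 𝔤) {W : ℕ} {Z : GQ → ℂ → ℂ} {ε : Qbar} (hε : ε ≠ 0)
    (h : LimitFormula ι F W (cnt F L 𝔤 art) Z ε)
    (hcomm : ∀ σ : GQ, Fixes F σ → σ ((art P)⁻¹ ε) = (art P)⁻¹ (σ ε)) :
    LimitFormula ι F W (cnt F L (𝔤 * P) art)
      (fun σ s => Z σ s - (Ideal.absNorm P : ℂ) ^ (-s) * Z ((art P)⁻¹ * σ) s)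
      (ε / (art P)⁻¹ ε) := by
  intro σ hσ
  have hρ : Fixes F (art P)⁻¹ := Fixes.inv (hart.fix P (hc P hPg))
  set ρ : GQ := (art P)⁻¹ with hρdef
  have h1 := h σ hσ
  have h2 := h (ρ * σ) (hρ.mul hσ)
  have hPn : Ideal.absNorm P ≠ 0 := by
    rw [Ne, Ideal.absNorm_eq_zero_iff]
    exact hP0
  have hPn' : (Ideal.absNorm P : ℂ) ≠ 0 := Nat.cast_ne_zero.2 hPn
  have hd : Differentiable ℂ (fun s : ℂ => (Ideal.absNorm P : ℂ) ^ (-s)) :=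
    (differentiable_id.neg).const_cpow (Or.inl hPn')
  refine ⟨⟨?_, ?_⟩, ?_, ?_⟩
  · exact h1.1.1.sub (hd.differentiableOn.mul h2.1.1)
  · intro s hs
    have h3 := (h1.1.2 s hs).sub (hasSum_shift hPn (h2.1.2 s hs))
    refine (LSeriesHasSum_congr s _ (fun {n} _ => ?_)).1 h3
    have h4 := cnt_prime hart hLM hc hP hP0 hPg σ n
    rw [Pi.sub_apply, h4]
    push_cast
    split_ifs <;> ring
  · simp only
    rw [h1.2.1, h2.2.1]
    ring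
  · have hn : ({1}ᶜ : Set ℂ) ∈ nhds (0 : ℂ) := isOpen_compl_singleton.mem_nhds (by simp)
    have d1 := (h1.1.1.differentiableAt hn).hasDerivAt
    have d2 := (h2.1.1.differentiableAt hn).hasDerivAt
    have d3 := (hd 0).hasDerivAt
    have h5 := (d1.sub (d3.mul d2)).deriv
    have h6 : deriv (fun s => Z σ s - (Ideal.absNorm P : ℂ) ^ (-s) * Z (ρ * σ) s) 0 =
        deriv (Z σ) 0 - deriv (Z (ρ * σ)) 0 := by
      refine Eq.trans h5 ?_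
      rw [h2.2.1, mul_zero, zero_add, neg_zero, Complex.cpow_zero, one_mul]
    rw [h6]
    have hn1 : ‖ι (σ ε)‖ ^ 2 ≠ 0 := by
      apply pow_ne_zero
      rw [norm_ne_zero_iff, Ne, map_eq_zero]
      simpa using hε
    have hn2 : ‖ι ((ρ * σ) ε)‖ ^ 2 ≠ 0 := by
      apply pow_ne_zero
      rw [norm_ne_zero_iff, Ne, map_eq_zero]
      simpa using hε
    have h7 : Real.log (‖ι (σ (ε / ρ ε))‖ ^ 2) =
        Real.log (‖ι (σ ε)‖ ^ 2) - Real.log (‖ι ((ρ * σ) ε)‖ ^ 2) := by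
      rw [← Real.log_div hn1 hn2, map_div₀, map_div₀, norm_div, div_pow, hcomm σ hσ]
      rfl
    rw [h7]
    push_cast
    have e1 := h1.2.2
    have e2 := h2.2.2
    rw [e1, e2]
    ring

/-- the form of the limit formula in `LimitFormula`, with `W = 4` -/
lemma log_four {x : ℝ} {d : ℂ} : ((Real.log x : ℝ) : ℂ) = -2 * d ↔
    ((Real.log (x ^ 2) : ℝ) : ℂ) = -((4 : ℕ) : ℂ) * d := by
  rw [Real.log_pow]
  push_cast
  constructor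
  · intro h
    rw [h]
    ring
  · intro h
    have h2 : (2 : ℂ) * ((Real.log x : ℝ) : ℂ) = 2 * (-2 * d) := by
      rw [h]
      ring
    exact mul_left_cancel₀ two_ne_zero h2

lemma starkReal_modulus {ι : Qbar →+* ℂ} {F H : Sub} [NumberField F]
    {𝔤 𝔤' : Ideal (𝓞 F)} {art : Ideal (𝓞 F) → GQ}
    (h : ∀ 𝔟 : Ideal (𝓞 F), IsCoprime 𝔟 𝔤 ↔ IsCoprime 𝔟 𝔤') (hS : StarkReal ι F H 𝔤 art) :
    StarkReal ι F H 𝔤' art := by
  obtain ⟨Z, ε, h1, h2, h3, h4, h5, h6⟩ := hS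
  refine ⟨Z, ε, h1, h2, h3, h4, ?_, h6⟩
  have h7 : cnt F H 𝔤' art = cnt F H 𝔤 art := by
    funext σ n
    exact (cnt_modulus art h σ n).symm
  rw [h7]
  exact h5

lemma starkReal_prime {ι : Qbar →+* ℂ} {F H T : Sub} [NumberField F]
    {𝔪 𝔤 P : Ideal (𝓞 F)} {art : Ideal (𝓞 F) → GQ} (hart : IsArtin F T 𝔪 art) (hLM : H ≤ T)
    (hFH : F ≤ H) (hc : ∀ 𝔟 : Ideal (𝓞 F), IsCoprime 𝔟 𝔤 → IsCoprime 𝔟 𝔪) (hP : P.IsPrime)
    (hP0 : P ≠ ⊥) (hPg : IsCoprime P 𝔤) (hS : StarkReal ι F H 𝔤 art) :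
    StarkReal ι F H (𝔤 * P) art := by
  obtain ⟨Z, ε, h1, h2, h4, h5, h3, h6, h7⟩ := hS
  have hρ : Fixes F (art P)⁻¹ := Fixes.inv (hart.fix P (hc P hPg))
  have hlim : LimitFormula ι F 4 (cnt F H 𝔤 art) Z ε := fun σ hσ =>
    ⟨(h3 σ hσ).1, (h3 σ hσ).2.1, log_four.1 (h3 σ hσ).2.2.1⟩
  have hcomm : ∀ σ : GQ, Fixes F σ → σ ((art P)⁻¹ ε) = (art P)⁻¹ (σ ε) := fun σ hσ =>
    comm_of_root two_pos h7 hσ hρ
  have hl := limit_prime' hart hLM hc hP hP0 hPg h2 hlim hcomm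
  set ρ : GQ := (art P)⁻¹ with hρdef
  have hρ0 : ρ ε ≠ 0 := by simpa using h2
  have hρH : ρ ε ∈ H := by
    apply mem_of_fixed
    intro σ hσ
    rw [hcomm σ (hσ.mono hFH), hσ ε h1]
  refine ⟨_, ε / ρ ε, H.div_mem h1 hρH, div_ne_zero h2 hρ0, ?_, ?_, fun σ hσ => ⟨(hl σ hσ).1,
    (hl σ hσ).2.1, log_four.2 (hl σ hσ).2.2, ?_⟩, ?_, abelianRoot_div two_pos h2 h7 hρ⟩
  · rw [div_eq_mul_inv, ← map_inv₀]
    exact h4.mul (h5.map (ρ : Qbar →+* Qbar).toIntAlgHom)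
  · rw [inv_div, div_eq_mul_inv]
    exact (h4.map (ρ : Qbar →+* Qbar).toIntAlgHom).mul h5
  · rw [map_div₀]
    exact pos_div (h3 σ hσ).2.2.2 (h3 (σ * ρ) (hσ.mul hρ)).2.2.2
  · intro w hw
    have h8 : ‖(w.comp (ρ : Qbar →+* Qbar)) ε‖ = 1 := by
      obtain ⟨x, hx, hne⟩ := hw
      refine h6 _ ⟨x, hx, ?_⟩
      have h9 : (w.comp (ρ : Qbar →+* Qbar)) x = w x := congrArg w (hρ x hx)
      rw [h9]
      exact hne
    have h9 : (w.comp (ρ : Qbar →+* Qbar)) ε = w (ρ ε) := rfl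
    rw [h9] at h8
    rw [map_div₀, norm_div, h6 w hw, h8, div_one]

lemma starkReal_mul {ι : Qbar →+* ℂ} {F H T : Sub} [NumberField F]
    {𝔪 : Ideal (𝓞 F)} {art : Ideal (𝓞 F) → GQ} (hart : IsArtin F T 𝔪 art) (hLM : H ≤ T)
    (hFH : F ≤ H) (hS : StarkReal ι F H 𝔪 art) (𝔟 : Ideal (𝓞 F)) :
    𝔟 ≠ 0 → StarkReal ι F H (𝔪 * 𝔟) art := by
  induction 𝔟 using UniqueFactorizationMonoid.induction_on_prime with
  | h₁ => exact fun h => absurd rfl h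
  | h₂ 𝔟 hu =>
    intro _
    have h1 : 𝔟 = 1 := by
      rw [Ideal.isUnit_iff] at hu
      rw [hu, Ideal.one_eq_top]
    rw [h1, mul_one]
    exact hS
  | h₃ 𝔟 P h0 hp ih =>
    intro _
    have ih := ih h0
    have hP : P.IsPrime := Ideal.isPrime_of_prime hp
    have hP0 : P ≠ ⊥ := hp.ne_zero
    have e : 𝔪 * (P * 𝔟) = 𝔪 * 𝔟 * P := by rw [mul_comm P, mul_assoc]
    rw [e]
    by_cases hPg : IsCoprime P (𝔪 * 𝔟)
    · exact starkReal_prime hart hLM hFH (fun 𝔠 h => (IsCoprime.mul_right_iff.1 h).1) hP hP0 hPg ih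
    · refine starkReal_modulus (fun 𝔠 => ?_) ih
      rw [IsCoprime.mul_right_iff (x := 𝔠) (y := 𝔪 * 𝔟) (z := P)]
      refine ⟨fun h => ⟨h, ?_⟩, fun h => h.1⟩
      rw [isCoprime_comm, isCoprime_prime_iff hP hP0, not_not] at hPg
      rw [Ideal.isCoprime_iff_exists] at h ⊢
      obtain ⟨i, hi, j, hj, hij⟩ := h
      exact ⟨i, hi, j, hPg hj, hij⟩

end PR

open PR in
/-- PR: more primes in the modulus -/
theorem t_PR : S_PR := by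
  intro ι F H T _ f art _ hFH hHT hart hS 𝔣 h𝔣0 h𝔣
  have h2 := starkReal_mul hart hHT hFH hS 𝔣 h𝔣0
  refine starkReal_modulus (fun 𝔟 => ?_) h2
  rw [IsCoprime.mul_right_iff]
  refine ⟨fun h => h.2, fun h => ⟨?_, h⟩⟩
  rw [Ideal.isCoprime_iff_sup_eq]
  by_contra hne
  obtain ⟨P, hP, hle⟩ := Ideal.exists_le_maximal _ hne
  have hf' : (f : 𝓞 F) ∈ P := hle ((le_sup_right : _ ≤ 𝔟 ⊔ Ideal.span {(f : 𝓞 F)})
    (Ideal.mem_span_singleton_self _))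
  apply hP.ne_top
  rw [Ideal.eq_top_iff_one]
  obtain ⟨i, hi, j, hj, hij⟩ := Ideal.isCoprime_iff_exists.1 h
  rw [← hij]
  exact P.add_mem (hle ((le_sup_left : 𝔟 ≤ 𝔟 ⊔ _) hi)) (h𝔣 P hP.isPrime hf' hj)

end Pool.Agent.U131.SR
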