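import Pool.Agent.U131.SR.Stm

set_option autoImplicit false

/-! Project SR, package RG: square roots of the products `pE` (helper678). -/

namespace Pool.Agent.U131.SR
open NumberField Module IntermediateField Pool.Agent.K4H33.SK
open Pool.Agent.K4H33.SK.Stmt (Sub)

namespace RG

section

variable {f : ℕ} [NeZero f] {ζ : Qbar} (hζ : IsPrimitiveRoot ζ f)

lemma aut_surj (u : (ZMod f)ˣ) : ∃ s : GQ, hζ.autToPow ℚ s = u := by
  have hf : 0 < f := Nat.pos_of_ne_zero (NeZero.ne f)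
  set n := (u : ZMod f).val with hn
  have hcop : n.Coprime f := ZMod.val_coe_unit_coprime u
  have h1 : IsPrimitiveRoot (ζ ^ n) f := hζ.pow_of_coprime n hcop
  have h2 : minpoly ℚ (ζ ^ n) = minpoly ℚ ζ := by
    rw [← Polynomial.cyclotomic_eq_minpoly_rat hζ hf, ← Polynomial.cyclotomic_eq_minpoly_rat h1 hf]
  have h3 : IsConjRoot ℚ (ζ ^ n) ζ := h2
  obtain ⟨σ, hσ⟩ := isConjRoot_iff_exists_algEquiv.1 h3
  exact ⟨σ, aut_eq hζ (n := n) (by rw [hn, ZMod.natCast_zmod_val]) hσ⟩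

/-- `θ(u)` -/
noncomputable def th (f : ℕ) [NeZero f] (u : (ZMod f)ˣ) : ℚ :=
  (1 / 2 : ℚ) - (((u : ZMod f).val : ℕ) : ℚ) / f

lemma YY_eq (n : ℕ) (hn : Odd n) (v u : (ZMod f)ˣ) (hv : (n : ZMod f) = v) :
    (YY f n u : ℚ) = th f (v * u) - n * th f u := by
  obtain ⟨t, ht⟩ := val_mul_int n v u hv
  obtain ⟨r, hr⟩ := hn
  have h1 : ((1 / 2 : ℚ) - ((((n : ZMod f) * (u : ZMod f)).val : ℕ) : ℚ) / f) -
      n * ((1 / 2 : ℚ) - (((u : ZMod f).val : ℕ) : ℚ) / f) = th f (v * u) - n * th f u := by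
    rw [hv, ← Units.val_mul]
    rfl
  have h2 : th f (v * u) - n * th f u = ((t - r : ℤ) : ℚ) := by
    unfold th
    rw [ht, hr]
    push_cast
    ring
  rw [YY, h1, h2, Int.floor_intCast]

lemma theta_th {M : Sub} (x : QQ hζ M) : open Classical in
    theta (pp hζ M) x = ∑ u : (ZMod f)ˣ, if pp hζ M u = x then th f u else 0 := rfl

lemma act_eR {R : Sub} (σ : GQ) (x : QQ hζ R) :
    σ (eR hζ R x) = eR hζ R (qq hζ R σ * x) := by
  classical
  set a := hζ.autToPow ℚ σ with ha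
  have hσ : σ ζ = ζ ^ (a : ZMod f).val := (hζ.autToPow_spec ℚ σ).symm
  unfold eR
  rw [map_prod]
  refine Fintype.prod_equiv (Equiv.mulLeft a) _ _ fun w => ?_
  have h1 : pp hζ R ((Equiv.mulLeft a) w) = qq hζ R σ * x ↔ pp hζ R w = x := by
    rw [Equiv.coe_mulLeft, map_mul, qq_apply, mul_right_inj]
  by_cases h : pp hζ R w = x
  · have h2 : ∀ j : ℕ, ζ ^ (j % f) = ζ ^ j := by
      intro j
      have h3 := pow_mod_orderOf ζ j
      rwa [← hζ.eq_orderOf] at h3
    rw [if_pos h, if_pos (h1.2 h), map_sub, map_one, map_pow, hσ, ← pow_mul, Equiv.coe_mulLeft,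
      Units.val_mul, ZMod.val_mul, h2]
  · rw [if_neg h, if_neg (fun h2 => h (h1.1 h2)), map_one]

end

end RG

open RG in
theorem t_RG : S_RG := by
  classical
  intro f _ ζ hζ M R κ hf hκ hκ0 hE
  obtain ⟨ε, hε, hκ2⟩ : ∃ ε : Qbar, (ε = 1 ∨ ε = -1) ∧ κ ^ 2 = ε * eR hζ R 1 := by
    rcases hE with h | h
    · exact ⟨1, Or.inl rfl, by rw [h, one_mul]⟩
    · exact ⟨-1, Or.inr rfl, by rw [h, neg_one_mul, neg_neg]⟩
  have hε2 : ε ^ 2 = 1 := by
    rcases hε with h | h <;> rw [h] <;> norm_num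
  have hε0 : ε ≠ 0 := by
    rcases hε with h | h <;> rw [h] <;> norm_num
  have hεσ : ∀ σ : GQ, σ ε = ε := by
    intro σ
    rcases hε with h | h <;> rw [h] <;> simp
  choose s hs using aut_surj hζ
  set k : (ZMod f)ˣ → Qbar := fun u => (s u)⁻¹ κ with hk
  have hk0 : ∀ u, k u ≠ 0 := by
    intro u
    rw [hk]
    simpa using hκ0
  have hk2 : ∀ u, k u ^ 2 = ε * eR hζ R (pp hζ R u)⁻¹ := by
    intro u
    have h1 : k u ^ 2 = (s u)⁻¹ (κ ^ 2) := (map_pow _ _ _).symm
    rw [h1, hκ2, map_mul, hεσ, act_eR, mul_one, map_inv, qq_apply, hs]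
  have hact : ∀ (h : GQ) (u : (ZMod f)ˣ), h (k (u * hζ.autToPow ℚ h)) = k u := by
    intro h u
    set b := hζ.autToPow ℚ h with hb
    have h1 : (h * (s (u * b))⁻¹) ζ = ((s u)⁻¹ : GQ) ζ := by
      rw [← hζ.autToPow_spec ℚ, ← hζ.autToPow_spec ℚ, map_mul, map_inv, map_inv, hs, hs, ← hb]
      congr 3
      rw [mul_inv, mul_comm u⁻¹, mul_inv_cancel_left]
    exact agree_adjoin h1 κ hκ
  set r : ℕ → Qbar := fun n => ∏ u : (ZMod f)ˣ, if pp hζ M u = 1 then k u ^ YY f n u else 1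
    with hr
  -- the action on `r`
  have hract : ∀ (h : GQ) (n : ℕ), Fixes M h → h (r n) =
      ∏ u : (ZMod f)ˣ, if pp hζ M u = 1 then k u ^ YY f n (u * hζ.autToPow ℚ h) else 1 := by
    intro h n hh
    have hb : pp hζ M (hζ.autToPow ℚ h) = 1 :=
      (QuotientGroup.eq_one_iff _).2 ⟨h, fixes_iff.1 hh, rfl⟩
    rw [hr]
    change h (∏ u : (ZMod f)ˣ, if pp hζ M u = 1 then k u ^ YY f n u else 1) = _
    rw [← Equiv.prod_comp (Equiv.mulRight (hζ.autToPow ℚ h)), map_prod]
    refine Finset.prod_congr rfl fun u _ => ?_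
    rw [Equiv.coe_mulRight, map_mul, hb, mul_one]
    split_ifs with h1
    · rw [map_zpow₀, hact]
    · exact map_one _
  refine ⟨r, ?_, ?_⟩
  · intro n v hn hv hv1 ht
    obtain ⟨t, ht⟩ := ht
    have hS : (∑ u : (ZMod f)ˣ, if pp hζ M u = 1 then YY f n u else 0) = 2 * t := by
      have h1 : (((∑ u : (ZMod f)ˣ, if pp hζ M u = 1 then YY f n u else 0 : ℤ)) : ℚ) =
          ((2 * t : ℤ) : ℚ) := by
        push_cast
        rw [← ht]
        have h2 : theta (pp hζ M) 1 =
            ∑ u : (ZMod f)ˣ, if pp hζ M u = 1 then th f (v * u) else 0 := by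
          rw [theta_th, ← Equiv.sum_comp (Equiv.mulLeft v)]
          refine Finset.sum_congr rfl fun u _ => ?_
          rw [Equiv.coe_mulLeft, map_mul, hv1, one_mul]
        have h3 : (1 - n : ℚ) * theta (pp hζ M) 1 =
            (∑ u : (ZMod f)ˣ, if pp hζ M u = 1 then th f (v * u) else 0) -
            n * ∑ u : (ZMod f)ˣ, if pp hζ M u = 1 then th f u else 0 := by
          rw [← h2, ← theta_th]
          ring
        rw [h3, Finset.mul_sum, ← Finset.sum_sub_distrib]
        refine Finset.sum_congr rfl fun u _ => ?_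
        split_ifs with h4
        · exact YY_eq n hn v u hv
        · simp
      exact_mod_cast h1
    have h5 : (∏ u : (ZMod f)ˣ, if pp hζ M u = 1 then ε ^ YY f n u else 1) = 1 := by
      have h6 : ∀ S : Finset (ZMod f)ˣ, (∏ u ∈ S, if pp hζ M u = 1 then ε ^ YY f n u else 1) =
          ε ^ (∑ u ∈ S, if pp hζ M u = 1 then YY f n u else 0) := by
        intro S
        induction S using Finset.induction_on with
        | empty => simp
        | insert a S ha ih =>
          rw [Finset.prod_insert ha, Finset.sum_insert ha, zpow_add₀ hε0, ih]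
          split_ifs <;> simp
      rw [h6, hS, zpow_mul]
      have h7 : ε ^ (2 : ℤ) = 1 := by exact_mod_cast hε2
      rw [h7, one_zpow]
    change (∏ u : (ZMod f)ˣ, if pp hζ M u = 1 then k u ^ YY f n u else 1) ^ 2 = _
    have h8 : (∏ u : (ZMod f)ˣ, if pp hζ M u = 1 then k u ^ YY f n u else 1) ^ 2 =
        (∏ u : (ZMod f)ˣ, if pp hζ M u = 1 then ε ^ YY f n u else 1) * pE hζ M R n := by
      rw [← Finset.prod_pow, pE, ← Finset.prod_mul_distrib]
      refine Finset.prod_congr rfl fun u _ => ?_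
      split_ifs with h1
      · rw [← mul_zpow, ← hk2, ← zpow_natCast, ← zpow_mul, ← zpow_natCast, ← zpow_mul, mul_comm]
      · simp
    rw [h8, h5, one_mul]
  · intro n m g h hn hm hnf hmf hg hh hgn hhm
    set a := ZMod.unitOfCoprime n hnf with ha
    set b := ZMod.unitOfCoprime m hmf with hb
    have ha1 : (n : ZMod f) = a := (ZMod.coe_unitOfCoprime n hnf).symm
    have hb1 : (m : ZMod f) = b := (ZMod.coe_unitOfCoprime m hmf).symm
    have ha2 : hζ.autToPow ℚ g = a := aut_eq hζ ha1 hgn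
    have hb2 : hζ.autToPow ℚ h = b := aut_eq hζ hb1 hhm
    rw [hract h n hh, hract g m hg, ha2, hb2]
    change _ * (∏ u : (ZMod f)ˣ, if pp hζ M u = 1 then k u ^ YY f m u else 1) ^ n =
      _ * (∏ u : (ZMod f)ˣ, if pp hζ M u = 1 then k u ^ YY f n u else 1) ^ m
    rw [← Finset.prod_pow, ← Finset.prod_pow, ← Finset.prod_mul_distrib,
      ← Finset.prod_mul_distrib]
    refine Finset.prod_congr rfl fun u _ => ?_
    split_ifs with h1
    · rw [← zpow_natCast, ← zpow_mul, ← zpow_add₀ (hk0 u), ← zpow_natCast, ← zpow_mul,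
        ← zpow_add₀ (hk0 u)]
      congr 1
      have h2 : ((YY f n (u * b) + YY f m u * n : ℤ) : ℚ) = ((YY f m (u * a) + YY f n u * m : ℤ) : ℚ) := by
        push_cast
        rw [YY_eq n hn a (u * b) ha1, YY_eq m hm b u hb1, YY_eq m hm b (u * a) hb1,
          YY_eq n hn a u ha1, mul_comm b u, mul_comm a u, mul_comm a (u * b), mul_comm b (u * a),
          mul_right_comm u b a]
        ring
      exact_mod_cast h2
    · simp

end Pool.Agent.U131.SR
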