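import Pool.Agent.U131.SR.Stm

/-! Project SR, package UN: the unit `sU = γ · c γ`, `γ = λ / z⁻¹ λ`. -/

set_option autoImplicit false
set_option linter.style.haveILetI false

namespace Pool.Agent.U131.SR
open NumberField Module IntermediateField Pool.Agent.K4H33.SK
open Pool.Agent.K4H33.SK.Stmt (Sub)

namespace UNAux

section

variable {ι : Qbar →+* ℂ} {F M N H : Sub} {f : ℕ} {ζ : Qbar} {c z : GQ} {W : ℕ}
  {C : GQ → ℕ → ℕ} {Z : GQ → ℂ → ℂ} {ε lam : Qbar}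

lemma z_inv_root (hG : Grp ι F M N H c z) (hW : 0 < W) {ξ : Qbar} (hξ : ξ ^ W = 1) :
    z⁻¹ ξ = ξ := by
  rw [AlgEquiv.aut_inv, AlgEquiv.symm_apply_eq]
  exact (hG.z_root ξ W hW.ne' hξ).symm

lemma z_inv_eq (hG : Grp ι F M N H c z) {x : Qbar} (hx : x ∈ N) : z⁻¹ x = z x := by
  rw [AlgEquiv.aut_inv, AlgEquiv.symm_apply_eq]
  exact (hG.zz x hx).symm

lemma z_z_inv (x : Qbar) : z (z⁻¹ x) = x := by
  rw [← AlgEquiv.mul_apply, mul_inv_cancel, AlgEquiv.one_apply]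

lemma z_inv_z (x : Qbar) : z⁻¹ (z x) = x := by
  rw [← AlgEquiv.mul_apply, inv_mul_cancel, AlgEquiv.one_apply]

lemma lam_ne (hS : Stk ι M N W C Z ε lam) : lam ≠ 0 := by
  rintro rfl
  have h := hS.root
  rw [zero_pow hS.W_pos.ne'] at h
  exact hS.ne h.symm

lemma gam_pow (hS : Stk ι M N W C Z ε lam) : (lam / z⁻¹ lam) ^ W = ε / z⁻¹ ε := by
  rw [div_pow, ← map_pow, hS.root]

lemma gam_ne (hS : Stk ι M N W C Z ε lam) : lam / z⁻¹ lam ≠ 0 := by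
  have h0 := lam_ne hS
  have hal0 : z⁻¹ lam ≠ 0 := by simpa using h0
  exact div_ne_zero h0 hal0

lemma gam_mem (hD : Fld ι F M N H f ζ) (hG : Grp ι F M N H c z)
    (hS : Stk ι M N W C Z ε lam) : lam / z⁻¹ lam ∈ N := by
  have hlam0 := lam_ne hS
  have hzM : Fixes M z⁻¹ := hG.z_M.inv
  apply mem_of_fixed
  intro σ hσ
  have hσM : Fixes M σ := hσ.mono hD.M_le
  set ξ : Qbar := σ lam / lam with hξ
  have hξW : ξ ^ W = 1 := by
    rw [hξ, div_pow, ← map_pow, hS.root, hσ ε hS.mem, div_self hS.ne]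
  have h1 : σ lam = ξ * lam := by rw [hξ, div_mul_cancel₀ _ hlam0]
  have h2 : σ (z⁻¹ lam) = ξ * z⁻¹ lam := by
    rw [hS.ab lam hS.root σ z⁻¹ hσM hzM, h1, map_mul, z_inv_root hG hS.W_pos hξW]
  have hξ0 : ξ ≠ 0 := by
    rintro h
    rw [h, zero_pow hS.W_pos.ne'] at hξW
    exact zero_ne_one hξW
  rw [map_div₀, h1, h2, mul_div_mul_left _ _ hξ0]

lemma gam_int (hG : Grp ι F M N H c z) (hS : Stk ι M N W C Z ε lam) :
    IsIntegral ℤ (lam / z⁻¹ lam) := by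
  refine IsIntegral.of_pow hS.W_pos ?_
  rw [gam_pow hS]
  have h1 : ε / z⁻¹ ε = z⁻¹ (z ε / ε) := by
    rw [map_div₀, z_inv_z]
  rw [h1]
  exact (hS.int z hG.z_M).map ((z⁻¹ : GQ) : Qbar →+* Qbar).toIntAlgHom

lemma gam_int' (hG : Grp ι F M N H c z) (hS : Stk ι M N W C Z ε lam) :
    IsIntegral ℤ (lam / z⁻¹ lam)⁻¹ := by
  refine IsIntegral.of_pow hS.W_pos ?_
  rw [inv_pow, gam_pow hS, inv_div]
  exact hS.int z⁻¹ hG.z_M.inv

lemma map_int (g : GQ) {x : Qbar} (h : IsIntegral ℤ x) : IsIntegral ℤ (g x) :=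
  h.map (g : Qbar →+* Qbar).toIntAlgHom

/-- the image of `x · c x` is a norm -/
lemma iota_norm (hG : Grp ι F M N H c z) (x : Qbar) :
    ι (x * c x) = ((‖ι x‖ ^ 2 : ℝ) : ℂ) := by
  rw [map_mul, hG.conj, Complex.mul_conj, Complex.normSq_eq_norm_sq]

lemma g_sU (hD : Fld ι F M N H f ζ) (hG : Grp ι F M N H c z) (hS : Stk ι M N W C Z ε lam)
    {g : GQ} (hg : Fixes F g) :
    ι (g (sU c z lam)) = ((‖ι (g (lam / z⁻¹ lam))‖ ^ 2 : ℝ) : ℂ) := by
  unfold sU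
  rw [map_mul, hD.ab_F g c hg hG.c_F _ (gam_mem hD hG hS), iota_norm hG]

lemma log_gam (hG : Grp ι F M N H c z) (hS : Stk ι M N W C Z ε lam) {g : GQ}
    (hg : Fixes M g) : (Real.log (‖ι (g (lam / z⁻¹ lam))‖ ^ 2) : ℂ) =
      -(deriv (Z g) 0 - deriv (Z (g * z⁻¹)) 0) := by
  have hzM : Fixes M z⁻¹ := hG.z_M.inv
  have h1 := (hS.lim g hg).2.2
  have h2 := (hS.lim (g * z⁻¹) (hg.mul hzM)).2.2
  have hn1 : ‖ι (g ε)‖ ^ 2 ≠ 0 := by
    apply pow_ne_zero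
    rw [norm_ne_zero_iff, Ne, map_eq_zero]
    simpa using hS.ne
  have hn2 : ‖ι ((g * z⁻¹) ε)‖ ^ 2 ≠ 0 := by
    apply pow_ne_zero
    rw [norm_ne_zero_iff, Ne, map_eq_zero]
    simpa using hS.ne
  have h3 : (W : ℝ) * Real.log (‖ι (g (lam / z⁻¹ lam))‖ ^ 2) =
      Real.log (‖ι (g ε)‖ ^ 2) - Real.log (‖ι ((g * z⁻¹) ε)‖ ^ 2) := by
    rw [← Real.log_pow, ← Real.log_div hn1 hn2, ← pow_mul, mul_comm 2 W, pow_mul, ← norm_pow,
      ← map_pow, ← map_pow, gam_pow hS, map_div₀, map_div₀, norm_div, div_pow]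
    rfl
  have h4 : (W : ℂ) * (Real.log (‖ι (g (lam / z⁻¹ lam))‖ ^ 2) : ℂ) =
      -(W : ℂ) * deriv (Z g) 0 - -(W : ℂ) * deriv (Z (g * z⁻¹)) 0 := by
    rw [← h1, ← h2]
    exact_mod_cast h3
  have hW' : (W : ℂ) ≠ 0 := Nat.cast_ne_zero.2 hS.W_pos.ne'
  apply mul_left_cancel₀ hW'
  rw [h4]
  ring

lemma deriv_z_inv (hG : Grp ι F M N H c z) (hS : Stk ι M N W C Z ε lam) {g : GQ}
    (hg : Fixes M g) : deriv (Z (g * z⁻¹)) 0 = deriv (Z (g * z)) 0 := by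
  refine (isZeta_deriv (hS.lim _ (hg.mul hG.z_M.inv)).1 (hS.lim _ (hg.mul hG.z_M)).1 ?_).1
  intro n _
  have h : ∀ x ∈ N, (g * z⁻¹) x = (g * z) x := by
    intro x hx
    rw [AlgEquiv.mul_apply, AlgEquiv.mul_apply, z_inv_eq hG hx]
  rw [hS.C_congr _ _ h]

/-- `γ · z γ` is a root of unity -/
lemma gam_z_gam (hG : Grp ι F M N H c z) (hS : Stk ι M N W C Z ε lam) :
    (lam / z⁻¹ lam * z (lam / z⁻¹ lam)) ^ W = 1 := by
  have h0 := lam_ne hS
  have h1 : lam / z⁻¹ lam * z (lam / z⁻¹ lam) = z lam / z⁻¹ lam := by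
    rw [map_div₀, z_z_inv]
    field_simp
  have hne : z ε ≠ 0 := by simpa using hS.ne
  rw [h1, div_pow, ← map_pow, ← map_pow, hS.root, z_inv_eq hG hS.mem, div_self hne]

lemma other_place (hD : Fld ι F M N H f ζ) (hG : Grp ι F M N H c z)
    (hS : Stk ι M N W C Z ε lam) {w : Qbar →+* ℂ} (hw : ∃ x ∈ F, w x ≠ ι x) :
    ‖w (sU c z lam)‖ = 1 := by
  obtain ⟨t, ht⟩ := exists_lift ι w
  have htF : ¬ Fixes F t := by
    intro h
    obtain ⟨x, hx, hne⟩ := hw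
    apply hne
    rw [ht, h x hx]
  have hm := gam_mem hD hG hS
  set γ : Qbar := lam / z⁻¹ lam with hγ
  have htγ : t γ ∈ N := normal_mem hD.normal t hm
  have h1 : t (c γ) = c (t (z γ)) := by
    rw [hG.bc t htF γ hm, hG.z_comm c _ htγ, hG.z_comm t γ hm]
  have h2 : w (sU c z lam) = ι (t γ) * (starRingEnd ℂ) (ι (t (z γ))) := by
    unfold sU
    rw [← hγ, ht, map_mul, map_mul, h1, hG.conj]
  have h3 : ‖w (sU c z lam)‖ = ‖ι (t (γ * z γ))‖ := by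
    rw [h2, norm_mul, RCLike.norm_conj, ← norm_mul, ← map_mul, ← map_mul]
  rw [h3]
  refine Complex.norm_eq_one_of_pow_eq_one (n := W) ?_ hS.W_pos.ne'
  rw [← map_pow, ← map_pow, gam_z_gam hG hS, map_one, map_one]

end

end UNAux

open UNAux in
theorem t_UN : S_UN := by
  intro ι F M N H f ζ c z W C Z ε lam hD hG hS
  have hm := gam_mem hD hG hS
  have h0 := gam_ne (z := z) hS
  have hi := gam_int hG hS
  have hi' := gam_int' hG hS
  have hU0 : sU c z lam ≠ 0 := by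
    unfold sU
    refine mul_ne_zero h0 ?_
    simpa using h0
  refine ⟨hm, ?_, hU0, ?_, ?_, fun w hw => other_place hD hG hS hw, ?_, ?_⟩
  · rw [hD.mem_H]
    constructor
    · unfold sU
      exact mul_mem hm (normal_mem hD.normal c hm)
    · have h1 := g_sU hD hG hS (Fixes.one F)
      rw [AlgEquiv.one_apply] at h1
      rw [h1, Complex.ofReal_im]
  · unfold sU
    exact hi.mul (map_int c hi)
  · unfold sU
    rw [mul_inv, ← map_inv₀]
    exact hi'.mul (map_int c hi')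
  · intro g hg
    have h1 := g_sU hD hG hS hg
    unfold Pos
    rw [h1, Complex.ofReal_im, Complex.ofReal_re]
    refine ⟨rfl, ?_⟩
    have h2 : ι (g (lam / z⁻¹ lam)) ≠ 0 := by
      rw [Ne, map_eq_zero]
      simpa using h0
    have h3 : 0 < ‖ι (g (lam / z⁻¹ lam))‖ := norm_pos_iff.2 h2
    positivity
  · intro g hg hgM
    have h1 := g_sU hD hG hS hg
    have h2 : ‖ι (g (sU c z lam))‖ = ‖ι (g (lam / z⁻¹ lam))‖ ^ 2 := by
      rw [h1, Complex.norm_real, Real.norm_of_nonneg (by positivity)]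
    rw [h2, log_gam hG hS hgM, deriv_z_inv hG hS hgM]

end Pool.Agent.U131.SR

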