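import Pool.Agent.U131.SR.Stm

/-! Project SR, package VG: `N_{N/R}(a_g)` is a product of cyclotomic numbers -/

set_option autoImplicit false
set_option linter.style.haveILetI false

namespace Pool.Agent.U131.SR
open NumberField Module IntermediateField Pool.Agent.K4H33.SK
open Pool.Agent.K4H33.SK.Stmt (Sub)

namespace VG

/-- the fixed field of `z` in `N` -/
noncomputable def PF (N : Sub) (z : GQ) : Sub := N ⊓ fixedField (Subgroup.zpowers z)

lemma mem_PF {N : Sub} {z : GQ} {x : Qbar} : x ∈ PF N z ↔ x ∈ N ∧ z x = x := by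
  unfold PF
  rw [IntermediateField.mem_inf, mem_fixedField_iff]
  refine and_congr_right fun _ => ?_
  constructor
  · intro h
    exact h z (Subgroup.mem_zpowers z)
  · intro h σ hσ
    obtain ⟨n, rfl⟩ := Subgroup.mem_zpowers_iff.1 hσ
    have h2 : z ∈ MulAction.stabilizer GQ x := h
    exact zpow_mem h2 n

lemma PF_le_cyc {ι : Qbar →+* ℂ} {F M N H : Sub} {f : ℕ} {ζ : Qbar} {c z : GQ}
    (hF : Fld ι F M N H f ζ) (hG : Grp ι F M N H c z) : PF N z ≤ ℚ⟮ζ⟯ := by
  intro x hx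
  obtain ⟨hx1, hx2⟩ := mem_PF.1 hx
  apply hF.cyc x hx1
  intro σ τ
  rcases hG.comm σ τ with h8 | h8
  · exact h8 x hx1
  · rw [h8 x hx1, hG.z_comm τ _ (normal_mem hF.normal σ hx1), hG.z_comm σ x hx1, hx2]

/-- an automorphism which fixes `PF N z` is `1` or `z` on `N` -/
lemma cover {N : Sub} {z τ : GQ} (zz : ∀ x ∈ N, z (z x) = x) (zN : ∀ x ∈ N, z x ∈ N)
    (h : ∀ x ∈ PF N z, τ x = x) : (∀ x ∈ N, τ x = x) ∨ (∀ x ∈ N, τ x = z x) := by
  have key : ∀ x ∈ N, τ x = x ∨ τ x = z x := by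
    intro x hx
    have h1 : τ (x + z x) = x + z x :=
      h _ (mem_PF.2 ⟨add_mem hx (zN x hx), by rw [map_add, zz x hx, add_comm]⟩)
    have h2 : τ (x * z x) = x * z x :=
      h _ (mem_PF.2 ⟨mul_mem hx (zN x hx), by rw [map_mul, zz x hx, mul_comm]⟩)
    rw [map_add] at h1
    rw [map_mul] at h2
    have h4 : τ (z x) = x + z x - τ x := by linear_combination h1
    rw [h4] at h2
    have h3 : (τ x - x) * (τ x - z x) = 0 := by linear_combination (-1 : Qbar) * h2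
    rcases mul_eq_zero.1 h3 with h5 | h5
    · exact Or.inl (sub_eq_zero.1 h5)
    · exact Or.inr (sub_eq_zero.1 h5)
  by_contra hcon
  rw [not_or] at hcon
  obtain ⟨c1, c2⟩ := hcon
  push Not at c1 c2
  obtain ⟨a, ha, ha'⟩ := c1
  obtain ⟨b, hb, hb'⟩ := c2
  have ea : τ a = z a := (key a ha).resolve_left ha'
  have eb : τ b = b := (key b hb).resolve_right hb'
  rcases key (a + b) (add_mem ha hb) with h1 | h1
  · rw [map_add, eb] at h1
    exact ha' (add_right_cancel h1)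
  · rw [map_add, map_add, ea] at h1
    exact hb' (add_left_cancel h1)

lemma cnt_add {M N : Sub} [NumberField M] (𝔪 : Ideal (𝓞 M)) (art : Ideal (𝓞 M) → GQ) {z : GQ}
    (zz : ∀ x ∈ N, z (z x) = x) (zN : ∀ x ∈ N, z x ∈ N) (zne : ∃ x ∈ N, z x ≠ x) (g : GQ)
    (n : ℕ) : cnt M (PF N z) 𝔪 art g n = cnt M N 𝔪 art g n + cnt M N 𝔪 art (g * z) n := by
  unfold cnt
  set A : Set (Ideal (𝓞 M)) := {𝔟 | Ideal.absNorm 𝔟 = n ∧ IsCoprime 𝔟 𝔪 ∧
    ∀ x ∈ PF N z, art 𝔟 x = g x} with hA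
  set B : Set (Ideal (𝓞 M)) := {𝔟 | Ideal.absNorm 𝔟 = n ∧ IsCoprime 𝔟 𝔪 ∧
    ∀ x ∈ N, art 𝔟 x = g x} with hB
  set C : Set (Ideal (𝓞 M)) := {𝔟 | Ideal.absNorm 𝔟 = n ∧ IsCoprime 𝔟 𝔪 ∧
    ∀ x ∈ N, art 𝔟 x = (g * z) x} with hC
  have hABC : A = B ∪ C := by
    ext 𝔟
    constructor
    · rintro ⟨h1, h2, h3⟩
      have h4 : ∀ x ∈ PF N z, (g⁻¹ * art 𝔟) x = x := agree_iff.1 h3
      rcases cover zz zN h4 with h5 | h5
      · exact Or.inl ⟨h1, h2, agree_iff.2 h5⟩
      · refine Or.inr ⟨h1, h2, fun x hx => ?_⟩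
        rw [AlgEquiv.mul_apply, ← h5 x hx, ← AlgEquiv.mul_apply, mul_inv_cancel_left]
    · rintro (⟨h1, h2, h3⟩ | ⟨h1, h2, h3⟩)
      · exact ⟨h1, h2, fun x hx => h3 x (mem_PF.1 hx).1⟩
      · refine ⟨h1, h2, fun x hx => ?_⟩
        rw [h3 x (mem_PF.1 hx).1, AlgEquiv.mul_apply, (mem_PF.1 hx).2]
  have hdis : Disjoint B C := by
    rw [Set.disjoint_left]
    rintro 𝔟 ⟨_, _, h3⟩ ⟨_, _, h3'⟩
    obtain ⟨x, hx, hx'⟩ := zne
    apply hx'
    apply g.injective
    rw [← AlgEquiv.mul_apply, ← h3' x hx, h3 x hx]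
  have hfin : {I : Ideal (𝓞 M) | Ideal.absNorm I = n}.Finite := Ideal.finite_setOfPred_absNorm_eq n
  have h1 : A.ncard = B.ncard + C.ncard := by
    rw [hABC]
    exact Set.ncard_union_eq hdis (hfin.subset fun _ h => h.1) (hfin.subset fun _ h => h.1)
  exact h1

lemma isZeta_add {a b c : ℕ → ℕ} {Z Z' : ℂ → ℂ} (h1 : IsZeta a Z) (h2 : IsZeta b Z')
    (h : ∀ n, c n = a n + b n) : IsZeta c (fun s => Z s + Z' s) := by
  constructor
  · exact h1.1.add h2.1
  · intro s hs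
    have h4 := (h1.2 s hs).add (h2.2 s hs)
    refine (LSeriesHasSum_congr s _ (fun {n} _ => ?_)).1 h4
    rw [h n]
    push_cast
    rfl

lemma deriv_add_zero {a b : ℕ → ℕ} {Z Z' : ℂ → ℂ} (h1 : IsZeta a Z) (h2 : IsZeta b Z') :
    deriv (fun s => Z s + Z' s) 0 = deriv Z 0 + deriv Z' 0 := by
  have hn : ({1}ᶜ : Set ℂ) ∈ nhds (0 : ℂ) := isOpen_compl_singleton.mem_nhds (by simp)
  exact deriv_fun_add (h1.1.differentiableAt hn) (h2.1.differentiableAt hn)

lemma one_sub_exp (a : ℂ) : (1 : ℂ) - Complex.exp (2 * Real.pi * Complex.I * a) =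
    2 * Complex.sin (Real.pi * a) * Complex.exp (-(Real.pi * Complex.I * (1 / 2 - a))) := by
  have h1 : Complex.exp (-(Real.pi * Complex.I * (1 / 2 - a)))
      = -Complex.I * Complex.exp (Real.pi * a * Complex.I) := by
    rw [← Complex.exp_neg_pi_div_two_mul_I, ← Complex.exp_add]
    congr 1
    ring
  have h2 : Complex.exp (2 * Real.pi * Complex.I * a)
      = Complex.exp (Real.pi * a * Complex.I) * Complex.exp (Real.pi * a * Complex.I) := by
    rw [← Complex.exp_add]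
    congr 1
    ring
  have h3 : Complex.exp (-(Real.pi * a) * Complex.I) * Complex.exp (Real.pi * a * Complex.I)
      = 1 := by
    rw [← Complex.exp_add]
    rw [show -(Real.pi * a) * Complex.I + Real.pi * a * Complex.I = (0 : ℂ) by ring,
      Complex.exp_zero]
  rw [h1, h2, Complex.sin]
  linear_combination (-1 : ℂ) * (h3) + (Complex.exp (-(Real.pi * a) * Complex.I) *
    Complex.exp (Real.pi * a * Complex.I) - Complex.exp (Real.pi * a * Complex.I) *
    Complex.exp (Real.pi * a * Complex.I)) * Complex.I_sq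

lemma iota_eR {ι : Qbar →+* ℂ} {f : ℕ} [NeZero f] {ζ : Qbar} (hζ : IsPrimitiveRoot ζ f)
    (hstd : Std ι f ζ) (hf : 2 ≤ f) (R : Sub) (hR : pp hζ R (-1) = 1) (x : QQ hζ R) :
    ∃ r : ℝ, 0 < r ∧ ι (eR hζ R x) = r := by
  classical
  have hf0 : (0 : ℝ) < f := by exact_mod_cast Nat.pos_of_ne_zero (NeZero.ne f)
  have hth : theta (pp hζ R) x = 0 := by
    have h1 := theta_neg (pp hζ R) hf x
    rw [hR, one_mul] at h1
    linarith
  refine ⟨∏ w : (ZMod f)ˣ, if pp hζ R w = x then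
    2 * Real.sin (Real.pi * ((w : ZMod f).val / f)) else 1, ?_, ?_⟩
  · refine Finset.prod_pos fun w _ => ?_
    split_ifs
    · have h0 : (w : ZMod f) ≠ 0 := by
        intro h0
        have h1 := w.isUnit
        rw [h0] at h1
        have : Fact (1 < f) := ⟨hf⟩
        exact not_isUnit_zero h1
      have hv : 0 < (w : ZMod f).val := Nat.pos_of_ne_zero (by rwa [Ne, ZMod.val_eq_zero])
      have hv' : (0 : ℝ) < (w : ZMod f).val := by exact_mod_cast hv
      have hlt : ((w : ZMod f).val : ℝ) < f := by exact_mod_cast ZMod.val_lt _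
      have h2 : 0 < Real.sin (Real.pi * ((w : ZMod f).val / f)) := by
        apply Real.sin_pos_of_pos_of_lt_pi
        · positivity
        · have : ((w : ZMod f).val : ℝ) / f < 1 := (div_lt_one hf0).2 hlt
          nlinarith [Real.pi_pos]
      positivity
    · norm_num
  · unfold eR
    have h1 : ∀ w : (ZMod f)ˣ, ι (if pp hζ R w = x then 1 - ζ ^ (w : ZMod f).val else 1) =
        ((if pp hζ R w = x then 2 * Real.sin (Real.pi * ((w : ZMod f).val / f)) else 1 : ℝ) : ℂ) *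
        Complex.exp (-(Real.pi * Complex.I) *
          (if pp hζ R w = x then ((1 / 2 : ℂ) - ((w : ZMod f).val : ℂ) / f) else 0)) := by
      intro w
      by_cases hw : pp hζ R w = x
      · rw [if_pos hw, if_pos hw, if_pos hw, map_sub, map_one, map_pow, hstd,
          ← Complex.exp_nat_mul]
        have h2 := one_sub_exp (((w : ZMod f).val : ℂ) / f)
        have h3 : ((w : ZMod f).val : ℂ) * (2 * Real.pi * Complex.I / f)
            = 2 * Real.pi * Complex.I * (((w : ZMod f).val : ℂ) / f) := by ring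
        rw [h3, h2]
        push_cast
        rw [neg_mul]
      · rw [if_neg hw, if_neg hw, if_neg hw]
        simp
    rw [map_prod, Finset.prod_congr rfl (fun w _ => h1 w), Finset.prod_mul_distrib,
      ← Complex.exp_sum, ← Finset.mul_sum]
    have h4 : (∑ w : (ZMod f)ˣ, if pp hζ R w = x then
        ((1 / 2 : ℂ) - ((w : ZMod f).val : ℂ) / f) else 0) = ((theta (pp hζ R) x : ℚ) : ℂ) := by
      unfold theta
      rw [Rat.cast_sum]
      refine Finset.sum_congr rfl fun w _ => ?_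
      split_ifs
      · push_cast
        rfl
      · simp
    rw [h4, hth]
    push_cast
    rw [mul_zero, Complex.exp_zero, mul_one]

lemma YY_eq {f : ℕ} [NeZero f] {n : ℕ} (hodd : Odd n) (v0 : (ZMod f)ˣ) (hv : (n : ZMod f) = v0)
    (u : (ZMod f)ˣ) : (YY f n u : ℝ) =
      (1 / 2 - (((v0 * u : (ZMod f)ˣ) : ZMod f).val : ℝ) / f) -
        n * (1 / 2 - ((u : ZMod f).val : ℝ) / f) := by
  obtain ⟨t, ht⟩ := val_mul_int n v0 u hv
  obtain ⟨r, hr⟩ := hodd
  have h0 : ((n : ZMod f) * (u : ZMod f)).val = ((v0 * u : (ZMod f)ˣ) : ZMod f).val := by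
    rw [Units.val_mul, hv]
  have h1 : ((1 / 2 : ℚ) - ((((n : ZMod f) * (u : ZMod f)).val : ℕ) : ℚ) / f) -
      n * ((1 / 2 : ℚ) - (((u : ZMod f).val : ℕ) : ℚ) / f) = ((t - r : ℤ) : ℚ) := by
    rw [h0, ht, hr]
    push_cast
    ring
  have h2 : YY f n u = t - r := by
    unfold YY
    rw [h1, Int.floor_intCast]
  rw [h2, ← h0]
  have h3 := congrArg (fun q : ℚ => (q : ℝ)) h1
  push_cast at h3 ⊢
  linarith

end VG

open VG in
theorem t_VG : S_AV → S_A2 → S_VG := by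
  intro AV A2 ι F M N H R _ f _ ζ hζ c z T artM W Z ε lam hstd hD hG hR hNT hζT hart hStk g n hgF
    hgM hodd hcop hgζ hgW
  classical
  have hf : 2 ≤ f := hD.two_le
  set P : Sub := PF N z with hP
  have hPN : P ≤ N := fun x hx => (mem_PF.1 hx).1
  have hMP : M ≤ P := fun x hx => mem_PF.2 ⟨hD.M_le hx, hG.z_M x hx⟩
  have hPζ : P ≤ ℚ⟮ζ⟯ := PF_le_cyc hD hG
  have hRP : ∀ x, x ∈ R ↔ x ∈ P ∧ (ι x).im = 0 := by
    intro x
    rw [hR, hP, mem_PF, hD.mem_H]
    tauto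
  have hcR : Fixes R c := by
    intro x hx
    apply ι.injective
    rw [hG.conj]
    exact Complex.conj_eq_iff_im.2 ((hRP x).1 hx).2
  have hpp : pp hζ R (-1) = 1 := by
    rw [← aut_conj hζ hG.conj]
    exact (QuotientGroup.eq_one_iff _).2 ⟨c, fixes_iff.1 hcR, rfl⟩
  set v0 : (ZMod f)ˣ := ZMod.unitOfCoprime n hcop with hv0
  have hv1 : (n : ZMod f) = v0 := (ZMod.coe_unitOfCoprime n hcop).symm
  have hv2 : hζ.autToPow ℚ g = v0 := aut_eq hζ hv1 hgζ
  have hvM : pp hζ M v0 = 1 := by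
    rw [← hv2]
    exact (QuotientGroup.eq_one_iff _).2 ⟨g, fixes_iff.1 hgM, rfl⟩
  have hvR : qq hζ R g = pp hζ R v0 := by rw [qq_apply, hv2]
  have zN : ∀ x ∈ N, z x ∈ N := fun x hx => normal_mem hD.normal z hx
  -- the derivatives
  have hder : ∀ h : GQ, Fixes M h → deriv (Z h) 0 + deriv (Z (h * z)) 0 =
      -((∑ u : (ZMod f)ˣ, if pp hζ M u = 1 then
      (1 / 2 - ((u : ZMod f).val : ℝ) / f) *
        Real.log ‖ι (eR hζ R (qq hζ R h * (pp hζ R u)⁻¹))‖ else 0 : ℝ) : ℂ) := by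
    intro h hh
    have h1 := (hStk.lim h hh).1
    have h2 := (hStk.lim (h * z) (hh.mul hG.z_M)).1
    have h3 := isZeta_add h1 h2 (fun m => cnt_add (pri M f) artM hG.zz zN hG.z_ne h m)
    rw [← deriv_add_zero h1 h2]
    exact A2 ι M P R T f ζ hζ artM hf hstd hD.deg_M hMP hPζ (hPN.trans hNT) hζT hD.imag_M hRP hart
      h hh _ h3
  have hd1 := hder g hgM
  have hd2 := hder 1 (Fixes.one M)
  obtain ⟨-, -, -, hpos, hlog⟩ := AV ι F M N H f ζ c z W (cnt M N (pri M f) artM) Z ε lam hD hG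
    hStk g n hgF hgM hgW
  rw [hd1] at hlog
  rw [one_mul] at hd2
  rw [hd2] at hlog
  choose r hr0 hr using fun x => iota_eR hζ hstd hf R hpp x
  have hnr : ∀ x, ‖ι (eR hζ R x)‖ = r x := by
    intro x
    rw [hr, Complex.norm_real, Real.norm_eq_abs, abs_of_pos (hr0 x)]
  -- the value of `pE`
  set rp : ℝ := ∏ u : (ZMod f)ˣ, if pp hζ M u = 1 then r (pp hζ R u)⁻¹ ^ YY f n u else 1 with hrp
  have hrp0 : 0 < rp := by
    refine Finset.prod_pos fun u _ => ?_
    split_ifs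
    · exact zpow_pos (hr0 _) _
    · exact one_pos
  have hpE : ι (pE hζ M R n) = rp := by
    unfold pE
    rw [map_prod, hrp, Complex.ofReal_prod]
    refine Finset.prod_congr rfl fun u _ => ?_
    split_ifs
    · rw [map_zpow₀, hr, Complex.ofReal_zpow]
    · simp
  have hlogp : Real.log rp = ∑ u : (ZMod f)ˣ, if pp hζ M u = 1 then
      (YY f n u : ℝ) * Real.log (r (pp hζ R u)⁻¹) else 0 := by
    rw [hrp, Real.log_prod]
    · refine Finset.sum_congr rfl fun u _ => ?_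
      split_ifs
      · rw [Real.log_zpow]
      · exact Real.log_one
    · intro u _
      split_ifs
      · exact (zpow_pos (hr0 _) _).ne'
      · exact one_ne_zero
  -- the first sum
  have hs1 : (∑ u : (ZMod f)ˣ, if pp hζ M u = 1 then
      (1 / 2 - ((u : ZMod f).val : ℝ) / f) *
        Real.log ‖ι (eR hζ R (qq hζ R g * (pp hζ R u)⁻¹))‖ else 0) =
      ∑ u : (ZMod f)ˣ, if pp hζ M u = 1 then
        (1 / 2 - (((v0 * u : (ZMod f)ˣ) : ZMod f).val : ℝ) / f) *
        Real.log (r (pp hζ R u)⁻¹) else 0 := by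
    rw [← Equiv.sum_comp (Equiv.mulLeft v0)]
    refine Finset.sum_congr rfl fun u _ => ?_
    have e1 : pp hζ M (v0 * u) = pp hζ M u := by
      rw [map_mul, hvM]
      exact one_mul _
    have e2 : qq hζ R g * (pp hζ R (v0 * u))⁻¹ = (pp hζ R u)⁻¹ := by
      rw [hvR, map_mul, mul_inv, mul_inv_cancel_left]
    by_cases hu : pp hζ M u = 1
    · have hu' : pp hζ M (Equiv.mulLeft v0 u) = 1 := e1.trans hu
      rw [if_pos hu, if_pos hu', Equiv.coe_mulLeft, e2, hnr]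
    · have hu' : ¬ pp hζ M (Equiv.mulLeft v0 u) = 1 := fun h => hu (e1.symm.trans h)
      rw [if_neg hu, if_neg hu']
  have hs2 : (∑ u : (ZMod f)ˣ, if pp hζ M u = 1 then
      (1 / 2 - ((u : ZMod f).val : ℝ) / f) *
        Real.log ‖ι (eR hζ R (qq hζ R 1 * (pp hζ R u)⁻¹))‖ else 0) =
      ∑ u : (ZMod f)ˣ, if pp hζ M u = 1 then
        (1 / 2 - ((u : ZMod f).val : ℝ) / f) *
        Real.log (r (pp hζ R u)⁻¹) else 0 := by
    refine Finset.sum_congr rfl fun u _ => ?_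
    have e2 : qq hζ R 1 * (pp hζ R u)⁻¹ = (pp hζ R u)⁻¹ := by
      rw [map_one]
      exact one_mul _
    rw [e2, hnr]
  rw [hs1, hs2] at hlog
  have hlog2 : Real.log ‖ι (sV c lam g n * z⁻¹ (sV c lam g n))‖ = Real.log rp := by
    have h1 : Real.log ‖ι (sV c lam g n * z⁻¹ (sV c lam g n))‖ =
        (∑ u : (ZMod f)ˣ, if pp hζ M u = 1 then
        (1 / 2 - (((v0 * u : (ZMod f)ˣ) : ZMod f).val : ℝ) / f) *
        Real.log (r (pp hζ R u)⁻¹) else 0) - n * ∑ u : (ZMod f)ˣ, if pp hζ M u = 1 then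
        (1 / 2 - ((u : ZMod f).val : ℝ) / f) *
        Real.log (r (pp hζ R u)⁻¹) else 0 := by
      apply Complex.ofReal_injective
      rw [hlog]
      rw [Complex.ofReal_sub, Complex.ofReal_mul, Complex.ofReal_natCast]
      ring
    rw [h1, hlogp, Finset.mul_sum, ← Finset.sum_sub_distrib]
    refine Finset.sum_congr rfl fun u _ => ?_
    split_ifs
    · rw [YY_eq hodd v0 hv1]
      ring
    · ring
  -- positivity
  obtain ⟨p1, p2⟩ := hpos 1 (Fixes.one F)
  rw [AlgEquiv.one_apply] at p1 p2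
  have hv : ∃ rv : ℝ, 0 < rv ∧ ι (sV c lam g n * z⁻¹ (sV c lam g n)) = rv := by
    refine ⟨(ι (sV c lam g n)).re * (ι (z⁻¹ (sV c lam g n))).re, mul_pos p1.2 p2.2, ?_⟩
    rw [map_mul]
    apply Complex.ext
    · rw [Complex.mul_re, p1.1, zero_mul, sub_zero, Complex.ofReal_re]
    · rw [Complex.mul_im, p1.1, p2.1, mul_zero, zero_mul, add_zero, Complex.ofReal_im]
  obtain ⟨rv, hrv0, hrv⟩ := hv
  rw [hrv, Complex.norm_real, Real.norm_eq_abs, abs_of_pos hrv0] at hlog2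
  have heq : rv = rp := Real.log_injOn_pos hrv0 hrp0 hlog2
  apply ι.injective
  rw [hrv, hpE, heq]

end Pool.Agent.U131.SR
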