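import Pool.Agent.U131.SR.Stm

/-! Project SR, package ZF: the partial zeta functions of `H/F` (helper637). -/

set_option autoImplicit false
set_option linter.style.haveILetI false

namespace Pool.Agent.U131.SR
open NumberField Module IntermediateField Pool.Agent.K4H33.SK
open Pool.Agent.K4H33.SK.Stmt (Sub)

/-- the ideals of norm `n` with symbol `g` on `R` are those with symbol `g` or `g z` on `H` -/
lemma cnt_split {ι : Qbar →+* ℂ} {F M N H : Sub} [NumberField F] {f : ℕ} {ζ : Qbar} {c z : GQ}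
    {T : Sub} {artF : Ideal (𝓞 F) → GQ} (hFld : Fld ι F M N H f ζ) (hG : Grp ι F M N H c z)
    (_hartF : IsArtin F T (pri F f) artF) (R : Sub) (hR : ∀ x, x ∈ R ↔ x ∈ H ∧ z x = x)
    {g : GQ} (_hg : Fixes F g) (n : ℕ) :
    cnt F R (pri F f) artF g n = cnt F H (pri F f) artF g n + cnt F H (pri F f) artF (g * z) n := by
  have hzH : ¬ Fixes H z := by
    intro h
    rcases hG.H_fix z h with h1 | h1
    · obtain ⟨x, hx, hx2⟩ := hG.z_ne
      exact hx2 (h1 x hx)
    · apply hG.c_M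
      intro x hx
      rw [← h1 x (hFld.M_le hx)]
      exact hG.z_M x hx
  unfold cnt
  let A : Sub → GQ → Set (Ideal (𝓞 F)) := fun L τ =>
    {𝔟 | Ideal.absNorm 𝔟 = n ∧ IsCoprime 𝔟 (pri F f) ∧ ∀ x ∈ L, artF 𝔟 x = τ x}
  have hfin : ∀ L τ, (A L τ).Finite := fun L τ =>
    (Ideal.finite_setOfPred_absNorm_eq n).subset fun 𝔟 h => h.1
  have h1 : A R g = A H g ∪ A H (g * z) := by
    ext 𝔟
    constructor
    · rintro ⟨h1, h2, h3⟩
      have h4 := hG.R_fix (g⁻¹ * artF 𝔟) (fun x hx hx2 => by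
        rw [AlgEquiv.mul_apply, h3 x ((hR x).2 ⟨hx, hx2⟩), ← AlgEquiv.mul_apply, inv_mul_cancel]
        rfl)
      have key : ∀ x y : Qbar, (g⁻¹ * artF 𝔟) x = y → artF 𝔟 x = g y := by
        intro x y h
        rw [← h, ← AlgEquiv.mul_apply, mul_inv_cancel_left]
      rcases h4 with h4 | h4
      · exact Or.inl ⟨h1, h2, fun x hx => key x x (h4 x hx)⟩
      · exact Or.inr ⟨h1, h2, fun x hx => key x (z x) (h4 x hx)⟩
    · rintro (⟨h1, h2, h3⟩ | ⟨h1, h2, h3⟩)
      · exact ⟨h1, h2, fun x hx => h3 x ((hR x).1 hx).1⟩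
      · refine ⟨h1, h2, fun x hx => ?_⟩
        rw [h3 x ((hR x).1 hx).1, AlgEquiv.mul_apply, ((hR x).1 hx).2]
  have h2 : Disjoint (A H g) (A H (g * z)) := by
    rw [Set.disjoint_left]
    rintro 𝔟 ⟨-, -, h3⟩ ⟨-, -, h4⟩
    apply hzH
    intro x hx
    have h5 := (h3 x hx).symm.trans (h4 x hx)
    rw [AlgEquiv.mul_apply] at h5
    exact (g.injective h5).symm
  have h3 := Set.ncard_union_eq h2 (hfin _ _) (hfin _ _)
  rw [← h1, ← Nat.card_coe_set_eq, ← Nat.card_coe_set_eq, ← Nat.card_coe_set_eq] at h3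
  exact h3

/-- no ideals prime to `f` of norm not prime to `f` -/
lemma cnt_zero {F L : Sub} [NumberField F] {f : ℕ} {art : Ideal (𝓞 F) → GQ} (g : GQ) {n : ℕ}
    (hn : ¬ n.Coprime f) : cnt F L (pri F f) art g n = 0 := by
  unfold cnt
  rw [Nat.card_eq_zero]
  left
  rw [isEmpty_subtype]
  rintro 𝔟 ⟨h1, h2, -⟩
  apply hn
  rw [← h1]
  exact norm_coprime (le_refl _) h2

theorem t_ZF : S_A1 → S_EV → S_ZF := by
  intro A1 EV ι F M N H _ _ f ζ c z T artF artM Z hfin hFld hG hNT hζT hartF hartM hZ g hgF hgM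
  have hf := hFld.two_le
  haveI : NeZero f := ⟨by omega⟩
  have hζ := hFld.prim
  -- the field `R`
  let R : Sub := H ⊓ fixedField (Subgroup.zpowers z)
  have hR : ∀ x, x ∈ R ↔ x ∈ H ∧ z x = x := by
    intro x
    rw [IntermediateField.mem_inf, mem_fixedField_iff]
    refine and_congr_right fun _ => ?_
    constructor
    · intro h
      exact h z (Subgroup.mem_zpowers z)
    · intro h σ hσ
      obtain ⟨n, rfl⟩ := Subgroup.mem_zpowers_iff.1 hσ
      have h2 : z ∈ MulAction.stabilizer GQ x := h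
      exact zpow_mem h2 n
  have hHN : H ≤ N := fun x hx => ((hFld.mem_H x).1 hx).1
  have hFR : F ≤ R := fun x hx =>
    (hR x).2 ⟨(hFld.mem_H x).2 ⟨hFld.F_le hx, hFld.real_F x hx⟩, hG.z_F x hx⟩
  have hRζ : R ≤ ℚ⟮ζ⟯ := by
    intro x hx
    obtain ⟨hx1, hx2⟩ := (hR x).1 hx
    refine hFld.cyc x (hHN hx1) fun σ τ => ?_
    rcases hG.comm σ τ with h8 | h8
    · exact h8 x (hHN hx1)
    · rw [h8 x (hHN hx1), hG.z_comm τ _ (normal_mem hFld.normal σ (hHN hx1)),
        hG.z_comm σ x (hHN hx1), hx2]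
  have hRT : R ≤ T := fun x hx => hNT (hHN ((hR x).1 hx).1)
  have hpp : pp hζ R (-1) = 1 := by
    have h1 : qq hζ R c = qq hζ R 1 := by
      rw [qq_eq_iff hζ hRζ]
      intro x hx
      exact hG.c_H x ((hR x).1 hx).1
    rw [map_one, qq_apply, aut_conj hζ hG.conj] at h1
    exact h1
  obtain ⟨ER, h1, h2, h3⟩ :=
    EV F R T f ζ hζ artF hf hFld.deg_F hFR hRζ hRT hζT hartF hpp g hgF
  obtain ⟨h4, h5⟩ := hZ g hgM
  obtain ⟨h6, h7⟩ := hZ (g * z) (hgM.mul hG.z_M)
  -- the coefficients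
  have hco : ∀ n : ℕ, 2 * (cnt F H (pri F f) artF g n : ℤ) = cnt F R (pri F f) artF g n +
      cnt M N (pri M f) artM g n - cnt M N (pri M f) artM (g * z) n := by
    intro n
    by_cases hn : n.Coprime f
    · have e1 := A1 ι F M N H f ζ c z T artF artM hfin hFld hG hNT hartF hartM g hgF hgM n hn
      have e2 := cnt_split hFld hG hartF R hR hgF n
      rw [e2]
      push_cast
      linarith
    · rw [cnt_zero g hn, cnt_zero g hn, cnt_zero g hn, cnt_zero (g * z) hn]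
      norm_num
  have hco2 : ∀ n : ℕ, (cnt F H (pri F f) artF g n : ℂ) = (1 / 2 : ℂ) *
      ((cnt F R (pri F f) artF g n : ℂ) + cnt M N (pri M f) artM g n -
        cnt M N (pri M f) artM (g * z) n) := by
    intro n
    have e1 := congrArg (Int.cast : ℤ → ℂ) (hco n)
    push_cast at e1
    rw [← e1]
    ring
  refine ⟨fun s => (1 / 2 : ℂ) * (ER s + Z g s - Z (g * z) s), ⟨?_, ?_⟩, ?_, ?_⟩
  · exact ((h1.1.add h4.1).sub h6.1).const_mul _
  · intro s hs
    have e1 := (((h1.2 s hs).add (h4.2 s hs)).sub (h6.2 s hs)).smul (1 / 2 : ℂ)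
    refine (LSeriesHasSum_congr s _ (fun {n} _ => ?_)).1 e1
    rw [hco2 n]
    rfl
  · change (1 / 2 : ℂ) * (ER 0 + Z g 0 - Z (g * z) 0) = 0
    rw [h2, h5, h7]
    ring
  · have hn : ({1}ᶜ : Set ℂ) ∈ nhds (0 : ℂ) := isOpen_compl_singleton.mem_nhds (by simp)
    have d1 : DifferentiableAt ℂ ER 0 := h1.1.differentiableAt hn
    have d2 : DifferentiableAt ℂ (Z g) 0 := h4.1.differentiableAt hn
    have d3 : DifferentiableAt ℂ (Z (g * z)) 0 := h6.1.differentiableAt hn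
    have h8 : HasDerivAt (fun s => (1 / 2 : ℂ) * (ER s + Z g s - Z (g * z) s))
        ((1 / 2 : ℂ) * (deriv ER 0 + deriv (Z g) 0 - deriv (Z (g * z)) 0)) 0 :=
      ((d1.hasDerivAt.add d2.hasDerivAt).sub d3.hasDerivAt).const_mul _
    rw [h8.deriv, h3]
    ring

end Pool.Agent.U131.SR
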