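import Pool.Agent.U131.SR.Asm0
import Pool.Agent.U131.SR.GR
import Pool.Agent.U131.SR.FX
import Pool.Agent.U131.SR.FR
import Pool.Agent.U131.SR.MU
import Pool.Agent.U131.SR.E1
import Pool.Agent.U131.SR.A1
import Pool.Agent.U131.SR.LD
import Pool.Agent.U131.SR.EV
import Pool.Agent.U131.SR.CYD
import Pool.Agent.U131.SR.A2
import Pool.Agent.U131.SR.ZF
import Pool.Agent.U131.SR.UN
import Pool.Agent.U131.SR.AV
import Pool.Agent.U131.SR.VG
import Pool.Agent.U131.SR.KAP
import Pool.Agent.U131.SR.PAR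
import Pool.Agent.U131.SR.RG
import Pool.Agent.U131.SR.AR
import Pool.Agent.U131.SR.PR

/-! Project SR: the main theorems -/

set_option autoImplicit false

namespace Pool.Agent.U131.SR

theorem t_LD' : S_LD := t_LD (t_E1 t_FR)

theorem t_EV' : S_EV := t_EV t_LD'

theorem t_ZF' : S_ZF := t_ZF (t_A1 t_FR t_MU) t_EV'

theorem t_A2' : S_A2 := t_A2 t_LD' t_CYD

theorem t_VG' : S_VG := t_VG t_AV t_A2'

theorem t_AR' : S_AR := t_AR t_UN t_AV t_VG' t_KAP t_RG t_PAR

theorem main0 : Main0 := assemble0 t_FX t_GR t_ZF' t_UN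

theorem main : Main := assemble t_FX t_GR t_ZF' t_UN t_AR' t_PR

end Pool.Agent.U131.SR
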