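import Pool.Agent.U131.SR.Fin

/-! The statement layer of project SR. -/

set_option autoImplicit false

namespace Pool.Agent.U131.SR.Lay
open NumberField Module IntermediateField
open Pool.Agent.K4H33.SK (Qbar GQ Fixes IsZeta AbelianRoot IsTorsionOrder)
open Pool.Agent.K4H33.SK.Stmt (Sub Ideals nrm Cop prd principal IsArtin cnt StarkImQuad)

/-- `σ x` -/
noncomputable def app (σ : GQ) (x : Qbar) : Qbar := σ x

/-- `w x` -/
noncomputable def val (w : Qbar →+* ℂ) (x : Qbar) : ℂ := w x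

/-- The embedding `w` is real on `H`. -/
def RealOn (w : Qbar →+* ℂ) (H : Sub) : Prop := ∀ x ∈ H, (val w x).im = 0

/-- `w` and `ι` induce different embeddings of `F`. -/
def Differ (ι w : Qbar →+* ℂ) (F : Sub) : Prop := ∃ x ∈ F, val w x ≠ val ι x

/-- `N` contains the conjugates of `H`. -/
def Contains (N H : Sub) : Prop := ∀ σ : GQ, ∀ x ∈ H, app σ x ∈ N

/-- `H` is a Galois extension of `F`. -/
def GaloisOver (F H : Sub) : Prop := ∀ σ : GQ, Fixes F σ → ∀ x ∈ H, app σ x ∈ H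

/-- The automorphisms which fix `F` commute on `H`. -/
def AbelianOver (F H : Sub) : Prop :=
  ∀ σ τ : GQ, Fixes F σ → Fixes F τ → ∀ x ∈ H, app σ (app τ x) = app τ (app σ x)

/-- `x` lies in the maximal abelian extension of `ℚ`. -/
def IsAb (x : Qbar) : Prop := ∀ σ τ : GQ, app σ (app τ x) = app τ (app σ x)

/-- The `f`-th cyclotomic field. -/
noncomputable def Cyclo (f : ℕ) : Sub := IntermediateField.adjoin ℚ {ξ : Qbar | ξ ^ f = 1}

/-- The maximal abelian subfield of `N` is contained in the `f`-th cyclotomic field. -/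
def AbIn (N : Sub) (f : ℕ) : Prop := ∀ x ∈ N, IsAb x → x ∈ Cyclo f

/-- `σ` acts trivially modulo `𝔓` on the integers of `N`. -/
def Inertia (N : Sub) (𝔓 : Ideal (𝓞 Qbar)) (σ : GQ) : Prop :=
  ∀ x y : 𝓞 Qbar, (x : Qbar) ∈ N → (y : Qbar) = app σ x → y - x ∈ 𝔓

/-- All primes ramified in `N` divide `f`: the inertia groups at the primes `𝔓` not containing
`f` act trivially on `N`. -/
def Unramified (N : Sub) (f : ℕ) : Prop :=
  ∀ 𝔓 : Ideal (𝓞 Qbar), 𝔓.IsPrime → (f : 𝓞 Qbar) ∉ 𝔓 → ∀ σ : GQ, Inertia N 𝔓 σ → Fixes N σ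

/-- The fields: `F` is a quadratic field, `H/F` is a finite abelian extension which is real at `ι`
and complex at some place, `N` is the normal closure of `H` over `ℚ`, `M` is an imaginary quadratic
subfield of `N` and `N/M` is abelian; all primes ramified in `N` divide `f`, and the maximal abelian
subfield of `N` is contained in the `f`-th cyclotomic field. -/
structure Fields (ι : Qbar →+* ℂ) (F H M N : Sub) (f : ℕ) : Prop where
  deg_F : finrank ℚ F = 2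
  fin : FiniteDimensional ℚ H
  le : F ≤ H
  galois : GaloisOver F H
  abelian : AbelianOver F H
  real : RealOn ι H
  complex : ∃ w : Qbar →+* ℂ, ¬ RealOn w H
  conj_mem : Contains N H
  minimal : ∀ N' : Sub, Contains N' H → N ≤ N'
  deg_M : finrank ℚ M = 2
  imag : ¬ RealOn ι M
  M_le : M ≤ N
  abelian_M : AbelianOver M N
  unramified : Unramified N f
  two_le : 2 ≤ f
  cyclotomic : AbIn N f

/-- If `f` is even, the maximal abelian subfield of `N` is in the `f / 4`-th cyclotomic field. -/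
def OddOrFour (N : Sub) (f : ℕ) : Prop := Odd f ∨ (4 ∣ f ∧ AbIn N (f / 4))

/-- Some prime divisor `l` of `f` is unramified in the abelian field `M`. -/
def HasUnramified (M : Sub) (f : ℕ) : Prop :=
  ∃ l a f₁ : ℕ, l.Prime ∧ ¬ l ∣ f₁ ∧ 1 ≤ a ∧ f = l ^ a * f₁ ∧ M ≤ Cyclo f₁

/-- The Artin symbols of `F` and `M` for `N` and the `f`-th cyclotomic field. -/
structure Symbols (F M N : Sub) [NumberField F] [NumberField M] (f : ℕ)
    (artF : Ideals F → GQ) (artM : Ideals M → GQ) : Prop where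
  artin_F : IsArtin F (N ⊔ Cyclo f) (principal F f) artF
  artin_M : IsArtin M (N ⊔ Cyclo f) (principal M f) artM

/-- `𝔣` is a nonzero ideal divisible by all primes of `F` dividing `f`. -/
def Over (F : Sub) (f : ℕ) (𝔣 : Ideals F) : Prop :=
  𝔣 ≠ ⊥ ∧ ∀ P : Ideals F, P.IsPrime → (f : 𝓞 F) ∈ P → 𝔣 ≤ P

/-- Stark's theorem for the abelian extension `N` of `M` and the primes dividing `f`; `W` is the
number of roots of unity of `N`. -/
def StarkTheorem (ι : Qbar →+* ℂ) (M N : Sub) [NumberField M] (f : ℕ) (artM : Ideals M → GQ) :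
    Prop := ∃ W : ℕ, IsTorsionOrder N W ∧ StarkImQuad ι M N (principal M f) artM W

/-- `x` is real positive under `ι`. -/
def Positive (ι : Qbar →+* ℂ) (x : Qbar) : Prop := (val ι x).im = 0 ∧ 0 < (val ι x).re

/-- `Z σ` is the partial zeta function of `σ`, and `log |σ ε| = -2 (Z σ)'(0)` for the real place
given by `ι`, where `σ ε` is positive. -/
def LimitReal (ι : Qbar →+* ℂ) (F : Sub) (c : GQ → ℕ → ℕ) (Z : GQ → ℂ → ℂ) (ε : Qbar) : Prop :=
  ∀ σ : GQ, Fixes F σ → IsZeta (c σ) (Z σ) ∧ Z σ 0 = 0 ∧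
    (Real.log ‖val ι (app σ ε)‖ : ℂ) = -2 * deriv (Z σ) 0 ∧ Positive ι (app σ ε)

/-- `ε` is a unit. -/
def IsUnitInt (ε : Qbar) : Prop := IsIntegral ℤ ε ∧ IsIntegral ℤ ε⁻¹

/-- `ε` has absolute value one at the embeddings which differ from `ι` on `F`. -/
def Circle (ι : Qbar →+* ℂ) (F : Sub) (ε : Qbar) : Prop :=
  ∀ w : Qbar →+* ℂ, Differ ι w F → ‖val w ε‖ = 1

/-- Tate's refined rank one abelian Stark conjecture for the abelian extension `H` of the real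
quadratic field `F`, which is real at the place of `F` given by `ι` and complex at the other one,
and the set of places given by `𝔣` and infinity; the number of roots of unity of `H` is `2`. -/
def StarkRQ (ι : Qbar →+* ℂ) (F H : Sub) [NumberField F] (𝔣 : Ideals F) (art : Ideals F → GQ) :
    Prop :=
  ∃ (Z : GQ → ℂ → ℂ) (ε : Qbar), ε ∈ H ∧ ε ≠ 0 ∧ IsUnitInt ε ∧
    LimitReal ι F (cnt F H 𝔣 art) Z ε ∧ Circle ι F ε ∧ AbelianRoot F 2 ε

lemma Fields.down {ι : Qbar →+* ℂ} {F H M N : Sub} {f : ℕ} (h : Fields ι F H M N f) :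
    SR.Fields ι F H M N f where
  deg_F := h.deg_F
  fin := h.fin
  le := h.le
  galois := h.galois
  abelian := h.abelian
  real := h.real
  complex := by
    obtain ⟨w, hw⟩ := h.complex
    unfold RealOn at hw
    push Not at hw
    obtain ⟨x, hx, hx2⟩ := hw
    exact ⟨w, x, hx, hx2⟩
  conj_mem := h.conj_mem
  minimal := h.minimal
  deg_M := h.deg_M
  imag := by
    have hw := h.imag
    unfold RealOn at hw
    push Not at hw
    obtain ⟨x, hx, hx2⟩ := hw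
    exact ⟨x, hx, hx2⟩
  M_le := h.M_le
  abelian_M := h.abelian_M
  unramified := h.unramified
  two_le := h.two_le
  cyclotomic := h.cyclotomic

lemma star_down {ι : Qbar →+* ℂ} {M N : Sub} [NumberField M] {f : ℕ} {artM : Ideals M → GQ}
    {W : ℕ} (h : StarkImQuad ι M N (principal M f) artM W) :
    Pool.Agent.K4H33.SK.StarkImQuad ι M N (pri M f) artM W := h

theorem stark (ι : Qbar →+* ℂ) (F H M N : Sub) [NumberField F] [NumberField M] (f : ℕ)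
    (hF : Fields ι F H M N f) (hf : OddOrFour N f) (hl : HasUnramified M f)
    (artF : Ideals F → GQ) (artM : Ideals M → GQ) (hart : Symbols F M N f artF artM)
    (hS : StarkTheorem ι M N f artM) (𝔣 : Ideals F) (h𝔣 : Over F f 𝔣) :
    StarkRQ ι F H 𝔣 artF := by
  obtain ⟨W, hW, hS⟩ := hS
  obtain ⟨Z, ε, h1, h2, h3, h4, h5, h6, h7⟩ :=
    main ι F H M N f hF.down hf hl artF artM hart.artin_F.down hart.artin_M.down W hW
      (star_down hS) 𝔣 h𝔣.1 h𝔣.2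
  exact ⟨Z, ε, h1, h2, ⟨h3, h4⟩, h5, h6, h7⟩

/-! ### ray classes -/

/-- The element `α` of `F`, as an element of `Qbar`. -/
noncomputable def emb (F : Sub) (α : 𝓞 F) : Qbar := ((α : F) : Qbar)

/-- `α` is prime to `𝔪`. -/
def PrimeTo (F : Sub) (α : 𝓞 F) (𝔪 : Ideals F) : Prop := α ≠ 0 ∧ Cop F (Ideal.span {α}) 𝔪

/-- `α 𝔞 = β 𝔟` -/
def SameProd (F : Sub) (α β : 𝓞 F) (𝔞 𝔟 : Ideals F) : Prop :=
  prd F (Ideal.span {α}) 𝔞 = prd F (Ideal.span {β}) 𝔟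

/-- The integral ideals `𝔞`, `𝔟` of the real quadratic field `F` have the same class in the ray
class group of modulus `𝔪∞₂`, where `∞₁` is the real place given by `ι` and `∞₂` the other one:
`α 𝔞 = β 𝔟` with integers `α`, `β` prime to `𝔪`, `α ≡ β` modulo `𝔪` and `αβ` positive at
`∞₂`. -/
def RayClass (ι : Qbar →+* ℂ) (F : Sub) [NumberField F] (𝔪 𝔞 𝔟 : Ideals F) : Prop :=
  ∃ α β : 𝓞 F, PrimeTo F α 𝔪 ∧ PrimeTo F β 𝔪 ∧ SameProd F α β 𝔞 𝔟 ∧ α - β ∈ 𝔪 ∧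
    ∀ w : Qbar →+* ℂ, Differ ι w F → 0 < (val w (emb F (α * β))).re

/-- The number of integral ideals of norm `n`, prime to `𝔪`, in the ray class of `𝔟`: the
coefficients of the partial zeta function of the class. -/
noncomputable def classCnt (ι : Qbar →+* ℂ) (F : Sub) [NumberField F] (𝔪 𝔟 : Ideals F)
    (n : ℕ) : ℕ :=
  Nat.card {𝔞 : Ideals F // nrm F 𝔞 = n ∧ Cop F 𝔞 𝔪 ∧ RayClass ι F 𝔪 𝔞 𝔟}

/-- `art 𝔞` and `art 𝔟` agree on `H`. -/
def Agree (H : Sub) (σ τ : GQ) : Prop := ∀ x ∈ H, app σ x = app τ x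

/-- `H` is the ray class field of modulus `𝔪∞₂`: two ideals prime to `𝔪` have the same Artin
symbol on `H` if and only if they are in the same ray class. -/
def RayClassField (ι : Qbar →+* ℂ) (F H : Sub) [NumberField F] (𝔪 : Ideals F)
    (art : Ideals F → GQ) : Prop :=
  ∀ 𝔞 𝔟 : Ideals F, Cop F 𝔞 𝔪 → Cop F 𝔟 𝔪 →
    (Agree H (art 𝔞) (art 𝔟) ↔ RayClass ι F 𝔪 𝔞 𝔟)

/-- The value `exp (-2 ζ'(0, 𝔟))` (and `ζ(0, 𝔟) = 0`). -/
def ValueAt (ι : Qbar →+* ℂ) (c : ℕ → ℕ) (ε : Qbar) : Prop :=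
  ∃ Z : ℂ → ℂ, IsZeta c Z ∧ Z 0 = 0 ∧ val ι ε = Complex.exp (-2 * deriv Z 0)

/-- Stark's conjecture for the ray class field `H` of modulus `𝔪∞₂` of `F`: units `ε 𝔟` of `H`,
depending on the class of `𝔟`, equal to `exp (-2 ζ'(0, 𝔟))` under `ι`, permuted by the Artin
symbols and of absolute value one at all places above `∞₂`. -/
def StarkRayUnits (ι : Qbar →+* ℂ) (F H : Sub) [NumberField F] (𝔪 : Ideals F)
    (art : Ideals F → GQ) (ε : Ideals F → Qbar) : Prop :=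
  ∀ 𝔟 : Ideals F, Cop F 𝔟 𝔪 →
    ε 𝔟 ∈ H ∧ IsUnitInt (ε 𝔟) ∧ ValueAt ι (classCnt ι F 𝔪 𝔟) (ε 𝔟) ∧
    (∀ 𝔠 : Ideals F, Cop F 𝔠 𝔪 → app (art 𝔠) (ε 𝔟) = ε (prd F 𝔠 𝔟)) ∧
    (∀ 𝔠 : Ideals F, Cop F 𝔠 𝔪 → RayClass ι F 𝔪 𝔟 𝔠 → ε 𝔟 = ε 𝔠) ∧ Circle ι F (ε 𝔟)

lemma rayClass_iff {ι : Qbar →+* ℂ} {F : Sub} [NumberField F] {𝔪 𝔞 𝔟 : Ideals F} :
    RayClass ι F 𝔪 𝔞 𝔟 ↔ RayEq ι F 𝔪 𝔞 𝔟 := by
  constructor
  · rintro ⟨α, β, ⟨h1, h2⟩, ⟨h3, h4⟩, h5, h6, h7⟩
    exact ⟨α, β, h1, h3, h2, h4, h5, h6, h7⟩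
  · rintro ⟨α, β, h1, h3, h2, h4, h5, h6, h7⟩
    exact ⟨α, β, ⟨h1, h2⟩, ⟨h3, h4⟩, h5, h6, h7⟩

lemma classCnt_eq {ι : Qbar →+* ℂ} {F : Sub} [NumberField F] {𝔪 𝔟 : Ideals F} :
    classCnt ι F 𝔪 𝔟 = rayCnt ι F 𝔪 𝔟 := by
  funext n
  unfold classCnt rayCnt
  refine Nat.card_congr (Equiv.subtypeEquivRight fun 𝔞 => ?_)
  rw [rayClass_iff]

lemma units_of {ι : Qbar →+* ℂ} {F H : Sub} [NumberField F] {𝔪 : Ideals F}
    {art : Ideals F → GQ} {ε : Ideals F → Qbar} (h : StarkRay ι F H 𝔪 art ε) :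
    StarkRayUnits ι F H 𝔪 art ε := by
  intro 𝔟 hb
  obtain ⟨h1, h2, h3, ⟨Z, h4, h5, h6⟩, h7, h8, h9⟩ := h 𝔟 hb
  refine ⟨h1, ⟨h2, h3⟩, ⟨Z, ?_, h5, h6⟩, h7, fun 𝔠 hc hr => h8 𝔠 hc (rayClass_iff.1 hr), h9⟩
  rw [classCnt_eq]
  exact h4

lemma field_down {ι : Qbar →+* ℂ} {F H : Sub} [NumberField F] {𝔪 : Ideals F}
    {art : Ideals F → GQ} (h : RayClassField ι F H 𝔪 art) : IsRayClassField ι F H 𝔪 art :=
  fun 𝔞 𝔟 ha hb => (h 𝔞 𝔟 ha hb).trans rayClass_iff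

lemma artin_mod {F T : Sub} [NumberField F] {f : ℕ} {𝔪 : Ideals F} {art : Ideals F → GQ}
    (h𝔪f : ∀ P : Ideal (𝓞 F), P.IsPrime → (f : 𝓞 F) ∈ P → 𝔪 ≤ P)
    (h : Pool.Agent.K4H33.SK.IsArtin F T (pri F f) art) :
    Pool.Agent.K4H33.SK.IsArtin F T 𝔪 art :=
  ⟨fun 𝔟 hb => h.fix 𝔟 (coprime_over h𝔪f hb),
    fun 𝔟 𝔠 hb hc => h.mul 𝔟 𝔠 (coprime_over h𝔪f hb) (coprime_over h𝔪f hc),
    fun 𝔭 hp hc => h.frob 𝔭 hp (coprime_over h𝔪f hc)⟩

theorem ray (ι : Qbar →+* ℂ) (F H M N : Sub) [NumberField F] [NumberField M] (f : ℕ)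
    (hF : Fields ι F H M N f) (artF : Ideals F → GQ) (artM : Ideals M → GQ)
    (hart : Symbols F M N f artF artM) (hS : StarkTheorem ι M N f artM) (𝔪 : Ideals F)
    (h𝔪 : Over F f 𝔪) (hray : RayClassField ι F H 𝔪 artF) :
    ∃ ε : Ideals F → Qbar, StarkRayUnits ι F H 𝔪 artF ε := by
  obtain ⟨W, hW, hS⟩ := hS
  obtain ⟨Z, ε, h1, -, h3, h4, h5, h6⟩ :=
    main0 ι F H M N f hF.down artF artM hart.artin_F.down hart.artin_M.down W hW
      (star_down hS) 𝔪 h𝔪.1 h𝔪.2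
  have hHN : H ≤ N := fun x hx => hF.conj_mem 1 x hx
  exact ⟨_, units_of (ray0 (artin_mod h𝔪.2 hart.artin_F.down) (hHN.trans le_sup_left) hF.galois
    (field_down hray) h1 h3 h4 h5 h6)⟩

theorem ray_root (ι : Qbar →+* ℂ) (F H M N : Sub) [NumberField F] [NumberField M] (f : ℕ)
    (hF : Fields ι F H M N f) (hf : OddOrFour N f) (hl : HasUnramified M f)
    (artF : Ideals F → GQ) (artM : Ideals M → GQ)
    (hart : Symbols F M N f artF artM) (hS : StarkTheorem ι M N f artM) (𝔪 : Ideals F)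
    (h𝔪 : Over F f 𝔪) (hray : RayClassField ι F H 𝔪 artF) :
    ∃ ε : Ideals F → Qbar, StarkRayUnits ι F H 𝔪 artF ε ∧
      ∀ 𝔟 : Ideals F, Cop F 𝔟 𝔪 → AbelianRoot F 2 (ε 𝔟) := by
  obtain ⟨W, hW, hS⟩ := hS
  obtain ⟨Z, ε, h1, -, h3, h4, h5, h6, h7⟩ :=
    main ι F H M N f hF.down hf hl artF artM hart.artin_F.down hart.artin_M.down W hW
      (star_down hS) 𝔪 h𝔪.1 h𝔪.2
  have hHN : H ≤ N := fun x hx => hF.conj_mem 1 x hx
  exact ⟨_, units_of (ray0 (artin_mod h𝔪.2 hart.artin_F.down) (hHN.trans le_sup_left) hF.galois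
    (field_down hray) h1 h3 h4 h5 h6), fun 𝔟 _ => root_conj h7 (Pool.Agent.K4H33.SK.quad_normal hF.deg_F)⟩

end Pool.Agent.U131.SR.Lay
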