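import Pool.Agent.U131.SR.Stm
import Pool.Agent.U606.SR.Dist

/-!
Project SR, package PAR: parity of the Stickelberger value.
-/

set_option autoImplicit false

namespace Pool.Agent.U131.SR
open NumberField Module IntermediateField Pool.Agent.K4H33.SK Finset
open Pool.Agent.K4H33.SK.Stmt (Sub)

/-- Every unit comes from an automorphism. -/
lemma par_surj {f : ℕ} [NeZero f] {ζ : Qbar} (hζ : IsPrimitiveRoot ζ f) (u : (ZMod f)ˣ) :
    ∃ g : GQ, hζ.autToPow ℚ g = u := by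
  have hf : 0 < f := Nat.pos_of_ne_zero (NeZero.ne f)
  set n := (u : ZMod f).val with hn
  have hc : n.Coprime f := ZMod.val_coe_unit_coprime u
  have h1 : IsPrimitiveRoot (ζ ^ n) f := hζ.pow_of_coprime n hc
  have h2 : minpoly ℚ ζ = minpoly ℚ (ζ ^ n) := by
    rw [← Polynomial.cyclotomic_eq_minpoly_rat hζ hf, ← Polynomial.cyclotomic_eq_minpoly_rat h1 hf]
  obtain ⟨g, hg⟩ := (isConjRoot_iff_exists_algEquiv (K := ℚ) (x := ζ ^ n) (y := ζ)).1 h2.symm
  exact ⟨g, aut_eq hζ (by rw [hn, ZMod.natCast_zmod_val]) hg⟩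

lemma par_red {f f₁ L : ℕ} [NeZero f] [NeZero f₁] {ζ : Qbar} (hζ : IsPrimitiveRoot ζ f)
    (hζ₁ : IsPrimitiveRoot (ζ ^ L) f₁) (hd : f₁ ∣ f) (g : GQ) :
    hζ₁.autToPow ℚ g = ZMod.unitsMap hd (hζ.autToPow ℚ g) := by
  refine aut_eq hζ₁ (n := ((hζ.autToPow ℚ g : (ZMod f)ˣ) : ZMod f).val) ?_ ?_
  · rw [ZMod.unitsMap_val, ZMod.cast_eq_val]
  · rw [map_pow, ← hζ.autToPow_spec ℚ, ← pow_mul, ← pow_mul, mul_comm]

lemma par_one_iff {f : ℕ} [NeZero f] {ζ : Qbar} (hζ : IsPrimitiveRoot ζ f) {M : Sub}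
    (hM : M ≤ ℚ⟮ζ⟯) (g : GQ) : pp hζ M (hζ.autToPow ℚ g) = 1 ↔ Fixes M g := by
  have h := qq_eq_iff hζ hM (g := g) (g' := 1)
  rw [map_one] at h
  exact h

/-- PAR -/
theorem t_PAR : S_PAR := by
  classical
  intro f _ ζ hζ M l a f₁ hM2 hMζ hneg hl hlf ha hf hMζ₁ n v hn hnv hv
  have hf0 : 0 < f := Nat.pos_of_ne_zero (NeZero.ne f)
  have hf₁0 : 0 < f₁ := by
    rcases Nat.eq_zero_or_pos f₁ with h | h
    · rw [h, mul_zero] at hf; omega
    · exact h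
  have : NeZero f₁ := ⟨hf₁0.ne'⟩
  have hd : f₁ ∣ f := ⟨l ^ a, by rw [hf, mul_comm]⟩
  have hζ₁ : IsPrimitiveRoot (ζ ^ (l ^ a)) f₁ := hζ.pow hf0 hf
  set p := pp hζ M with hp
  set p₁ := pp hζ₁ M with hp₁
  -- comparison of the two projections
  have hpp : ∀ u : (ZMod f)ˣ, p u = 1 ↔ p₁ (ZMod.unitsMap hd u) = 1 := by
    intro u
    obtain ⟨g, rfl⟩ := par_surj hζ u
    rw [hp, par_one_iff hζ hMζ, ← par_red hζ hζ₁ hd, hp₁, par_one_iff hζ₁ hMζ₁]
  have hneg₁ : p₁ (-1) ≠ 1 := by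
    intro h
    apply hneg
    rw [hpp]
    have : ZMod.unitsMap hd (-1) = -1 := by
      apply Units.ext
      rw [ZMod.unitsMap_val, Units.val_neg, Units.val_one, ← ZMod.castHom_apply (h := hd), map_neg, map_one,
        Units.val_neg, Units.val_one]
    rw [this]
    exact h
  have hf₁2 : 2 ≤ f₁ := by
    by_contra h
    have h1 : f₁ = 1 := by omega
    apply hneg₁
    have h2 : (-1 : (ZMod f₁)ˣ) = 1 := by
      subst h1
      exact Subsingleton.elim _ _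
    rw [h2, map_one]
  -- two classes
  have htwo : ∀ w : (ZMod f₁)ˣ, p₁ w ≠ 1 → p₁ w = p₁ (-1) := by
    intro w hw
    obtain ⟨g, hg⟩ := par_surj hζ₁ w
    obtain ⟨c, hc⟩ := par_surj hζ₁ (-1)
    have h1 : ¬ Fixes M g := by
      rw [← par_one_iff hζ₁ hMζ₁, hg]
      exact hw
    have h2 : ¬ Fixes M c := by
      rw [← par_one_iff hζ₁ hMζ₁, hc]
      exact hneg₁
    have h3 := quad hM2 h1 h2
    rw [← par_one_iff hζ₁ hMζ₁, map_mul, hg, hc] at h3
    have h4 : p₁ w * p₁ (-1) = 1 := by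
      rw [← map_mul]
      exact h3
    have h5 : p₁ (-1) * p₁ (-1) = 1 := by
      rw [← map_mul, neg_mul_neg, one_mul, map_one]
    exact mul_right_cancel (h4.trans h5.symm)
  -- the unit of `l`
  have hlc : Nat.Coprime l f₁ := (Nat.Prime.coprime_iff_not_dvd hl).2 hlf
  set lam : (ZMod f₁)ˣ := ZMod.unitOfCoprime l hlc with hlam
  obtain ⟨b, rfl⟩ : ∃ b, a = b + 1 := ⟨a - 1, by omega⟩
  have hLpow : l ^ (b + 1) = l * l ^ b := by rw [pow_succ, mul_comm]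
  have hf' : f = l * l ^ b * f₁ := by rw [hf, hLpow]
  have hS : ∀ w : (ZMod f₁)ˣ, ∑ u : (ZMod f)ˣ, (if ZMod.unitsMap hd u = w then
        ((1 / 2 : ℚ) - ((u : ZMod f).val : ℚ) / f) else 0) =
      (1 / 2 - ((w : ZMod f₁).val : ℚ) / f₁) -
        (1 / 2 - (((lam⁻¹ * w : (ZMod f₁)ˣ) : ZMod f₁).val : ℚ) / f₁) := by
    intro w
    rw [Pool.Agent.U606.SR.units_sum f f₁ l (l ^ b) hl ?_ hf' hd w]
    · have h1 := Pool.Agent.U606.SR.dist l (l ^ b) f₁ (w : ZMod f₁).val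
        ((lam⁻¹ * w : (ZMod f₁)ˣ) : ZMod f₁).val hl hlf (pow_pos hl.pos b) hf₁0 (ZMod.val_lt _) ?_
      · rw [← hf'] at h1
        exact h1
      · rw [← ZMod.val_natCast, Nat.cast_mul, ZMod.natCast_zmod_val]
        congr 1
        have h2 : (l : ZMod f₁) = (lam : ZMod f₁) := (ZMod.coe_unitOfCoprime l hlc).symm
        rw [h2, ← Units.val_mul, mul_inv_cancel_left]
    · intro m hm
      exact Nat.Coprime.pow_right b ((Nat.Prime.coprime_iff_not_dvd hl).2 hm).symm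
  have hθ : theta p 1 = theta p₁ 1 - theta p₁ (p₁ lam)⁻¹ := by
    have h1 : theta p 1 = ∑ w : (ZMod f₁)ˣ, if p₁ w = 1 then
        ∑ u : (ZMod f)ˣ, (if ZMod.unitsMap hd u = w then
          ((1 / 2 : ℚ) - ((u : ZMod f).val : ℚ) / f) else 0) else 0 := by
      unfold theta
      have h2 : ∀ w : (ZMod f₁)ˣ, (if p₁ w = 1 then
        ∑ u : (ZMod f)ˣ, (if ZMod.unitsMap hd u = w then
          ((1 / 2 : ℚ) - ((u : ZMod f).val : ℚ) / f) else 0) else 0) =
          ∑ u : (ZMod f)ˣ, (if ZMod.unitsMap hd u = w then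
            (if p₁ w = 1 then ((1 / 2 : ℚ) - ((u : ZMod f).val : ℚ) / f) else 0) else 0) := by
        intro w
        split_ifs with h
        · rfl
        · simp
      rw [sum_congr rfl (fun w _ => h2 w), sum_comm]
      refine sum_congr rfl (fun u _ => ?_)
      rw [sum_ite_eq]
      simp only [mem_univ, if_true, hpp u]
    rw [h1]
    have h3 : ∀ w : (ZMod f₁)ˣ, (if p₁ w = 1 then
        ∑ u : (ZMod f)ˣ, (if ZMod.unitsMap hd u = w then
          ((1 / 2 : ℚ) - ((u : ZMod f).val : ℚ) / f) else 0) else 0) =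
        (if p₁ w = 1 then (1 / 2 - ((w : ZMod f₁).val : ℚ) / f₁) else 0) -
        (if p₁ w = 1 then (1 / 2 - (((lam⁻¹ * w : (ZMod f₁)ˣ) : ZMod f₁).val : ℚ) / f₁) else 0) := by
      intro w
      rw [hS w]
      split_ifs with h
      · rfl
      · simp
    rw [sum_congr rfl (fun w _ => h3 w), sum_sub_distrib]
    unfold theta
    congr 1
    rw [← Equiv.sum_comp (Equiv.mulLeft lam)]
    refine sum_congr rfl (fun w _ => ?_)
    simp only [Equiv.coe_mulLeft, inv_mul_cancel_left, map_mul]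
    have h4 : p₁ lam * p₁ w = 1 ↔ p₁ w = (p₁ lam)⁻¹ := by
      rw [mul_eq_one_iff_eq_inv', eq_comm, inv_eq_iff_eq_inv, eq_comm, inv_eq_iff_eq_inv]
    simp only [h4]
  -- integrality
  have hn₁ : (n : ZMod f₁) = (ZMod.unitsMap hd v : (ZMod f₁)ˣ) := by
    rw [ZMod.unitsMap_val, ← hnv, ← ZMod.castHom_apply (h := hd), map_natCast]
  obtain ⟨t, ht⟩ := theta_int p₁ n hn (ZMod.unitsMap hd v) hn₁ 1
  rw [(hpp v).1 hv, one_mul] at ht
  by_cases hx : p₁ lam = 1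
  · refine ⟨0, ?_⟩
    rw [hθ, hx, inv_one, sub_self]
    simp
  · refine ⟨t, ?_⟩
    have h1 := htwo lam hx
    have h2 : (p₁ (-1))⁻¹ = p₁ (-1) := by
      rw [← map_inv]
      congr 1
    have h3 := theta_neg p₁ hf₁2 1
    rw [mul_one] at h3
    rw [hθ, h1, h2, h3, ← ht]
    ring

end Pool.Agent.U131.SR
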