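import Pool.Agent.U131.SR.Stm

/-! Project SR: the version without the square root condition: more primes in the modulus. -/

set_option autoImplicit false
set_option linter.style.haveILetI false

namespace Pool.Agent.U131.SR
open NumberField Module IntermediateField Pool.Agent.K4H33.SK
open Pool.Agent.K4H33.SK.Stmt (Sub)

/-- The data of `StarkReal` without the condition on the square root. -/
def StarkReal0 (ι : Qbar →+* ℂ) (F H : Sub) [NumberField F] (𝔣 : Ideal (𝓞 F))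
    (art : Ideal (𝓞 F) → GQ) : Prop :=
  ∃ (Z : GQ → ℂ → ℂ) (ε : Qbar), ε ∈ H ∧ ε ≠ 0 ∧ IsIntegral ℤ ε ∧ IsIntegral ℤ ε⁻¹ ∧
    (∀ σ : GQ, Fixes F σ → IsZeta (cnt F H 𝔣 art σ) (Z σ) ∧ Z σ 0 = 0 ∧
      (Real.log ‖ι (σ ε)‖ : ℂ) = -2 * deriv (Z σ) 0 ∧ Pos ι (σ ε)) ∧
    (∀ w : Qbar →+* ℂ, (∃ x ∈ F, w x ≠ ι x) → ‖w ε‖ = 1)

lemma Pos.div {ι : Qbar →+* ℂ} {x y : Qbar} (hx : Pos ι x) (hy : Pos ι y) : Pos ι (x / y) := by
  obtain ⟨h1, h2⟩ := hx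
  obtain ⟨h3, h4⟩ := hy
  have e1 : ι x = ((ι x).re : ℂ) := Complex.ext (by simp) (by simp [h1])
  have e2 : ι y = ((ι y).re : ℂ) := Complex.ext (by simp) (by simp [h3])
  have e3 : ι (x / y) = (((ι x).re / (ι y).re : ℝ) : ℂ) := by
    rw [map_div₀, e1, e2]
    push_cast
    simp
  unfold Pos
  rw [e3]
  exact ⟨Complex.ofReal_im _, by rw [Complex.ofReal_re]; positivity⟩

lemma stark0_modulus {ι : Qbar →+* ℂ} {F H : Sub} [NumberField F]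
    {𝔤 𝔤' : Ideal (𝓞 F)} {art : Ideal (𝓞 F) → GQ}
    (h : ∀ 𝔟 : Ideal (𝓞 F), IsCoprime 𝔟 𝔤 ↔ IsCoprime 𝔟 𝔤') (hS : StarkReal0 ι F H 𝔤 art) :
    StarkReal0 ι F H 𝔤' art := by
  have h5 : cnt F H 𝔤' art = cnt F H 𝔤 art := by
    funext σ n
    exact (cnt_modulus art h σ n).symm
  unfold StarkReal0 at *
  rw [h5]
  exact hS

lemma stark0_prime {ι : Qbar →+* ℂ} {F H T : Sub} [NumberField F]
    {𝔪 𝔤 P : Ideal (𝓞 F)} {art : Ideal (𝓞 F) → GQ} (hart : IsArtin F T 𝔪 art) (hHT : H ≤ T)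
    (hst : ∀ σ : GQ, Fixes F σ → ∀ x ∈ H, σ x ∈ H)
    (hcm : ∀ σ τ : GQ, Fixes F σ → Fixes F τ → ∀ x ∈ H, σ (τ x) = τ (σ x))
    (hc : ∀ 𝔟 : Ideal (𝓞 F), IsCoprime 𝔟 𝔤 → IsCoprime 𝔟 𝔪) (hP : P.IsPrime)
    (hP0 : P ≠ ⊥) (hPg : IsCoprime P 𝔤) (hS : StarkReal0 ι F H 𝔤 art) :
    StarkReal0 ι F H (𝔤 * P) art := by
  obtain ⟨Z, ε, h1, h2, h4, h5, h3, h6⟩ := hS
  have hρ : Fixes F (art P)⁻¹ := Fixes.inv (hart.fix P (hc P hPg))
  set ρ : GQ := (art P)⁻¹ with hρdef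
  have hρ0 : ρ ε ≠ 0 := by simpa using h2
  have hρH : ρ ε ∈ H := hst ρ hρ ε h1
  have hPn : Ideal.absNorm P ≠ 0 := by
    rw [Ne, Ideal.absNorm_eq_zero_iff]
    exact hP0
  have hPn' : (Ideal.absNorm P : ℂ) ≠ 0 := Nat.cast_ne_zero.2 hPn
  have hd : Differentiable ℂ (fun s : ℂ => (Ideal.absNorm P : ℂ) ^ (-s)) :=
    (differentiable_id.neg).const_cpow (Or.inl hPn')
  refine ⟨fun σ s => Z σ s - (Ideal.absNorm P : ℂ) ^ (-s) * Z (ρ * σ) s, ε / ρ ε,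
    H.div_mem h1 hρH, div_ne_zero h2 hρ0, ?_, ?_, ?_, ?_⟩
  · rw [div_eq_mul_inv, ← map_inv₀]
    exact h4.mul (h5.map (ρ : Qbar →+* Qbar).toIntAlgHom)
  · rw [inv_div, div_eq_mul_inv]
    exact (h4.map (ρ : Qbar →+* Qbar).toIntAlgHom).mul h5
  · intro σ hσ
    have g1 := h3 σ hσ
    have g2 := h3 (ρ * σ) (hρ.mul hσ)
    have hcom : σ (ρ ε) = ρ (σ ε) := hcm σ ρ hσ hρ ε h1
    refine ⟨⟨?_, ?_⟩, ?_, ?_, ?_⟩
    · exact g1.1.1.sub (hd.differentiableOn.mul g2.1.1)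
    · intro s hs
      have e3 := (g1.1.2 s hs).sub (hasSum_shift hPn (g2.1.2 s hs))
      refine (LSeriesHasSum_congr s _ (fun {n} _ => ?_)).1 e3
      have e4 := cnt_prime hart hHT hc hP hP0 hPg σ n
      rw [Pi.sub_apply, e4]
      push_cast
      split_ifs <;> ring
    · simp only
      rw [g1.2.1, g2.2.1]
      ring
    · have hn : ({1}ᶜ : Set ℂ) ∈ nhds (0 : ℂ) := isOpen_compl_singleton.mem_nhds (by simp)
      have d1 := (g1.1.1.differentiableAt hn).hasDerivAt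
      have d2 := (g2.1.1.differentiableAt hn).hasDerivAt
      have d3 := (hd 0).hasDerivAt
      have e5 := (d1.sub (d3.mul d2)).deriv
      have e6 : deriv (fun s => Z σ s - (Ideal.absNorm P : ℂ) ^ (-s) * Z (ρ * σ) s) 0 =
          deriv (Z σ) 0 - deriv (Z (ρ * σ)) 0 := by
        refine Eq.trans e5 ?_
        rw [g2.2.1, mul_zero, zero_add, neg_zero, Complex.cpow_zero, one_mul]
      rw [e6]
      have hn1 : ‖ι (σ ε)‖ ≠ 0 := by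
        rw [norm_ne_zero_iff, Ne, map_eq_zero]
        simpa using h2
      have hn2 : ‖ι ((ρ * σ) ε)‖ ≠ 0 := by
        rw [norm_ne_zero_iff, Ne, map_eq_zero]
        simpa using h2
      have e7 : Real.log ‖ι (σ (ε / ρ ε))‖ =
          Real.log ‖ι (σ ε)‖ - Real.log ‖ι ((ρ * σ) ε)‖ := by
        rw [← Real.log_div hn1 hn2, map_div₀, map_div₀, norm_div, hcom]
        rfl
      rw [e7]
      push_cast
      have e1 := g1.2.2.1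
      have e2 := g2.2.2.1
      rw [e1, e2]
      ring
    · rw [map_div₀, hcom]
      exact Pos.div g1.2.2.2 g2.2.2.2
  · intro w hw
    have h8 : ‖(w.comp (ρ : Qbar →+* Qbar)) ε‖ = 1 := by
      refine h6 _ ?_
      obtain ⟨x, hx, hx2⟩ := hw
      refine ⟨x, hx, ?_⟩
      have h9 : (w.comp (ρ : Qbar →+* Qbar)) x = w x := congrArg w (hρ x hx)
      rw [h9]
      exact hx2
    have h9 : (w.comp (ρ : Qbar →+* Qbar)) ε = w (ρ ε) := rfl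
    rw [h9] at h8
    rw [map_div₀, norm_div, h6 w hw, h8, div_one]

lemma stark0_mul {ι : Qbar →+* ℂ} {F H T : Sub} [NumberField F]
    {𝔪 : Ideal (𝓞 F)} {art : Ideal (𝓞 F) → GQ} (hart : IsArtin F T 𝔪 art) (hHT : H ≤ T)
    (hst : ∀ σ : GQ, Fixes F σ → ∀ x ∈ H, σ x ∈ H)
    (hcm : ∀ σ τ : GQ, Fixes F σ → Fixes F τ → ∀ x ∈ H, σ (τ x) = τ (σ x))
    (hS : StarkReal0 ι F H 𝔪 art) (𝔟 : Ideal (𝓞 F)) :
    𝔟 ≠ 0 → StarkReal0 ι F H (𝔪 * 𝔟) art := by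
  induction 𝔟 using UniqueFactorizationMonoid.induction_on_prime with
  | h₁ => exact fun h => absurd rfl h
  | h₂ 𝔟 hu =>
    intro _
    have h1 : 𝔟 = 1 := by
      rw [Ideal.isUnit_iff] at hu
      rw [hu, Ideal.one_eq_top]
    rw [h1, mul_one]
    exact hS
  | h₃ 𝔟 P h0 hp ih =>
    intro _
    have ih := ih h0
    have hP : P.IsPrime := Ideal.isPrime_of_prime hp
    have hP0 : P ≠ ⊥ := hp.ne_zero
    have e : 𝔪 * (P * 𝔟) = 𝔪 * 𝔟 * P := by rw [mul_comm P, mul_assoc]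
    rw [e]
    by_cases hPg : IsCoprime P (𝔪 * 𝔟)
    · exact stark0_prime hart hHT hst hcm (fun 𝔠 h => (IsCoprime.mul_right_iff.1 h).1) hP hP0 hPg
        ih
    · refine stark0_modulus (fun 𝔠 => ?_) ih
      rw [IsCoprime.mul_right_iff (x := 𝔠) (y := 𝔪 * 𝔟) (z := P)]
      refine ⟨fun h => ⟨h, ?_⟩, fun h => h.1⟩
      rw [isCoprime_comm, isCoprime_prime_iff hP hP0, not_not] at hPg
      rw [Ideal.isCoprime_iff_exists] at h ⊢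
      obtain ⟨i, hi, j, hj, hij⟩ := h
      exact ⟨i, hi, j, hPg hj, hij⟩

lemma coprime_over {F : Sub} [NumberField F] {f : ℕ} {𝔣 : Ideal (𝓞 F)}
    (h𝔣 : ∀ P : Ideal (𝓞 F), P.IsPrime → (f : 𝓞 F) ∈ P → 𝔣 ≤ P) {𝔟 : Ideal (𝓞 F)}
    (h : IsCoprime 𝔟 𝔣) : IsCoprime 𝔟 (pri F f) := by
  rw [Ideal.isCoprime_iff_sup_eq]
  by_contra hne
  obtain ⟨P, hP, hle⟩ := Ideal.exists_le_maximal _ hne
  have hf' : (f : 𝓞 F) ∈ P := hle ((le_sup_right : _ ≤ 𝔟 ⊔ pri F f)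
    (Ideal.mem_span_singleton_self _))
  apply hP.ne_top
  rw [Ideal.eq_top_iff_one]
  obtain ⟨i, hi, j, hj, hij⟩ := Ideal.isCoprime_iff_exists.1 h
  rw [← hij]
  exact P.add_mem (hle ((le_sup_left : 𝔟 ≤ 𝔟 ⊔ _) hi)) (h𝔣 P hP.isPrime hf' hj)

theorem t_PR0 {ι : Qbar →+* ℂ} {F H T : Sub} [NumberField F] {f : ℕ}
    {art : Ideal (𝓞 F) → GQ} (hHT : H ≤ T) (hart : IsArtin F T (pri F f) art)
    (hst : ∀ σ : GQ, Fixes F σ → ∀ x ∈ H, σ x ∈ H)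
    (hcm : ∀ σ τ : GQ, Fixes F σ → Fixes F τ → ∀ x ∈ H, σ (τ x) = τ (σ x))
    (hS : StarkReal0 ι F H (pri F f) art) (𝔣 : Ideal (𝓞 F)) (h0 : 𝔣 ≠ ⊥)
    (h𝔣 : ∀ P : Ideal (𝓞 F), P.IsPrime → (f : 𝓞 F) ∈ P → 𝔣 ≤ P) :
    StarkReal0 ι F H 𝔣 art := by
  have h2 := stark0_mul hart hHT hst hcm hS 𝔣 h0
  refine stark0_modulus (fun 𝔟 => ?_) h2
  rw [IsCoprime.mul_right_iff]
  exact ⟨fun h => h.2, fun h => ⟨coprime_over h𝔣 h, h⟩⟩

end Pool.Agent.U131.SR
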