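import Pool.Agent.K4H33.SK.Stmt

/-!
# Project SR: Stark units over real quadratic fields

`F` real quadratic, `H/F` finite abelian, real at the embedding `ι`, complex at the other place of
`F`, `N` the normal closure of `H` over `ℚ`, and `N` abelian over an imaginary quadratic field `M`.
Stark's theorem for `N/M` gives Tate's refined Stark conjecture for `H/F`.
-/

set_option autoImplicit false

namespace Pool.Agent.U131.SR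
open NumberField Module IntermediateField Pool.Agent.K4H33.SK
open Pool.Agent.K4H33.SK.Stmt (Sub)

/-- the ideal of `K` generated by `f` -/
noncomputable abbrev pri (K : Sub) (f : ℕ) : Ideal (𝓞 K) := Ideal.span {(f : 𝓞 K)}

/-- no prime of `N` prime to `f` is ramified over `ℚ` (trivial inertia groups) -/
def Unr (N : Sub) (f : ℕ) : Prop :=
  ∀ 𝔓 : Ideal (𝓞 Qbar), 𝔓.IsPrime → (f : 𝓞 Qbar) ∉ 𝔓 → ∀ σ : GQ,
    (∀ x y : 𝓞 Qbar, (x : Qbar) ∈ N → (y : Qbar) = σ (x : Qbar) → y - x ∈ 𝔓) → ∀ x ∈ N, σ x = x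

/-- the fields -/
structure Fld (ι : Qbar →+* ℂ) (F M N H : Sub) (f : ℕ) (ζ : Qbar) : Prop where
  deg_F : finrank ℚ F = 2
  deg_M : finrank ℚ M = 2
  real_F : ∀ x ∈ F, (ι x).im = 0
  imag_M : ∃ x ∈ M, (ι x).im ≠ 0
  normal : Normal ℚ N
  F_le : F ≤ N
  M_le : M ≤ N
  ab_F : ∀ σ τ : GQ, Fixes F σ → Fixes F τ → ∀ x ∈ N, σ (τ x) = τ (σ x)
  ab_M : ∀ σ τ : GQ, Fixes M σ → Fixes M τ → ∀ x ∈ N, σ (τ x) = τ (σ x)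
  nonab : ∃ σ τ : GQ, ∃ x ∈ N, σ (τ x) ≠ τ (σ x)
  mem_H : ∀ x, x ∈ H ↔ x ∈ N ∧ (ι x).im = 0
  unr : Unr N f
  two_le : 2 ≤ f
  prim : IsPrimitiveRoot ζ f
  cyc : ∀ x ∈ N, (∀ σ τ : GQ, σ (τ x) = τ (σ x)) → x ∈ ℚ⟮ζ⟯

/-- complex conjugation `c` and the nontrivial commutator `z` -/
structure Grp (ι : Qbar →+* ℂ) (F M N H : Sub) (c z : GQ) : Prop where
  conj : ∀ x, ι (c x) = (starRingEnd ℂ) (ι x)
  cc : ∀ x, c (c x) = x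
  c_F : Fixes F c
  c_M : ¬ Fixes M c
  c_H : Fixes H c
  z_F : Fixes F z
  z_M : Fixes M z
  z_root : ∀ (ξ : Qbar) (n : ℕ), n ≠ 0 → ξ ^ n = 1 → z ξ = ξ
  z_ne : ∃ x ∈ N, z x ≠ x
  zz : ∀ x ∈ N, z (z x) = x
  z_comm : ∀ σ : GQ, ∀ x ∈ N, z (σ x) = σ (z x)
  comm : ∀ σ τ : GQ, (∀ x ∈ N, σ (τ x) = τ (σ x)) ∨ (∀ x ∈ N, σ (τ x) = z (τ (σ x)))
  bc : ∀ b : GQ, ¬ Fixes F b → ∀ x ∈ N, b (c x) = z (c (b x))
  central : ∀ g : GQ, Fixes F g → Fixes M g → ∀ σ : GQ, ∀ x ∈ N, g (σ x) = σ (g x)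
  H_fix : ∀ g : GQ, Fixes H g → (∀ x ∈ N, g x = x) ∨ (∀ x ∈ N, g x = c x)
  H_stab : ∀ g : GQ, Fixes F g → ∀ x ∈ H, g x ∈ H
  R_fix : ∀ g : GQ, (∀ x ∈ H, z x = x → g x = x) →
    (∀ x ∈ H, g x = x) ∨ (∀ x ∈ H, g x = z x)

/-- GR -/
def S_GR : Prop := ∀ (ι : Qbar →+* ℂ) (F M N H : Sub) (f : ℕ) (ζ : Qbar),
  Fld ι F M N H f ζ → ∃ c z : GQ, Grp ι F M N H c z

/-! ### splitting of primes -/

/-- FR: the Frobenius automorphism of a prime and the quadratic subfields of `N` -/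
def S_FR : Prop := ∀ (N : Sub) (f : ℕ), FiniteDimensional ℚ N → Normal ℚ N → Unr N f →
  ∀ p : ℕ, p.Prime → ¬ p ∣ f → ∃ (φ : GQ) (𝔓 : Ideal (𝓞 Qbar)), 𝔓.IsPrime ∧ (p : 𝓞 Qbar) ∈ 𝔓 ∧
    (∀ x y : 𝓞 Qbar, (x : Qbar) ∈ N → (y : Qbar) = φ (x : Qbar) → y - x ^ p ∈ 𝔓) ∧
    ∀ (K : Sub) [NumberField K], finrank ℚ K = 2 → K ≤ N →
      (Fixes K φ → ∃ P₁ P₂ : Ideal (𝓞 K), P₁ ≠ P₂ ∧ P₁.IsPrime ∧ P₂.IsPrime ∧
        Ideal.absNorm P₁ = p ∧ Ideal.absNorm P₂ = p ∧ P₁ * P₂ = pri K p ∧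
        ∀ (T : Sub) (art : Ideal (𝓞 K) → GQ), N ≤ T → IsArtin K T (pri K f) art →
          (∀ x ∈ N, art P₁ x = φ x) ∧
          ∀ b : GQ, ¬ Fixes K b → ∀ x ∈ N, art P₂ x = b (φ (b⁻¹ x))) ∧
      (¬ Fixes K φ → (pri K p).IsPrime ∧
        ∀ (T : Sub) (art : Ideal (𝓞 K) → GQ), N ≤ T → IsArtin K T (pri K f) art →
          ∀ x ∈ N, art (pri K p) x = φ (φ x))

/-- the sum of `ψ` over the ideals of norm `n` -/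
noncomputable def SI (K : Sub) [NumberField K] {R : Type} [CommRing R] (ψ : Ideal (𝓞 K) → R)
    (n : ℕ) : R := ∑ᶠ 𝔟 ∈ {𝔟 : Ideal (𝓞 K) | Ideal.absNorm 𝔟 = n}, ψ 𝔟

/-- MU: sums of multiplicative functions over the ideals of norm `n` of a quadratic field -/
def S_MU : Prop := ∀ (K : Sub) [NumberField K] (R : Type) [CommRing R] (f : ℕ)
  (ψ : Ideal (𝓞 K) → R), finrank ℚ K = 2 → 2 ≤ f → ψ ⊤ = 1 →
  (∀ 𝔟 𝔠 : Ideal (𝓞 K), IsCoprime 𝔟 (pri K f) → IsCoprime 𝔠 (pri K f) →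
    ψ (𝔟 * 𝔠) = ψ 𝔟 * ψ 𝔠) →
  SI K ψ 1 = 1 ∧
  (∀ m n : ℕ, m.Coprime f → n.Coprime f → m.Coprime n → SI K ψ (m * n) = SI K ψ m * SI K ψ n) ∧
  (∀ (p e : ℕ) (P₁ P₂ : Ideal (𝓞 K)), p.Prime → ¬ p ∣ f → P₁ ≠ P₂ → P₁.IsPrime → P₂.IsPrime →
    Ideal.absNorm P₁ = p → Ideal.absNorm P₂ = p → P₁ * P₂ = pri K p →
    SI K ψ (p ^ e) = ∑ i ∈ Finset.range (e + 1), ψ P₁ ^ i * ψ P₂ ^ (e - i)) ∧
  (∀ p e : ℕ, p.Prime → ¬ p ∣ f → (pri K p).IsPrime →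
    SI K ψ (p ^ e) = if Even e then ψ (pri K p) ^ (e / 2) else 0)

/-- E1: the number of ideals of norm `n` of a quadratic subfield of a cyclotomic field -/
def S_E1 : Prop := ∀ (K : Sub) [NumberField K] (f : ℕ) [NeZero f] (ζ : Qbar)
  (hζ : IsPrimitiveRoot ζ f), 2 ≤ f → finrank ℚ K = 2 → K ≤ ℚ⟮ζ⟯ → ∀ n : ℕ, n.Coprime f →
  (Nat.card {𝔞 : Ideal (𝓞 K) // Ideal.absNorm 𝔞 = n} : ℂ) =
    ∑ d ∈ n.divisors, (2 * ind (pp hζ K) 1 (d : ZMod f) - 1)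

/-- A1: Artin's factorization, for the part of the partial zeta functions odd under `z` -/
def S_A1 : Prop := ∀ (ι : Qbar →+* ℂ) (F M N H : Sub) [NumberField F] [NumberField M]
  (f : ℕ) (ζ : Qbar) (c z : GQ) (T : Sub) (artF : Ideal (𝓞 F) → GQ) (artM : Ideal (𝓞 M) → GQ),
  FiniteDimensional ℚ N → Fld ι F M N H f ζ → Grp ι F M N H c z → N ≤ T →
  IsArtin F T (pri F f) artF → IsArtin M T (pri M f) artM →
  ∀ g : GQ, Fixes F g → Fixes M g → ∀ n : ℕ, n.Coprime f →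
    (cnt F H (pri F f) artF g n : ℤ) - cnt F H (pri F f) artF (g * z) n =
      cnt M N (pri M f) artM g n - cnt M N (pri M f) artM (g * z) n

/-! ### analysis -/

open Classical in
/-- the quadratic character of `K ≤ L` on the Galois group of `L ≤ ℚ(ζ)` -/
noncomputable def chiQ {f : ℕ} [NeZero f] {ζ : Qbar} (hζ : IsPrimitiveRoot ζ f) (K L : Sub)
    (x : QQ hζ L) : ℂ := if ∃ g : GQ, Fixes K g ∧ qq hζ L g = x then 1 else -1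

/-- LD: the partial zeta functions of `L/K`, for `K` quadratic and `L` inside `ℚ(ζ)` -/
def S_LD : Prop := ∀ (K L T : Sub) [NumberField K] (f : ℕ) [NeZero f] (ζ : Qbar)
  (hζ : IsPrimitiveRoot ζ f) (art : Ideal (𝓞 K) → GQ) [Fintype (QQ hζ L)], 2 ≤ f →
  finrank ℚ K = 2 → K ≤ L → L ≤ ℚ⟮ζ⟯ → L ≤ T → ζ ∈ T → IsArtin K T (pri K f) art →
  ∀ g : GQ, Fixes K g → IsZeta (cnt K L (pri K f) art g) (fun s => ∑ x : QQ hζ L,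
    chiQ hζ K L x * (zq (pp hζ L) x s * zq (pp hζ L) (qq hζ L g * x⁻¹) s))

/-- EV: double zeros at `0` over real abelian fields -/
def S_EV : Prop := ∀ (K L T : Sub) [NumberField K] (f : ℕ) [NeZero f] (ζ : Qbar)
  (hζ : IsPrimitiveRoot ζ f) (art : Ideal (𝓞 K) → GQ), 2 ≤ f →
  finrank ℚ K = 2 → K ≤ L → L ≤ ℚ⟮ζ⟯ → L ≤ T → ζ ∈ T → IsArtin K T (pri K f) art →
  pp hζ L (-1) = 1 → ∀ g : GQ, Fixes K g →
    ∃ E : ℂ → ℂ, IsZeta (cnt K L (pri K f) art g) E ∧ E 0 = 0 ∧ deriv E 0 = 0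

/-- CYD: Kronecker's (Lerch's) formula for the even partial zeta functions modulo `f` -/
def S_CYD : Prop := ∀ (f : ℕ) [NeZero f], 2 ≤ f → ∀ (Q : Type) [CommGroup Q] [DecidableEq Q]
  (p : (ZMod f)ˣ →* Q) (x : Q),
  deriv (zq p x) 0 + deriv (zq p (p (-1) * x)) 0 = -((∑ u : (ZMod f)ˣ,
    if p u = x then Real.log ‖1 - Complex.exp (2 * Real.pi * Complex.I *
      ((u : ZMod f).val : ℂ) / f)‖ else 0 : ℝ) : ℂ)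

open Classical in
/-- the products of the `1 - ζ ^ w` over the classes `x` of `Gal(R/ℚ)` -/
noncomputable def eR {f : ℕ} [NeZero f] {ζ : Qbar} (hζ : IsPrimitiveRoot ζ f) (R : Sub)
    (x : QQ hζ R) : Qbar :=
  ∏ w : (ZMod f)ˣ, if pp hζ R w = x then 1 - ζ ^ (w : ZMod f).val else 1

/-- ζ is the standard root of unity -/
def Std (ι : Qbar →+* ℂ) (f : ℕ) (ζ : Qbar) : Prop :=
  ι ζ = Complex.exp (2 * Real.pi * Complex.I / f)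

open Classical in
/-- A2: the derivative at `0` of the partial zeta functions of `P/M`, `M` imaginary quadratic -/
def S_A2 : Prop := ∀ (ι : Qbar →+* ℂ) (M P R T : Sub) [NumberField M] (f : ℕ) [NeZero f]
  (ζ : Qbar) (hζ : IsPrimitiveRoot ζ f) (art : Ideal (𝓞 M) → GQ), 2 ≤ f → Std ι f ζ →
  finrank ℚ M = 2 → M ≤ P → P ≤ ℚ⟮ζ⟯ → P ≤ T → ζ ∈ T → (∃ x ∈ M, (ι x).im ≠ 0) →
  (∀ x, x ∈ R ↔ x ∈ P ∧ (ι x).im = 0) → IsArtin M T (pri M f) art →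
  ∀ g : GQ, Fixes M g → ∀ E : ℂ → ℂ, IsZeta (cnt M P (pri M f) art g) E →
    deriv E 0 = -((∑ u : (ZMod f)ˣ, if pp hζ M u = 1 then
      (1 / 2 - ((u : ZMod f).val : ℝ) / f) *
        Real.log ‖ι (eR hζ R (qq hζ R g * (pp hζ R u)⁻¹))‖ else 0 : ℝ) : ℂ)

/-- ZF: the partial zeta functions of `H/F` -/
def S_ZF : Prop := ∀ (ι : Qbar →+* ℂ) (F M N H : Sub) [NumberField F] [NumberField M]
  (f : ℕ) (ζ : Qbar) (c z : GQ) (T : Sub) (artF : Ideal (𝓞 F) → GQ) (artM : Ideal (𝓞 M) → GQ)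
  (Z : GQ → ℂ → ℂ),
  FiniteDimensional ℚ N → Fld ι F M N H f ζ → Grp ι F M N H c z → N ≤ T → ζ ∈ T →
  IsArtin F T (pri F f) artF → IsArtin M T (pri M f) artM →
  (∀ σ : GQ, Fixes M σ → IsZeta (cnt M N (pri M f) artM σ) (Z σ) ∧ Z σ 0 = 0) →
  ∀ g : GQ, Fixes F g → Fixes M g → ∃ E : ℂ → ℂ, IsZeta (cnt F H (pri F f) artF g) E ∧ E 0 = 0 ∧
    2 * deriv E 0 = deriv (Z g) 0 - deriv (Z (g * z)) 0

/-! ### the unit -/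

/-- what is used of Stark's theorem for `N/M` -/
structure Stk (ι : Qbar →+* ℂ) (M N : Sub) (W : ℕ) (C : GQ → ℕ → ℕ) (Z : GQ → ℂ → ℂ)
    (ε lam : Qbar) : Prop where
  W_pos : 0 < W
  mem : ε ∈ N
  ne : ε ≠ 0
  C_congr : ∀ σ τ : GQ, (∀ x ∈ N, σ x = τ x) → C σ = C τ
  lim : LimitFormula ι M W C Z ε
  int : ∀ σ : GQ, Fixes M σ → IsIntegral ℤ (σ ε / ε)
  ab : AbelianRoot M W ε
  root : lam ^ W = ε

/-- the Stark unit of `H/F` -/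
noncomputable def sU (c z : GQ) (lam : Qbar) : Qbar := lam / z⁻¹ lam * c (lam / z⁻¹ lam)

/-- `x` is real positive under `ι` -/
def Pos (ι : Qbar →+* ℂ) (x : Qbar) : Prop := (ι x).im = 0 ∧ 0 < (ι x).re

/-- UN: the unit -/
def S_UN : Prop := ∀ (ι : Qbar →+* ℂ) (F M N H : Sub) (f : ℕ) (ζ : Qbar) (c z : GQ) (W : ℕ)
  (C : GQ → ℕ → ℕ) (Z : GQ → ℂ → ℂ) (ε lam : Qbar),
  Fld ι F M N H f ζ → Grp ι F M N H c z → Stk ι M N W C Z ε lam →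
  lam / z⁻¹ lam ∈ N ∧ sU c z lam ∈ H ∧ sU c z lam ≠ 0 ∧ IsIntegral ℤ (sU c z lam) ∧
    IsIntegral ℤ (sU c z lam)⁻¹ ∧
    (∀ w : Qbar →+* ℂ, (∃ x ∈ F, w x ≠ ι x) → ‖w (sU c z lam)‖ = 1) ∧
    (∀ g : GQ, Fixes F g → Pos ι (g (sU c z lam))) ∧
    (∀ g : GQ, Fixes F g → Fixes M g → (Real.log ‖ι (g (sU c z lam))‖ : ℂ) =
      -(deriv (Z g) 0 - deriv (Z (g * z)) 0))

/-- `a_g` -/
noncomputable def sA (lam : Qbar) (g : GQ) (n : ℕ) : Qbar := g lam / lam ^ n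

/-- `u_g = a_g · c a_g` -/
noncomputable def sV (c : GQ) (lam : Qbar) (g : GQ) (n : ℕ) : Qbar := sA lam g n * c (sA lam g n)

/-- AV: the elements `a_g` -/
def S_AV : Prop := ∀ (ι : Qbar →+* ℂ) (F M N H : Sub) (f : ℕ) (ζ : Qbar) (c z : GQ) (W : ℕ)
  (C : GQ → ℕ → ℕ) (Z : GQ → ℂ → ℂ) (ε lam : Qbar),
  Fld ι F M N H f ζ → Grp ι F M N H c z → Stk ι M N W C Z ε lam →
  ∀ (g : GQ) (n : ℕ), Fixes F g → Fixes M g → (∀ ξ : Qbar, ξ ^ W = 1 → g ξ = ξ ^ n) →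
    sA lam g n ∈ N ∧ sV c lam g n ∈ H ∧
    g (sU c z lam) = sU c z lam ^ n * (sV c lam g n / z⁻¹ (sV c lam g n)) ∧
    (∀ τ : GQ, Fixes F τ → Pos ι (τ (sV c lam g n)) ∧ Pos ι (τ (z⁻¹ (sV c lam g n)))) ∧
    (Real.log ‖ι (sV c lam g n * z⁻¹ (sV c lam g n))‖ : ℂ) =
      -((deriv (Z g) 0 + deriv (Z (g * z)) 0) - n * (deriv (Z 1) 0 + deriv (Z z) 0))

/-- the integers `θ(n u) - n θ(u)`, `θ(u) = 1/2 - u/f` -/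
noncomputable def YY (f : ℕ) [NeZero f] (n : ℕ) (u : (ZMod f)ˣ) : ℤ :=
  ⌊((1 / 2 : ℚ) - ((((n : ZMod f) * (u : ZMod f)).val : ℕ) : ℚ) / f) -
    n * ((1 / 2 : ℚ) - (((u : ZMod f).val : ℕ) : ℚ) / f)⌋

open Classical in
/-- the product of the `eR` with these exponents -/
noncomputable def pE {f : ℕ} [NeZero f] {ζ : Qbar} (hζ : IsPrimitiveRoot ζ f) (M R : Sub)
    (n : ℕ) : Qbar :=
  ∏ u : (ZMod f)ˣ, if pp hζ M u = 1 then eR hζ R (pp hζ R u)⁻¹ ^ YY f n u else 1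

/-- VG: `N_{N/R}(a_g)` is a product of cyclotomic numbers -/
def S_VG : Prop := ∀ (ι : Qbar →+* ℂ) (F M N H R : Sub) [NumberField M] (f : ℕ) [NeZero f]
  (ζ : Qbar) (hζ : IsPrimitiveRoot ζ f) (c z : GQ) (T : Sub) (artM : Ideal (𝓞 M) → GQ) (W : ℕ)
  (Z : GQ → ℂ → ℂ) (ε lam : Qbar), Std ι f ζ →
  Fld ι F M N H f ζ → Grp ι F M N H c z → (∀ x, x ∈ R ↔ x ∈ H ∧ z x = x) →
  N ≤ T → ζ ∈ T → IsArtin M T (pri M f) artM →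
  Stk ι M N W (cnt M N (pri M f) artM) Z ε lam →
  ∀ (g : GQ) (n : ℕ), Fixes F g → Fixes M g → Odd n → n.Coprime f → g ζ = ζ ^ n →
    (∀ ξ : Qbar, ξ ^ W = 1 → g ξ = ξ ^ n) →
    sV c lam g n * z⁻¹ (sV c lam g n) = pE hζ M R n

/-- KAP: `± eR 1` is a square in `ℚ(ζ)` -/
def S_KAP : Prop := ∀ (f : ℕ) [NeZero f] (ζ : Qbar) (hζ : IsPrimitiveRoot ζ f) (R : Sub),
  3 ≤ f → R ≤ ℚ⟮ζ⟯ → pp hζ R (-1) = 1 → (Odd f ∨ (4 ∣ f ∧ R ≤ ℚ⟮ζ ^ 4⟯ ∧ R ≠ ⊥)) →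
  ∃ κ ∈ ℚ⟮ζ⟯, κ ≠ 0 ∧ (eR hζ R 1 = κ ^ 2 ∨ eR hζ R 1 = -κ ^ 2)

/-- PAR: parity -/
def S_PAR : Prop := ∀ (f : ℕ) [NeZero f] (ζ : Qbar) (hζ : IsPrimitiveRoot ζ f) (M : Sub)
  (l a f₁ : ℕ), finrank ℚ M = 2 → M ≤ ℚ⟮ζ⟯ → pp hζ M (-1) ≠ 1 → l.Prime → ¬ l ∣ f₁ → 1 ≤ a →
  f = l ^ a * f₁ → M ≤ ℚ⟮ζ ^ (l ^ a)⟯ → ∀ (n : ℕ) (v : (ZMod f)ˣ), Odd n → (n : ZMod f) = v →
  pp hζ M v = 1 → ∃ t : ℤ, (1 - n : ℚ) * theta (pp hζ M) 1 = 2 * t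

/-- RG: square roots of the products `pE` -/
def S_RG : Prop := ∀ (f : ℕ) [NeZero f] (ζ : Qbar) (hζ : IsPrimitiveRoot ζ f) (M R : Sub)
  (κ : Qbar), 2 ≤ f → κ ∈ ℚ⟮ζ⟯ → κ ≠ 0 → (eR hζ R 1 = κ ^ 2 ∨ eR hζ R 1 = -κ ^ 2) →
  ∃ r : ℕ → Qbar,
    (∀ (n : ℕ) (v : (ZMod f)ˣ), Odd n → (n : ZMod f) = v → pp hζ M v = 1 →
      (∃ t : ℤ, (1 - n : ℚ) * theta (pp hζ M) 1 = 2 * t) → r n ^ 2 = pE hζ M R n) ∧
    (∀ (n m : ℕ) (g h : GQ), Odd n → Odd m → n.Coprime f → m.Coprime f → Fixes M g → Fixes M h →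
      g ζ = ζ ^ n → h ζ = ζ ^ m → h (r n) * r m ^ n = g (r m) * r n ^ m)

/-- AR: the abelian root property -/
def S_AR : Prop := ∀ (ι : Qbar →+* ℂ) (F M N H R : Sub) [NumberField M] (f : ℕ) [NeZero f]
  (ζ : Qbar) (hζ : IsPrimitiveRoot ζ f) (c z : GQ) (T : Sub) (artM : Ideal (𝓞 M) → GQ) (W : ℕ)
  (Z : GQ → ℂ → ℂ) (ε lam : Qbar) (l a f₁ : ℕ), Std ι f ζ →
  Fld ι F M N H f ζ → Grp ι F M N H c z → (∀ x, x ∈ R ↔ x ∈ H ∧ z x = x) →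
  N ≤ T → ζ ∈ T → IsArtin M T (pri M f) artM →
  Stk ι M N W (cnt M N (pri M f) artM) Z ε lam →
  (Odd f ∨ (4 ∣ f ∧ R ≤ ℚ⟮ζ ^ 4⟯)) →
  l.Prime → ¬ l ∣ f₁ → 1 ≤ a → f = l ^ a * f₁ → M ≤ ℚ⟮ζ ^ (l ^ a)⟯ →
  AbelianRoot F 2 (sU c z lam)

/-! ### the conclusion -/

/-- Tate's refined rank one abelian Stark conjecture for the abelian extension `H` of the real
quadratic field `F`, which is real at the place of `F` given by `ι` and complex at the other one,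
and the set of places given by `𝔣` and infinity; the number of roots of unity of `H` is `2`. -/
def StarkReal (ι : Qbar →+* ℂ) (F H : Sub) [NumberField F] (𝔣 : Ideal (𝓞 F))
    (art : Ideal (𝓞 F) → GQ) : Prop :=
  ∃ (Z : GQ → ℂ → ℂ) (ε : Qbar), ε ∈ H ∧ ε ≠ 0 ∧ IsIntegral ℤ ε ∧ IsIntegral ℤ ε⁻¹ ∧
    (∀ σ : GQ, Fixes F σ → IsZeta (cnt F H 𝔣 art σ) (Z σ) ∧ Z σ 0 = 0 ∧
      (Real.log ‖ι (σ ε)‖ : ℂ) = -2 * deriv (Z σ) 0 ∧ Pos ι (σ ε)) ∧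
    (∀ w : Qbar →+* ℂ, (∃ x ∈ F, w x ≠ ι x) → ‖w ε‖ = 1) ∧ AbelianRoot F 2 ε

/-- PR: more primes in the modulus -/
def S_PR : Prop := ∀ (ι : Qbar →+* ℂ) (F H T : Sub) [NumberField F] (f : ℕ)
  (art : Ideal (𝓞 F) → GQ), 2 ≤ f → F ≤ H → H ≤ T → IsArtin F T (pri F f) art →
  StarkReal ι F H (pri F f) art → ∀ 𝔣 : Ideal (𝓞 F), 𝔣 ≠ ⊥ →
  (∀ P : Ideal (𝓞 F), P.IsPrime → (f : 𝓞 F) ∈ P → 𝔣 ≤ P) → StarkReal ι F H 𝔣 art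

/-- the `f`-th cyclotomic field -/
noncomputable def Cyc (f : ℕ) : Sub := IntermediateField.adjoin ℚ {ξ : Qbar | ξ ^ f = 1}

/-- The fields of the theorem: `F` is quadratic, `H/F` is finite abelian, real at `ι` and complex
at some place, `N` is the normal closure of `H`, `M` is an imaginary quadratic subfield of `N` and
`N/M` is abelian; all primes ramified in `N` divide `f`, and the maximal abelian subfield of `N` is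
contained in the `f`-th cyclotomic field. -/
structure Fields (ι : Qbar →+* ℂ) (F H M N : Sub) (f : ℕ) : Prop where
  deg_F : finrank ℚ F = 2
  fin : FiniteDimensional ℚ H
  le : F ≤ H
  galois : ∀ σ : GQ, Fixes F σ → ∀ x ∈ H, σ x ∈ H
  abelian : ∀ σ τ : GQ, Fixes F σ → Fixes F τ → ∀ x ∈ H, σ (τ x) = τ (σ x)
  real : ∀ x ∈ H, (ι x).im = 0
  complex : ∃ w : Qbar →+* ℂ, ∃ x ∈ H, (w x).im ≠ 0
  conj_mem : ∀ σ : GQ, ∀ x ∈ H, σ x ∈ N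
  minimal : ∀ N' : Sub, (∀ σ : GQ, ∀ x ∈ H, σ x ∈ N') → N ≤ N'
  deg_M : finrank ℚ M = 2
  imag : ∃ x ∈ M, (ι x).im ≠ 0
  M_le : M ≤ N
  abelian_M : ∀ σ τ : GQ, Fixes M σ → Fixes M τ → ∀ x ∈ N, σ (τ x) = τ (σ x)
  unramified : Unr N f
  two_le : 2 ≤ f
  cyclotomic : ∀ x ∈ N, (∀ σ τ : GQ, σ (τ x) = τ (σ x)) → x ∈ Cyc f

/-- FX: from `Fields` to `Fld` -/
def S_FX : Prop := ∀ (ι : Qbar →+* ℂ) (F H M N : Sub) (f : ℕ) (ζ : Qbar), Fields ι F H M N f →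
  IsPrimitiveRoot ζ f → FiniteDimensional ℚ N ∧ Fld ι F M N H f ζ

/-- the main theorem -/
def Main : Prop := ∀ (ι : Qbar →+* ℂ) (F H M N : Sub) [NumberField F] [NumberField M] (f : ℕ),
  Fields ι F H M N f →
  (Odd f ∨ (4 ∣ f ∧ ∀ x ∈ N, (∀ σ τ : GQ, σ (τ x) = τ (σ x)) → x ∈ Cyc (f / 4))) →
  (∃ l a f₁ : ℕ, l.Prime ∧ ¬ l ∣ f₁ ∧ 1 ≤ a ∧ f = l ^ a * f₁ ∧ M ≤ Cyc f₁) →
  ∀ (artF : Ideal (𝓞 F) → GQ) (artM : Ideal (𝓞 M) → GQ),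
  IsArtin F (N ⊔ Cyc f) (pri F f) artF → IsArtin M (N ⊔ Cyc f) (pri M f) artM →
  ∀ W : ℕ, IsTorsionOrder N W → StarkImQuad ι M N (pri M f) artM W →
  ∀ 𝔣 : Ideal (𝓞 F), 𝔣 ≠ ⊥ → (∀ P : Ideal (𝓞 F), P.IsPrime → (f : 𝓞 F) ∈ P → 𝔣 ≤ P) →
    StarkReal ι F H 𝔣 artF

end Pool.Agent.U131.SR
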